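import Pool.Agent.H901R3.MS.Defs

/-!
The residue field of the algebraic closure of `ℚ_p` and the action of the Galois group.  The first part is
adapted from a file on the lifting of the Frobenius automorphism (N890/DU).
-/

set_option autoImplicit false

namespace Pool.Agent.Run7.h507.Loc1

open scoped Pointwise

section

variable (p : ℕ) [Fact p.Prime]

/-- the algebraic closure of `ℚ_p` -/
abbrev Om : Type := AlgebraicClosure ℚ_[p]

/-- the absolute Galois group of `ℚ_p` -/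
abbrev Gp : Type := AlgebraicClosure ℚ_[p] ≃ₐ[ℚ_[p]] AlgebraicClosure ℚ_[p]

variable {p} in
theorem nrm (σ : Gp p) (x : Om p) : ‖σ x‖ = ‖x‖ :=
  (spectralNorm_eq_of_equiv σ x).symm

/-- the integers of the algebraic closure -/
def Bp : Subring (Om p) where
  carrier := {x | ‖x‖ ≤ 1}
  zero_mem' := by simp
  one_mem' := by simp
  mul_mem' := by
    intro a b ha hb
    show ‖a * b‖ ≤ 1
    rw [norm_mul]
    exact mul_le_one₀ ha (norm_nonneg _) hb
  add_mem' := by
    intro a b ha hb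
    exact (IsUltrametricDist.norm_add_le_max a b).trans (max_le ha hb)
  neg_mem' := by
    intro a ha
    show ‖-a‖ ≤ 1
    rw [norm_neg]
    exact ha

/-- the maximal ideal -/
def Pp : Ideal (Bp p) where
  carrier := {x | ‖(x : Om p)‖ < 1}
  zero_mem' := by simp
  add_mem' := by
    intro a b ha hb
    exact (IsUltrametricDist.norm_add_le_max (a : Om p) b).trans_lt (max_lt ha hb)
  smul_mem' := by
    intro a b hb
    show ‖(a : Om p) * (b : Om p)‖ < 1
    rw [norm_mul]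
    exact (mul_le_of_le_one_left (norm_nonneg _) a.2).trans_lt hb

instance : (Pp p).IsPrime := by
  rw [Ideal.isPrime_iff]
  constructor
  · rw [Ideal.ne_top_iff_one]
    intro h
    have h1 : ‖((1 : Bp p) : Om p)‖ < 1 := h
    simp at h1
  · intro x y hxy
    by_contra hcon
    rw [not_or] at hcon
    have h1 : 1 ≤ ‖(x : Om p)‖ := not_lt.1 hcon.1
    have h2 : 1 ≤ ‖(y : Om p)‖ := not_lt.1 hcon.2
    have h3 : ‖(x : Om p) * (y : Om p)‖ < 1 := hxy
    rw [norm_mul] at h3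
    nlinarith

noncomputable instance : MulSemiringAction (Gp p) (Bp p) where
  smul σ x := ⟨σ x, (nrm σ x).trans_le x.2⟩
  one_smul _ := rfl
  mul_smul _ _ _ := rfl
  smul_zero σ := Subtype.ext (map_zero σ)
  smul_add σ x y := Subtype.ext (map_add σ (x : Om p) (y : Om p))
  smul_one σ := Subtype.ext (map_one σ)
  smul_mul σ x y := Subtype.ext (map_mul σ (x : Om p) (y : Om p))

theorem coe_smul (σ : Gp p) (x : Bp p) : ((σ • x : Bp p) : Om p) = σ x := rfl

/-- the structure map -/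
noncomputable def emb : ℤ_[p] →+* Bp p where
  toFun a := ⟨algebraMap ℚ_[p] (Om p) a, by
    show ‖algebraMap ℚ_[p] (Om p) a‖ ≤ 1
    rw [PadicAlgCl.norm_extends]
    exact a.2⟩
  map_one' := Subtype.ext (by simp)
  map_zero' := Subtype.ext (by simp)
  map_add' a b := Subtype.ext (by simp)
  map_mul' a b := Subtype.ext (by simp)

noncomputable instance : Algebra ℤ_[p] (Bp p) := (emb p).toAlgebra

theorem coe_algebraMap (a : ℤ_[p]) : ((algebraMap ℤ_[p] (Bp p) a : Bp p) : Om p) =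
    algebraMap ℚ_[p] (Om p) a := rfl

instance : SMulCommClass (Gp p) ℤ_[p] (Bp p) := by
  refine ⟨fun g a b => ?_⟩
  rw [Algebra.smul_def, Algebra.smul_def]
  apply Subtype.ext
  rw [coe_smul]
  show g ((algebraMap ℤ_[p] (Bp p) a : Bp p) * (b : Om p)) =
    (algebraMap ℤ_[p] (Bp p) a : Bp p) * g b
  rw [map_mul, coe_algebraMap, AlgEquiv.commutes]

instance : Algebra.IsInvariant ℤ_[p] (Bp p) (Gp p) := by
  refine ⟨fun b hb => ?_⟩
  have h1 : (b : Om p) ∈ Set.range (algebraMap ℚ_[p] (Om p)) := by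
    rw [InfiniteGalois.mem_range_algebraMap_iff_fixed]
    intro g
    exact congrArg (fun z : Bp p => (z : Om p)) (hb g)
  obtain ⟨a, ha⟩ := h1
  have h2 : ‖a‖ ≤ 1 := by
    rw [← PadicAlgCl.norm_extends p a]
    show ‖algebraMap ℚ_[p] (Om p) a‖ ≤ 1
    rw [ha]
    exact b.2
  exact ⟨⟨a, h2⟩, Subtype.ext ha⟩

theorem lift_aut (σ : (Bp p ⧸ Pp p) ≃ₐ[ℤ_[p] ⧸ (Pp p).under ℤ_[p]] (Bp p ⧸ Pp p)) :
    ∃ τ : Gp p, ∀ x : Bp p, Ideal.Quotient.mk (Pp p) (τ • x) = σ (Ideal.Quotient.mk (Pp p) x) := by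
  let _ : TopologicalSpace (Bp p) := ⊥
  have : DiscreteTopology (Bp p) := ⟨rfl⟩
  have hcont : ContinuousSMul (Gp p) (Bp p) := by
    rw [continuousSMul_iff_stabilizer_isOpen]
    intro x
    have h1 := stabilizer_isOpen_of_isIntegral (K := ℚ_[p]) (x : Om p)
    convert h1 using 2
    ext g
    rw [MulAction.mem_stabilizer_iff, MulAction.mem_stabilizer_iff]
    constructor
    · intro h
      exact congrArg (fun z : Bp p => (z : Om p)) h
    · intro h
      exact Subtype.ext h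
  obtain ⟨k, hk⟩ := Ideal.Quotient.stabilizerHom_surjective_of_profinite
    (G := Gp p) ((Pp p).under ℤ_[p]) (Pp p) σ
  refine ⟨k.1, fun x => ?_⟩
  have h1 := DFunLike.congr_fun hk (Ideal.Quotient.mk (Pp p) x)
  rw [Ideal.Quotient.stabilizerHom_apply] at h1
  exact h1

theorem p_mem : ((p : ℕ) : Bp p) ∈ Pp p := by
  show ‖(((p : ℕ) : Bp p) : Om p)‖ < 1
  have h1 : (((p : ℕ) : Bp p) : Om p) = algebraMap ℚ_[p] (Om p) (p : ℚ_[p]) := by simp
  rw [h1, PadicAlgCl.norm_extends]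
  exact Padic.norm_p_lt_one

theorem fermat (a : ℤ_[p]) : ‖((a ^ p - a : ℤ_[p]) : ℚ_[p])‖ < 1 := by
  have h1 : a ^ p - a ∈ IsLocalRing.maximalIdeal ℤ_[p] := by
    rw [← PadicInt.ker_toZMod, RingHom.mem_ker, map_sub, map_pow, ZMod.pow_card, sub_self]
  rw [IsLocalRing.mem_maximalIdeal, PadicInt.mem_nonunits, PadicInt.norm_def] at h1
  exact h1

theorem char_quot : CharP (Bp p ⧸ Pp p) p := by
  have h1 : ((p : ℕ) : Bp p ⧸ Pp p) = 0 := by
    rw [← map_natCast (Ideal.Quotient.mk (Pp p)), Ideal.Quotient.eq_zero_iff_mem]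
    exact p_mem p
  exact (CharP.charP_iff_prime_eq_zero (Fact.out : p.Prime)).2 h1

end

theorem exists_frob (p : ℕ) [Fact p.Prime] : ∃ σ : Gp p, ∀ x : Om p, ‖x‖ ≤ 1 → ‖σ x - x ^ p‖ < 1 := by
  have hch := char_quot p
  have hp : p.Prime := Fact.out
  have hbij : Function.Bijective (frobenius (Bp p ⧸ Pp p) p) := by
    constructor
    · rw [injective_iff_map_eq_zero]
      intro x hx
      rw [frobenius_def] at hx
      exact pow_eq_zero_iff hp.ne_zero |>.1 hx
    · intro x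
      obtain ⟨x, rfl⟩ := Ideal.Quotient.mk_surjective x
      obtain ⟨y, hy⟩ := IsAlgClosed.exists_pow_nat_eq (x : Om p) hp.pos
      have hy1 : ‖y‖ ≤ 1 := by
        by_contra hcon
        push Not at hcon
        have h1 : 1 < ‖y‖ ^ p := one_lt_pow₀ hcon hp.ne_zero
        rw [← norm_pow, hy] at h1
        exact absurd x.2 (not_le.2 h1)
      refine ⟨Ideal.Quotient.mk (Pp p) ⟨y, hy1⟩, ?_⟩
      rw [frobenius_def, ← map_pow]
      congr 1
      exact Subtype.ext hy
  let e : (Bp p ⧸ Pp p) ≃+* (Bp p ⧸ Pp p) := RingEquiv.ofBijective _ hbij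
  let σ : (Bp p ⧸ Pp p) ≃ₐ[ℤ_[p] ⧸ (Pp p).under ℤ_[p]] (Bp p ⧸ Pp p) :=
    AlgEquiv.ofRingEquiv (f := e) (by
      intro a
      obtain ⟨a, rfl⟩ := Ideal.Quotient.mk_surjective a
      show (Ideal.Quotient.mk (Pp p) (algebraMap ℤ_[p] (Bp p) a)) ^ p =
        Ideal.Quotient.mk (Pp p) (algebraMap ℤ_[p] (Bp p) a)
      rw [← map_pow, Ideal.Quotient.mk_eq_mk_iff_sub_mem, ← map_pow, ← map_sub]
      show ‖algebraMap ℚ_[p] (Om p) ((a ^ p - a : ℤ_[p]) : ℚ_[p])‖ < 1
      rw [PadicAlgCl.norm_extends]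
      exact fermat p a)
  obtain ⟨τ, hτ⟩ := lift_aut p σ
  refine ⟨τ, fun x hx => ?_⟩
  have h1 := hτ ⟨x, hx⟩
  have h2 : σ (Ideal.Quotient.mk (Pp p) ⟨x, hx⟩) = Ideal.Quotient.mk (Pp p) (⟨x, hx⟩ ^ p) := by
    show (Ideal.Quotient.mk (Pp p) ⟨x, hx⟩) ^ p = _
    rw [map_pow]
  rw [h2, Ideal.Quotient.mk_eq_mk_iff_sub_mem] at h1
  exact h1

section res

variable (p : ℕ) [Fact p.Prime]

instance : TopologicalSpace (Bp p) := ⊥

instance : DiscreteTopology (Bp p) := ⟨rfl⟩

instance : ContinuousSMul (Gp p) (Bp p) := by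
  rw [continuousSMul_iff_stabilizer_isOpen]
  intro x
  have h1 := stabilizer_isOpen_of_isIntegral (K := ℚ_[p]) (x : Om p)
  convert h1 using 2
  ext g
  rw [MulAction.mem_stabilizer_iff, MulAction.mem_stabilizer_iff]
  constructor
  · intro h
    exact congrArg (fun z : Bp p => (z : Om p)) h
  · intro h
    exact Subtype.ext h

instance isInt : Algebra.IsIntegral ℤ_[p] (Bp p) :=
  Algebra.IsInvariant.isIntegral_of_profinite (G := Gp p)

/-- the residue ring -/
abbrev kp : Type := Bp p ⧸ Pp p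

instance : CharP (kp p) p := char_quot p

noncomputable instance algk : Algebra (ZMod p) (kp p) := ZMod.algebra _ p

theorem mk_eq (a : ℤ_[p]) : Ideal.Quotient.mk (Pp p) (algebraMap ℤ_[p] (Bp p) a) =
    algebraMap (ZMod p) (kp p) (PadicInt.toZMod a) := by
  set n : ℕ := (PadicInt.toZMod a).val with hn
  have h1 : PadicInt.toZMod (a - (n : ℤ_[p])) = 0 := by
    rw [map_sub, map_natCast, hn, ZMod.natCast_zmod_val, sub_self]
  have h2 : ‖((a - (n : ℤ_[p]) : ℤ_[p]) : ℚ_[p])‖ < 1 := by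
    have h3 : a - (n : ℤ_[p]) ∈ IsLocalRing.maximalIdeal ℤ_[p] := by
      rw [← PadicInt.ker_toZMod, RingHom.mem_ker, h1]
    rw [IsLocalRing.mem_maximalIdeal, PadicInt.mem_nonunits, PadicInt.norm_def] at h3
    exact h3
  have h4 : Ideal.Quotient.mk (Pp p) (algebraMap ℤ_[p] (Bp p) (a - (n : ℤ_[p]))) = 0 := by
    rw [Ideal.Quotient.eq_zero_iff_mem]
    show ‖algebraMap ℚ_[p] (Om p) ((a - (n : ℤ_[p]) : ℤ_[p]) : ℚ_[p])‖ < 1
    rw [PadicAlgCl.norm_extends]
    exact h2
  rw [map_sub, map_sub, map_natCast, map_natCast, sub_eq_zero] at h4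
  rw [h4]
  have h5 : PadicInt.toZMod a = ((n : ℕ) : ZMod p) := by rw [hn, ZMod.natCast_zmod_val]
  rw [h5, map_natCast]

instance algk2 : Algebra.IsIntegral (ZMod p) (kp p) := by
  refine ⟨fun x => ?_⟩
  obtain ⟨x, rfl⟩ := Ideal.Quotient.mk_surjective x
  obtain ⟨f, hf, hx⟩ := (isInt p).isIntegral x
  refine ⟨f.map PadicInt.toZMod, hf.map _, ?_⟩
  rw [Polynomial.eval₂_map]
  have h1 : (algebraMap (ZMod p) (kp p)).comp PadicInt.toZMod =
      (Ideal.Quotient.mk (Pp p)).comp (algebraMap ℤ_[p] (Bp p)) := by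
    ext a
    exact (mk_eq p a).symm
  rw [h1, ← Polynomial.hom_eval₂, hx, map_zero]

theorem kfield : IsField (kp p) :=
  isField_of_isIntegral_of_isField' (Field.toIsField (ZMod p))

noncomputable instance : Field (kp p) := (kfield p).toField

instance : Algebra.IsAlgebraic (ZMod p) (kp p) := Algebra.IsIntegral.isAlgebraic

/-- an embedding of the residue field -/
noncomputable def lf : kp p →+* AlgebraicClosure (ZMod p) :=
  ((IsAlgClosed.lift : kp p →ₐ[ZMod p] AlgebraicClosure (ZMod p)) :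
    kp p →+* AlgebraicClosure (ZMod p))

/-- the residue map -/
noncomputable def rs : Bp p →+* AlgebraicClosure (ZMod p) := (lf p).comp (Ideal.Quotient.mk (Pp p))

theorem rs_zero (x : Bp p) : rs p x = 0 ↔ ‖(x : Om p)‖ < 1 := by
  show lf p (Ideal.Quotient.mk (Pp p) x) = 0 ↔ _
  rw [map_eq_zero (lf p), Ideal.Quotient.eq_zero_iff_mem]
  rfl

theorem rs_eq (x y : Bp p) : rs p x = rs p y ↔ ‖(x : Om p) - y‖ < 1 := by
  rw [← sub_eq_zero, ← map_sub, rs_zero]
  rfl

open Pool.Agent.H901R3.MS in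
/-- the place of the algebraic closure -/
noncomputable def plp : Place (Om p) (AlgebraicClosure (ZMod p)) where
  A := Bp p
  ρ := rs p
  inv_of_notMem := by
    intro x hx
    have hx' : ¬ ‖x‖ ≤ 1 := hx
    rw [not_le] at hx'
    have h1 : ‖x⁻¹‖ < 1 := by
      rw [norm_inv]
      exact inv_lt_one_of_one_lt₀ hx'
    exact ⟨h1.le, (rs_zero p _).2 h1⟩
  inv_of_ne := by
    intro x hx
    rw [ne_eq, rs_zero, not_lt] at hx
    show ‖(x : Om p)⁻¹‖ ≤ 1
    rw [norm_inv]
    exact inv_le_one_of_one_le₀ hx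

/-- the action of the Galois group on the residue field -/
noncomputable def sbr (σ : Gp p) : kp p →+* kp p :=
  Ideal.quotientMap (Pp p) (MulSemiringAction.toRingHom (Gp p) (Bp p) σ) (by
    intro x hx
    show ‖σ (x : Om p)‖ < 1
    rw [nrm]
    exact hx)

/-- the action of the Galois group on the residue field -/
noncomputable def sb (σ : Gp p) : kp p →ₐ[ZMod p] kp p :=
  { sbr p σ with
    commutes' := fun r => by
      obtain ⟨n, rfl⟩ : ∃ n : ℕ, (n : ZMod p) = r := ⟨r.val, ZMod.natCast_zmod_val r⟩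
      rw [map_natCast]
      exact map_natCast (sbr p σ) n }

theorem sb_mk (σ : Gp p) (x : Bp p) :
    sb p σ (Ideal.Quotient.mk (Pp p) x) = Ideal.Quotient.mk (Pp p) (σ • x) := rfl

/-- **an automorphism acts on finitely many residues as a power of the Frobenius automorphism** -/
theorem decomp (σ : Gp p) (S : Set (Om p)) (hfin : S.Finite) (hS : ∀ x ∈ S, ‖x‖ ≤ 1) :
    ∃ j : ℕ, ∀ x ∈ S, ‖σ x - x ^ (p ^ j)‖ < 1 := by
  classical
  set S' : Set (kp p) := {y | ∃ x : Bp p, (x : Om p) ∈ S ∧ Ideal.Quotient.mk (Pp p) x = y} with hS'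
  have hfin' : S'.Finite := by
    have h1 : {x : Bp p | (x : Om p) ∈ S}.Finite :=
      hfin.preimage (f := fun x : Bp p => (x : Om p)) Subtype.val_injective.injOn
    refine (h1.image (Ideal.Quotient.mk (Pp p))).subset ?_
    rintro y ⟨x, hx, rfl⟩
    exact ⟨x, hx, rfl⟩
  let E : IntermediateField (ZMod p) (kp p) := IntermediateField.adjoin (ZMod p) S'
  have : Finite S' := hfin'.to_subtype
  have : FiniteDimensional (ZMod p) E :=
    IntermediateField.finiteDimensional_adjoin fun x _ => (algk2 p).isIntegral x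
  have : Finite E := Module.finite_of_finite (ZMod p)
  obtain ⟨n, hn⟩ := (FiniteField.bijective_frobeniusAlgHom_pow (ZMod p) E).2
    ((sb p σ).restrictNormal E)
  refine ⟨n.1, fun x hx => ?_⟩
  set y : Bp p := ⟨x, hS x hx⟩ with hy
  have hyS : Ideal.Quotient.mk (Pp p) y ∈ S' := ⟨y, hx, rfl⟩
  set z : E := ⟨Ideal.Quotient.mk (Pp p) y, IntermediateField.subset_adjoin _ _ hyS⟩ with hz
  have h1 := AlgHom.restrictNormal_commutes (sb p σ) E z
  rw [← hn] at h1
  have h2 : ∀ (k : ℕ) (w : E), (FiniteField.frobeniusAlgHom (ZMod p) E ^ k) w = w ^ (p ^ k) := by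
    intro k w
    rw [AlgHom.coe_pow, FiniteField.coe_frobeniusAlgHom, pow_iterate, ZMod.card]
  have h3 : (algebraMap E (kp p)) (z ^ (p ^ n.1)) = sb p σ (algebraMap E (kp p) z) := by
    rw [← h1]
    exact congrArg _ (h2 n.1 z).symm
  rw [map_pow] at h3
  have h4 : (Ideal.Quotient.mk (Pp p) y) ^ (p ^ n.1) = sb p σ (Ideal.Quotient.mk (Pp p) y) := h3
  rw [sb_mk, ← map_pow, eq_comm, Ideal.Quotient.mk_eq_mk_iff_sub_mem] at h4
  exact h4

end res

end Pool.Agent.Run7.h507.Loc1
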