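import Pool.Agent.R739.ET.Close
import Pool.Agent.R739.ET.Uniq

/-!
# Wrapped coordinates around a closed line of `𝕋³` with a rational direction
-/

open MeasureTheory Set
open scoped Topology Pointwise ContDiff

set_option autoImplicit false

namespace Pool.Agent.Run7.h507.Sh

open Pool.Agent.H708R2.EulerSign Pool.Agent.H708R2.EulerModes Pool.Agent.R739.ET

/-- three integer vectors which are mutually orthogonal, the first two of them nonzero; the tube
has the direction of the third one -/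
structure Frame where
  m : Fin 3 → ℤ
  n : Fin 3 → ℤ
  e : Fin 3 → ℤ
  hm : m ≠ 0
  hn : n ≠ 0
  mn : ph m (rv n) = 0
  me : ph m (rv e) = 0
  ne : ph n (rv e) = 0

lemma ph_comm (k l : Fin 3 → ℤ) : ph k (rv l) = ph l (rv k) := by
  unfold ph rv
  exact Finset.sum_congr rfl fun i _ => mul_comm _ _

lemma ph_self_pos {k : Fin 3 → ℤ} (hk : k ≠ 0) : 0 < ph k (rv k) := by
  unfold ph rv
  obtain ⟨i, hi⟩ : ∃ i, k i ≠ 0 := by
    by_contra hcon
    push Not at hcon
    exact hk (funext hcon)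
  refine Finset.sum_pos' (fun i _ => mul_self_nonneg _) ⟨i, Finset.mem_univ i, ?_⟩
  have : (k i : ℝ) ≠ 0 := by exact_mod_cast hi
  exact mul_self_pos.2 this

/-- the length of an integer vector -/
noncomputable def len (k : Fin 3 → ℤ) : ℝ := Real.sqrt (ph k (rv k))

lemma len_pos {k : Fin 3 → ℤ} (hk : k ≠ 0) : 0 < len k := Real.sqrt_pos.2 (ph_self_pos hk)

lemma len_mul_len {k : Fin 3 → ℤ} : len k * len k = ph k (rv k) := by
  unfold len
  refine Real.mul_self_sqrt ?_
  unfold ph rv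
  exact Finset.sum_nonneg fun i _ => mul_self_nonneg _

/-- `k · dx` -/
noncomputable def phL (k : Fin 3 → ℤ) : V →L[ℝ] ℝ :=
  ∑ i, (k i : ℝ) • (ContinuousLinearMap.proj i : V →L[ℝ] ℝ)

lemma phL_apply (k : Fin 3 → ℤ) (x : V) : phL k x = ph k x := by
  unfold phL ph
  simp

namespace Frame

variable (F : Frame)

noncomputable def la : ℝ := len F.m
noncomputable def lb : ℝ := len F.n

lemma la_pos : 0 < F.la := len_pos F.hm
lemma lb_pos : 0 < F.lb := len_pos F.hn

lemma nm : ph F.n (rv F.m) = 0 := by rw [ph_comm, F.mn]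

/-- the affine coordinates -/
noncomputable def af (c d : ℝ) (x : V) : V := ![(ph F.m x + c) / F.la, (ph F.n x + d) / F.lb, 0]

/-- the wrapped coordinates -/
noncomputable def yc (s t : ℝ) (x : V) : V :=
  ![wr (ph F.m x - s) / F.la, wr (ph F.n x - t) / F.lb, 0]

@[simp] lemma af_0 (c d : ℝ) (x : V) : F.af c d x 0 = (ph F.m x + c) / F.la := rfl
@[simp] lemma af_1 (c d : ℝ) (x : V) : F.af c d x 1 = (ph F.n x + d) / F.lb := rfl
@[simp] lemma yc_0 (s t : ℝ) (x : V) : F.yc s t x 0 = wr (ph F.m x - s) / F.la := rfl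
@[simp] lemma yc_1 (s t : ℝ) (x : V) : F.yc s t x 1 = wr (ph F.n x - t) / F.lb := rfl

/-- the thin tubes -/
structure Thin (δ : ℝ) : Prop where
  a : δ * (F.la * F.la) ≤ 1
  b : δ * (F.lb * F.lb) ≤ 1

/-- the constants in the affine coordinates near `x₀` -/
noncomputable def ca (s : ℝ) (x₀ : V) : ℝ := wr (ph F.m x₀ - s) - ph F.m x₀
noncomputable def cb (t : ℝ) (x₀ : V) : ℝ := wr (ph F.n x₀ - t) - ph F.n x₀

variable {F}

lemma thin_rad_a {δ : ℝ} (hδ : F.Thin δ) {r : ℝ} {y : V} (h : 1 ≤ |r|) (hy : y 0 = r / F.la) :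
    δ ≤ rad y := by
  have h1 := F.la_pos
  have h2 : (1 : ℝ) ≤ r ^ 2 := by rw [← sq_abs]; nlinarith
  have h3 : δ ≤ y 0 ^ 2 := by
    rw [hy, div_pow, le_div_iff₀ (by positivity)]
    have := hδ.a
    nlinarith
  unfold rad
  nlinarith [sq_nonneg (y 1)]

lemma thin_rad_b {δ : ℝ} (hδ : F.Thin δ) {r : ℝ} {y : V} (h : 1 ≤ |r|) (hy : y 1 = r / F.lb) :
    δ ≤ rad y := by
  have h1 := F.lb_pos
  have h2 : (1 : ℝ) ≤ r ^ 2 := by rw [← sq_abs]; nlinarith
  have h3 : δ ≤ y 1 ^ 2 := by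
    rw [hy, div_pow, le_div_iff₀ (by positivity)]
    have := hδ.b
    nlinarith
  unfold rad
  nlinarith [sq_nonneg (y 0)]

/-- near `x₀` the wrapped function is an affine function; the neighbourhood does not depend on the
function -/
lemma near (s t : ℝ) (x₀ x : V) (ha : |ph F.m x - ph F.m x₀| < 1)
    (hb : |ph F.n x - ph F.n x₀| < 1) {E : Type*} [Zero E] {δ : ℝ} (hδ : F.Thin δ)
    {h : V → E} (hh : HT δ h) : h (F.yc s t x) = h (F.af (F.ca s x₀) (F.cb t x₀) x) := by
  have h0 := wr_near (ph F.m x₀ - s) (ph F.m x - s) (by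
    have : ph F.m x - s - (ph F.m x₀ - s) = ph F.m x - ph F.m x₀ := by ring
    rw [this]; exact ha)
  have h1 := wr_near (ph F.n x₀ - t) (ph F.n x - t) (by
    have : ph F.n x - t - (ph F.n x₀ - t) = ph F.n x - ph F.n x₀ := by ring
    rw [this]; exact hb)
  have e0 : ph F.m x - s + (wr (ph F.m x₀ - s) - (ph F.m x₀ - s)) = ph F.m x + F.ca s x₀ := by
    unfold ca; ring
  have e1 : ph F.n x - t + (wr (ph F.n x₀ - t) - (ph F.n x₀ - t)) = ph F.n x + F.cb t x₀ := by
    unfold cb; ring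
  rw [e0] at h0
  rw [e1] at h1
  rcases h0 with h0 | ⟨h0, h0'⟩
  · rcases h1 with h1 | ⟨h1, h1'⟩
    · refine hh.ind _ _ ?_ ?_
      · rw [yc_0, af_0, h0]
      · rw [yc_1, af_1, h1]
    · rw [hh.van _ (thin_rad_b hδ h1 (F.yc_1 s t x)), hh.van _ (thin_rad_b hδ h1' (F.af_1 _ _ x))]
  · rw [hh.van _ (thin_rad_a hδ h0 (F.yc_0 s t x)), hh.van _ (thin_rad_a hδ h0' (F.af_0 _ _ x))]

lemma af_self (s t : ℝ) (x₀ : V) : F.af (F.ca s x₀) (F.cb t x₀) x₀ = F.yc s t x₀ := by
  unfold af yc ca cb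
  ext i
  fin_cases i <;> simp

lemma ph_near (k : Fin 3 → ℤ) (x₀ : V) : ∀ᶠ x in 𝓝 x₀, |ph k x - ph k x₀| < 1 := by
  have hc : Continuous (fun x => |ph k x - ph k x₀|) :=
    ((ph_contDiff k).continuous.sub continuous_const).abs
  have := hc.continuousAt (x := x₀)
  refine this.eventually (gt_mem_nhds ?_)
  simp

lemma af_contDiff {n : WithTop ℕ∞} (hn : n ≤ ∞) (c d : ℝ) : ContDiff ℝ n (F.af c d) := by
  rw [contDiff_pi]
  intro i
  fin_cases i
  · exact (((ph_contDiff F.m).of_le hn).add contDiff_const).div_const _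
  · exact (((ph_contDiff F.n).of_le hn).add contDiff_const).div_const _
  · exact contDiff_const

lemma hasFDerivAt_ph (k : Fin 3 → ℤ) (x : V) : HasFDerivAt (ph k) (phL k) x := fderiv_ph k x

lemma hasFDerivAt_af (c d : ℝ) (x : V) : HasFDerivAt (F.af c d)
    (ContinuousLinearMap.pi ![(F.la)⁻¹ • phL F.m, (F.lb)⁻¹ • phL F.n, 0]) x := by
  rw [hasFDerivAt_pi']
  intro i
  fin_cases i
  · refine (((hasFDerivAt_ph F.m x).add_const c).const_mul (F.la)⁻¹).congr_of_eventuallyEq ?_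
      |>.congr_fderiv ?_
    · filter_upwards with z
      show (ph F.m z + c) / F.la = _
      rw [div_eq_inv_mul]
    · ext v; simp
  · refine (((hasFDerivAt_ph F.n x).add_const d).const_mul (F.lb)⁻¹).congr_of_eventuallyEq ?_
      |>.congr_fderiv ?_
    · filter_upwards with z
      show (ph F.n z + d) / F.lb = _
      rw [div_eq_inv_mul]
    · ext v; simp
  · refine (hasFDerivAt_const (0 : ℝ) x).congr_fderiv ?_
    ext v; simp

variable (F)

/-- `f` has the derivative `a (m · dx) + b (n · dx)` at `x` -/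
def HX (f : V → ℝ) (a b : ℝ) (x : V) : Prop := HasFDerivAt f (a • phL F.m + b • phL F.n) x

variable {F}

lemma HX.congr {f : V → ℝ} {a b a' b' : ℝ} {x : V} (h : F.HX f a b x) (ha : a = a')
    (hb : b = b') : F.HX f a' b' x := by
  rw [← ha, ← hb]; exact h

lemma HX.const (k : ℝ) (x : V) : F.HX (fun _ => k) 0 0 x := by
  unfold HX
  simp only [zero_smul, add_zero]
  exact hasFDerivAt_const k x

lemma HX.theta (x : V) : F.HX (ph F.m) 1 0 x := by
  unfold HX
  simp only [zero_smul, add_zero, one_smul]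
  exact hasFDerivAt_ph _ x

lemma HX.add {f g : V → ℝ} {a b a' b' : ℝ} {x : V} (hf : F.HX f a b x) (hg : F.HX g a' b' x) :
    F.HX (fun z => f z + g z) (a + a') (b + b') x := by
  unfold HX at *
  refine (HasFDerivAt.fun_add hf hg).congr_fderiv ?_
  module

lemma HX.mul {f g : V → ℝ} {a b a' b' : ℝ} {x : V} (hf : F.HX f a b x) (hg : F.HX g a' b' x) :
    F.HX (fun z => f z * g z) (f x * a' + g x * a) (f x * b' + g x * b) x := by
  unfold HX at *
  refine (HasFDerivAt.fun_mul hf hg).congr_fderiv ?_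
  module

lemma HX.const_mul {f : V → ℝ} {a b : ℝ} {x : V} (k : ℝ) (hf : F.HX f a b x) :
    F.HX (fun z => k * f z) (k * a) (k * b) x := by
  refine ((HX.const k x).mul hf).congr ?_ ?_ <;> ring

lemma HX.comp {φ : ℝ → ℝ} {f : V → ℝ} {a b d : ℝ} {x : V} (hφ : HasDerivAt φ d (f x))
    (hf : F.HX f a b x) : F.HX (fun z => φ (f z)) (d * a) (d * b) x := by
  unfold HX at *
  refine (hφ.comp_hasFDerivAt x hf).congr_fderiv ?_
  module

lemma HX.fderiv {f : V → ℝ} {a b : ℝ} {x : V} (hf : F.HX f a b x) (e : V) :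
    fderiv ℝ f x e = a * ph F.m e + b * ph F.n e := by
  rw [HasFDerivAt.fderiv hf]
  simp [phL_apply]

/-- the derivative of a wrapped and rescaled function -/
lemma HX.wrap {δ : ℝ} (hδ : F.Thin δ) (s t N : ℝ) {h : V → ℝ} (hh : HT δ h) {a b : ℝ} {x : V}
    (hd : HD h a b (F.yc s t (N • x))) :
    F.HX (fun z => h (F.yc s t (N • z))) (N / F.la * a) (N / F.lb * b) x := by
  unfold HX
  have hev : (fun z => h (F.yc s t z)) =ᶠ[𝓝 (N • x)]
      fun z => h (F.af (F.ca s (N • x)) (F.cb t (N • x)) z) := by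
    filter_upwards [ph_near F.m (N • x), ph_near F.n (N • x)] with z ha hb
    exact near s t (N • x) z ha hb hδ hh
  rw [← af_self] at hd
  have h1 := (HasFDerivAt.comp (N • x) hd (hasFDerivAt_af _ _ _)).congr_of_eventuallyEq hev
  have h2 : HasFDerivAt (fun z : V => N • z) (N • ContinuousLinearMap.id ℝ V) x :=
    (hasFDerivAt_id x).const_smul N
  have h3 := HasFDerivAt.comp x h1 h2
  refine h3.congr_fderiv ?_
  ext v
  simp [phL_apply, ph]
  ring

end Frame

end Pool.Agent.Run7.h507.Sh
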