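import Mathlib

/-!
# Approximation by cosine polynomials with interpolation
-/

open Set
open scoped Topology

set_option autoImplicit false

namespace Pool.Agent.Run7.h507.Sh

/-- cosine polynomials of degree at most `n` -/
def CP (n : ℕ) (g : ℝ → ℝ) : Prop :=
  ∃ c : ℕ → ℝ, ∀ θ, g θ = ∑ r ∈ Finset.range (n + 1), c r * Real.cos (r * θ)

lemma CP.congr {n : ℕ} {g h : ℝ → ℝ} (hg : CP n g) (e : ∀ θ, h θ = g θ) : CP n h := by
  obtain ⟨c, hc⟩ := hg
  exact ⟨c, fun θ => (e θ).trans (hc θ)⟩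

lemma CP.single {n r : ℕ} (h : r ≤ n) : CP n (fun θ => Real.cos (r * θ)) := by
  refine ⟨fun k => if k = r then 1 else 0, fun θ => ?_⟩
  simp only [ite_mul, one_mul, zero_mul]
  rw [Finset.sum_ite_eq' (Finset.range (n + 1)) r, if_pos (Finset.mem_range.2 (by omega))]

lemma CP.smul {n : ℕ} {g : ℝ → ℝ} (a : ℝ) (h : CP n g) : CP n (fun θ => a * g θ) := by
  obtain ⟨c, hc⟩ := h
  refine ⟨fun r => a * c r, fun θ => ?_⟩
  simp only [hc, Finset.mul_sum, mul_assoc]

lemma CP.add {n : ℕ} {g h : ℝ → ℝ} (hg : CP n g) (hh : CP n h) : CP n (fun θ => g θ + h θ) := by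
  obtain ⟨c, hc⟩ := hg
  obtain ⟨e, he⟩ := hh
  refine ⟨fun r => c r + e r, fun θ => ?_⟩
  simp only [hc, he, ← Finset.sum_add_distrib]
  exact Finset.sum_congr rfl fun r _ => by ring

lemma CP.zero (n : ℕ) : CP n (fun _ => 0) := ⟨fun _ => 0, fun θ => by simp⟩

lemma CP.sum {κ : Type*} {n : ℕ} (s : Finset κ) {g : κ → ℝ → ℝ} (h : ∀ k ∈ s, CP n (g k)) :
    CP n (fun θ => ∑ k ∈ s, g k θ) := by
  classical
  induction s using Finset.induction_on with
  | empty => simpa using CP.zero n
  | insert a s ha ih =>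
    simp only [Finset.sum_insert ha]
    exact (h a (Finset.mem_insert_self _ _)).add (ih fun k hk => h k (Finset.mem_insert_of_mem hk))

lemma CP.mono {n m : ℕ} (hnm : n ≤ m) {g : ℝ → ℝ} (h : CP n g) : CP m g := by
  obtain ⟨c, hc⟩ := h
  have : CP m (fun θ => ∑ r ∈ Finset.range (n + 1), c r * Real.cos (r * θ)) :=
    CP.sum _ fun r hr => (CP.single (by have := Finset.mem_range.1 hr; omega)).smul (c r)
  exact this.congr hc

lemma CP.mul_cos {n : ℕ} {g : ℝ → ℝ} (h : CP n g) : CP (n + 1) (fun θ => Real.cos θ * g θ) := by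
  obtain ⟨c, hc⟩ := h
  have : CP (n + 1) (fun θ => ∑ r ∈ Finset.range (n + 1),
      c r * (Real.cos θ * Real.cos (r * θ))) := by
    refine CP.sum _ fun r hr => ?_
    have hr' := Finset.mem_range.1 hr
    rcases Nat.eq_zero_or_pos r with h0 | h0
    · subst h0
      have h1 := (CP.single (n := n + 1) (r := 1) (by omega)).smul (c 0)
      simpa using h1
    · obtain ⟨k, rfl⟩ : ∃ k, r = k + 1 := ⟨r - 1, by omega⟩
      have h1 := (((CP.single (n := n + 1) (r := k + 2) (by omega)).add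
        (CP.single (n := n + 1) (r := k) (by omega))).smul (c (k + 1) / 2))
      refine h1.congr fun θ => ?_
      have e1 : ((k + 2 : ℕ) : ℝ) * θ = ((k + 1 : ℕ) : ℝ) * θ + θ := by push_cast; ring
      have e2 : (k : ℝ) * θ = ((k + 1 : ℕ) : ℝ) * θ - θ := by push_cast; ring
      rw [e1, e2, Real.cos_add, Real.cos_sub]
      ring
  refine this.congr fun θ => ?_
  rw [hc, Finset.mul_sum]
  exact Finset.sum_congr rfl fun r _ => by ring

lemma CP.pow (n : ℕ) : CP n (fun θ => Real.cos θ ^ n) := by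
  induction n with
  | zero => simpa using CP.single (n := 0) (r := 0) le_rfl
  | succ n ih =>
    have := ih.mul_cos
    simpa [pow_succ, mul_comm] using this

lemma CP.poly (P : Polynomial ℝ) : CP P.natDegree (fun θ => P.eval (Real.cos θ)) := by
  have : CP P.natDegree (fun θ => ∑ k ∈ Finset.range (P.natDegree + 1),
      P.coeff k * Real.cos θ ^ k) :=
    CP.sum _ fun k hk => ((CP.pow k).mono (by have := Finset.mem_range.1 hk; omega)).smul _
  exact this.congr fun θ => by rw [Polynomial.eval_eq_sum_range]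

/-- Weierstrass approximation with interpolation -/
theorem weierstrass {g : ℝ → ℝ} (hg : ContinuousOn g (Icc (-1) 1)) (A : Finset ℝ)
    (hA : ∀ a ∈ A, a ∈ Icc (-1 : ℝ) 1) {η : ℝ} (hη : 0 < η) :
    ∃ P : Polynomial ℝ, (∀ y ∈ Icc (-1 : ℝ) 1, |P.eval y - g y| ≤ η) ∧
      ∀ a ∈ A, P.eval a = g a := by
  classical
  have hb : ∀ a : ℝ, ∃ M : ℝ, 0 ≤ M ∧ ∀ y ∈ Icc (-1 : ℝ) 1,
      |(Lagrange.basis A id a).eval y| ≤ M := by
    intro a
    obtain ⟨M, hM⟩ := (isCompact_Icc (a := (-1 : ℝ)) (b := 1)).exists_bound_of_continuousOn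
      ((Lagrange.basis A id a).continuous.continuousOn)
    refine ⟨M, (norm_nonneg _).trans (hM 0 ⟨by norm_num, by norm_num⟩), fun y hy => hM y hy⟩
  choose M hM0 hM using hb
  have hS : 0 ≤ ∑ a ∈ A, M a := Finset.sum_nonneg fun a _ => hM0 a
  obtain ⟨P, hP⟩ := exists_polynomial_near_of_continuousOn (-1) 1 g hg (η / (1 + ∑ a ∈ A, M a))
    (by positivity)
  refine ⟨P + Lagrange.interpolate A id (fun a => g a - P.eval a), fun y hy => ?_, fun a ha => ?_⟩
  · rw [Polynomial.eval_add, Lagrange.interpolate_apply, Polynomial.eval_finsetSum]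
    simp only [Polynomial.eval_mul, Polynomial.eval_C]
    have h1 := (hP y hy).le
    have h2 : |∑ a ∈ A, (g a - P.eval a) * (Lagrange.basis A id a).eval y|
        ≤ ∑ a ∈ A, η / (1 + ∑ a ∈ A, M a) * M a := by
      refine (Finset.abs_sum_le_sum_abs _ _).trans (Finset.sum_le_sum fun a ha => ?_)
      rw [abs_mul]
      have h3 := (hP a (hA a ha)).le
      rw [abs_sub_comm] at h3
      have := hM a y hy
      gcongr
    rw [← Finset.mul_sum] at h2
    have e : Polynomial.eval y P + ∑ a ∈ A, (g a - P.eval a) * (Lagrange.basis A id a).eval y - g y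
        = (Polynomial.eval y P - g y)
          + ∑ a ∈ A, (g a - P.eval a) * (Lagrange.basis A id a).eval y := by ring
    rw [e]
    refine (abs_add_le _ _).trans ((add_le_add h1 h2).trans ?_)
    have : η / (1 + ∑ a ∈ A, M a) + η / (1 + ∑ a ∈ A, M a) * ∑ a ∈ A, M a = η := by
      field_simp
    exact this.le
  · have h1 := Lagrange.eval_interpolate_at_node (s := A) (v := id)
      (fun a => g a - P.eval a) (fun _ _ _ _ h => h) ha
    simp only [id] at h1
    rw [Polynomial.eval_add]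
    have : Polynomial.eval a (Lagrange.interpolate A id (fun a => g a - P.eval a))
        = g a - P.eval a := h1
    rw [this]
    ring

/-- approximation on a time interval -/
theorem approx {f : ℝ → ℝ} {T : ℝ} (hT : 0 < T) (hf : UniformContinuousOn f (Ico 0 T))
    (A : Finset ℝ) (hA : ∀ a ∈ A, a ∈ Ico 0 T) {η : ℝ} (hη : 0 < η) :
    ∃ n : ℕ, ∀ m, n ≤ m → ∃ c : ℕ → ℝ,
      (∀ t ∈ Ico 0 T, |∑ r ∈ Finset.range (m + 1), c r * Real.cos (Real.pi * r / T * t) - f t| ≤ η)
      ∧ ∀ t ∈ A, ∑ r ∈ Finset.range (m + 1), c r * Real.cos (Real.pi * r / T * t) = f t := by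
  classical
  have hpi := Real.pi_pos
  obtain ⟨δ, hδ, hδf⟩ := Metric.uniformContinuousOn_iff.1 hf (η / 2) (by positivity)
  -- the cut off time
  obtain ⟨t₁, ht₁, ht₁δ, ht₁A⟩ : ∃ t₁ ∈ Ico 0 T, T - δ < t₁ ∧ ∀ a ∈ A, a ≤ t₁ := by
    obtain ⟨M, hM1, hM2⟩ : ∃ M, M < T ∧ ∀ a ∈ A, a ≤ M := by
      rcases A.eq_empty_or_nonempty with h | h
      · exact ⟨T - 1, by linarith, by simp [h]⟩
      · exact ⟨A.max' h, (hA _ (A.max'_mem h)).2, fun a ha => A.le_max' a ha⟩
    obtain ⟨t₁, h1, h2⟩ := exists_between (max_lt hM1 (max_lt hT (by linarith : T - δ < T)))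
    simp only [max_lt_iff] at h1
    exact ⟨t₁, ⟨h1.2.1.le, h2⟩, h1.2.2, fun a ha => (hM2 a ha).trans h1.1.le⟩
  let g : ℝ → ℝ := fun y => f (min (T / Real.pi * Real.arccos y) t₁)
  have hmem : ∀ t, 0 ≤ t → min t t₁ ∈ Ico 0 T := fun t ht =>
    ⟨le_min ht ht₁.1, (min_le_right _ _).trans_lt ht₁.2⟩
  have hg : ContinuousOn g (Icc (-1) 1) := by
    refine hf.continuousOn.comp (t := Ico 0 T) ?_ fun y _ => ?_
    · exact ((continuous_const.mul Real.continuous_arccos).min continuous_const).continuousOn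
    · exact hmem _ (mul_nonneg (by positivity) (Real.arccos_nonneg y))
  have hcos : ∀ t ∈ Ico 0 T, g (Real.cos (Real.pi / T * t)) = f (min t t₁) := by
    intro t ht
    simp only [g]
    rw [Real.arccos_cos (by have := ht.1; positivity)]
    · congr 2
      field_simp
    · rw [div_mul_eq_mul_div, div_le_iff₀ hT]
      have := ht.2.le
      gcongr
  obtain ⟨P, hP1, hP2⟩ := weierstrass hg (A.image fun a => Real.cos (Real.pi / T * a))
    (by
      intro a ha
      obtain ⟨a', -, rfl⟩ := Finset.mem_image.1 ha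
      exact ⟨Real.neg_one_le_cos _, Real.cos_le_one _⟩) (η := η / 2) (by positivity)
  refine ⟨P.natDegree, fun m hm => ?_⟩
  obtain ⟨c, hc⟩ := (CP.poly P).mono hm
  have hc' : ∀ t, ∑ r ∈ Finset.range (m + 1), c r * Real.cos (Real.pi * r / T * t)
      = P.eval (Real.cos (Real.pi / T * t)) := by
    intro t
    have h := hc (Real.pi / T * t)
    simp only at h
    rw [h]
    refine Finset.sum_congr rfl fun r _ => ?_
    congr 2
    ring
  refine ⟨c, fun t ht => ?_, fun t ht => ?_⟩
  · rw [hc']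
    have h1 := hP1 (Real.cos (Real.pi / T * t)) ⟨Real.neg_one_le_cos _, Real.cos_le_one _⟩
    rw [hcos t ht] at h1
    have h2 : |f (min t t₁) - f t| ≤ η / 2 := by
      have := hδf (min t t₁) (hmem t ht.1) t ht (by
        rw [Real.dist_eq]
        rcases le_total t t₁ with h | h
        · rw [min_eq_left h]; simpa
        · rw [min_eq_right h, abs_sub_comm, abs_of_nonneg (by linarith)]
          have := ht.2
          linarith)
      rw [Real.dist_eq] at this
      exact this.le
    calc |P.eval (Real.cos (Real.pi / T * t)) - f t|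
        = |(P.eval (Real.cos (Real.pi / T * t)) - f (min t t₁)) + (f (min t t₁) - f t)| := by
          congr 1; ring
      _ ≤ η / 2 + η / 2 := (abs_add_le _ _).trans (add_le_add h1 h2)
      _ = η := by ring
  · rw [hc', hP2 _ (Finset.mem_image_of_mem _ ht), hcos t (hA t ht), min_eq_left (ht₁A t ht)]

end Pool.Agent.Run7.h507.Sh
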