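import Pool.Agent.Run7.h507.Sh9

/-!
# Frames with a given first vector, and the modes of the target field
-/

open MeasureTheory Set
open scoped Topology Pointwise ContDiff

set_option autoImplicit false
set_option linter.unusedSectionVars false

namespace Pool.Agent.Run7.h507.Sh

open Pool.Agent.H708R2.EulerSign Pool.Agent.H708R2.EulerModes Pool.Agent.R739.ET

/-- the cross product of integer vectors -/
def crs (a b : Fin 3 → ℤ) : Fin 3 → ℤ :=
  ![a 1 * b 2 - a 2 * b 1, a 2 * b 0 - a 0 * b 2, a 0 * b 1 - a 1 * b 0]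

lemma ph_crs_left (a b : Fin 3 → ℤ) : ph a (rv (crs a b)) = 0 := by
  simp [ph, rv, crs, Fin.sum_univ_three]; ring

lemma ph_crs_right (a b : Fin 3 → ℤ) : ph b (rv (crs a b)) = 0 := by
  simp [ph, rv, crs, Fin.sum_univ_three]; ring

lemma ph_crs_crs (a b : Fin 3 → ℤ) : ph (crs a b) (rv (crs a b))
    = ph a (rv a) * ph b (rv b) - ph a (rv b) ^ 2 := by
  simp [ph, rv, crs, Fin.sum_univ_three]; ring

/-- the frame with a given first vector and a given direction -/
def mkFrame (k e : Fin 3 → ℤ) (hk : k ≠ 0) (he : e ≠ 0) (h : ph k (rv e) = 0) : Frame where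
  m := k
  n := crs k e
  e := e
  hm := hk
  hn := by
    intro h0
    have h1 := ph_crs_crs k e
    rw [h, h0, ph_zero] at h1
    have h2 := ph_self_pos hk
    have h3 := ph_self_pos he
    nlinarith [mul_pos h2 h3]
  mn := ph_crs_left k e
  me := h
  ne := by rw [ph_comm, ph_crs_right]

lemma mk3_ne_zero (p : Fin 3) {a b c : ℤ} (h : a ≠ 0 ∨ b ≠ 0 ∨ c ≠ 0) : mk3 p a b c ≠ 0 := by
  intro h0
  rcases h with h | h | h
  · exact h (by rw [← mk3_p p a b c, h0]; rfl)
  · exact h (by rw [← mk3_q p a b c, h0]; rfl)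
  · exact h (by rw [← mk3_r p a b c, h0]; rfl)

/-- the axis frames -/
def axis (i : Fin 3) : Frame where
  m := mk3 i 0 1 0
  n := mk3 i 0 0 1
  e := mk3 i 1 0 0
  hm := mk3_ne_zero i (by simp)
  hn := mk3_ne_zero i (by simp)
  mn := by rw [ph_mk3, rv_mk3_p, rv_mk3_q, rv_mk3_r]; simp
  me := by rw [ph_mk3, rv_mk3_p, rv_mk3_q, rv_mk3_r]; simp
  ne := by rw [ph_mk3, rv_mk3_p, rv_mk3_q, rv_mk3_r]; simp

lemma axis_e (i j : Fin 3) : ((axis i).e j : ℝ) = if j = i then 1 else 0 := by
  unfold axis mk3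
  fin_cases i <;> fin_cases j <;> simp

lemma axis_m (i j : Fin 3) : |(axis i).m j| ≤ 1 := by
  unfold axis mk3
  fin_cases i <;> fin_cases j <;> simp

/-- frames with first vector `k` whose directions span the orthogonal complement of `k` -/
theorem exists_frames (k : Fin 3 → ℤ) (hk : k ≠ 0) : ∃ (F : Fin 3 → Frame) (w : Fin 3 → V),
    (∀ i, (F i).m = k) ∧
    (∀ A : V, ph k A = 0 → A = ∑ i, (∑ j, w i j * A j) • rv (F i).e) := by
  obtain ⟨p, hp⟩ : ∃ p, k p ≠ 0 := by
    by_contra hcon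
    push Not at hcon
    exact hk (funext hcon)
  have hpr : (k p : ℝ) ≠ 0 := by exact_mod_cast hp
  have o1 : ph k (rv (mk3 p (-k (p + 1)) (k p) 0)) = 0 := by
    rw [ph_eq _ _ p, rv_mk3_p, rv_mk3_q, rv_mk3_r]
    push_cast; ring
  have o2 : ph k (rv (mk3 p (-k (p + 2)) 0 (k p))) = 0 := by
    rw [ph_eq _ _ p, rv_mk3_p, rv_mk3_q, rv_mk3_r]
    push_cast; ring
  have n1 : mk3 p (-k (p + 1)) (k p) 0 ≠ 0 := mk3_ne_zero p (Or.inr (Or.inl hp))
  have n2 : mk3 p (-k (p + 2)) 0 (k p) ≠ 0 := mk3_ne_zero p (Or.inr (Or.inr hp))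
  refine ⟨![mkFrame k _ hk n1 o1, mkFrame k _ hk n2 o2, mkFrame k _ hk n1 o1],
    ![mk3 p 0 (k p : ℝ)⁻¹ 0, mk3 p 0 0 (k p : ℝ)⁻¹, 0], ?_, ?_⟩
  · intro i
    fin_cases i <;> rfl
  · intro A hA
    rw [ph_eq _ _ p] at hA
    have q1 : ∑ j, mk3 p 0 (k p : ℝ)⁻¹ 0 j * A j = A (p + 1) / k p := by
      rw [sum3 p, mk3_p, mk3_q, mk3_r]; field_simp; ring
    have q2 : ∑ j, mk3 p 0 0 (k p : ℝ)⁻¹ j * A j = A (p + 2) / k p := by
      rw [sum3 p, mk3_p, mk3_q, mk3_r]; field_simp; ring
    rw [Fin.sum_univ_three]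
    have e0 : (![mk3 p 0 (k p : ℝ)⁻¹ 0, mk3 p 0 0 (k p : ℝ)⁻¹, 0] : Fin 3 → V) 0
        = mk3 p 0 (k p : ℝ)⁻¹ 0 := rfl
    have e1 : (![mk3 p 0 (k p : ℝ)⁻¹ 0, mk3 p 0 0 (k p : ℝ)⁻¹, 0] : Fin 3 → V) 1
        = mk3 p 0 0 (k p : ℝ)⁻¹ := rfl
    have e2 : (![mk3 p 0 (k p : ℝ)⁻¹ 0, mk3 p 0 0 (k p : ℝ)⁻¹, 0] : Fin 3 → V) 2 = 0 := rfl
    rw [e0, e1, e2, q1, q2]
    have q3 : ∑ j, (0 : V) j * A j = 0 := by simp
    rw [q3, zero_smul, add_zero]
    have f0 : rv ((![mkFrame k _ hk n1 o1, mkFrame k _ hk n2 o2, mkFrame k _ hk n1 o1]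
        : Fin 3 → Frame) 0).e = rv (mk3 p (-k (p + 1)) (k p) 0) := rfl
    have f1 : rv ((![mkFrame k _ hk n1 o1, mkFrame k _ hk n2 o2, mkFrame k _ hk n1 o1]
        : Fin 3 → Frame) 1).e = rv (mk3 p (-k (p + 2)) 0 (k p)) := rfl
    rw [f0, f1]
    refine ext3 p ?_ ?_ ?_
    · simp only [Pi.add_apply, Pi.smul_apply, smul_eq_mul]
      rw [rv_mk3_p, rv_mk3_p]
      field_simp
      push_cast
      linarith
    · simp only [Pi.add_apply, Pi.smul_apply, smul_eq_mul]
      rw [rv_mk3_q, rv_mk3_q]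
      field_simp
      push_cast
      ring
    · simp only [Pi.add_apply, Pi.smul_apply, smul_eq_mul]
      rw [rv_mk3_r, rv_mk3_r]
      field_simp
      push_cast
      ring

lemma trig_orth (k l : Fin 3 → ℤ) :
    ∫ x in Dom, Real.cos (ph k x) * Real.cos (ph l x)
      = ((if k = l then (volume Dom).toReal else 0)
        + (if k = -l then (volume Dom).toReal else 0)) / 2 ∧
    ∫ x in Dom, Real.sin (ph k x) * Real.cos (ph l x) = 0 ∧
    ∫ x in Dom, Real.cos (ph k x) * Real.sin (ph l x) = 0 ∧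
    ∫ x in Dom, Real.sin (ph k x) * Real.sin (ph l x)
      = ((if k = l then (volume Dom).toReal else 0)
        - (if k = -l then (volume Dom).toReal else 0)) / 2 := by
  obtain ⟨K, hK⟩ : ∃ K : ℕ, (∀ i, |k i| ≤ K) ∧ ∀ i, |l i| ≤ K := by
    refine ⟨(∑ i, (k i).natAbs) + ∑ i, (l i).natAbs, fun i => ?_, fun i => ?_⟩
    · have : (k i).natAbs ≤ ∑ i, (k i).natAbs :=
        Finset.single_le_sum (f := fun i => (k i).natAbs) (fun _ _ => Nat.zero_le _)
          (Finset.mem_univ i)
      rw [Int.abs_eq_natAbs]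
      exact_mod_cast this.trans (Nat.le_add_right _ _)
    · have : (l i).natAbs ≤ ∑ i, (l i).natAbs :=
        Finset.single_le_sum (f := fun i => (l i).natAbs) (fun _ _ => Nat.zero_le _)
          (Finset.mem_univ i)
      rw [Int.abs_eq_natAbs]
      exact_mod_cast this.trans (Nat.le_add_left _ _)
  have h := (fine_one (N := 2 * K + 1)).products (K := K) (by omega) hK.1 hK.2
  have q1 : (k - l = 0) ↔ (k = l) := sub_eq_zero
  have q2 : (k + l = 0) ↔ (k = -l) := add_eq_zero_iff_eq_neg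
  simp only [one_mul, q1, q2] at h
  exact h

/-- the integral of a slow factor against a test function -/
lemma g0_orth (k l : Fin 3 → ℤ) (α β : ℝ) :
    ∫ x in Dom, g0 α β (ph k x) * Real.cos (ph l x)
      = α * (((if k = l then (volume Dom).toReal else 0)
        + (if k = -l then (volume Dom).toReal else 0)) / 2) ∧
    ∫ x in Dom, g0 α β (ph k x) * Real.sin (ph l x)
      = β * (((if k = l then (volume Dom).toReal else 0)
        - (if k = -l then (volume Dom).toReal else 0)) / 2) := by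
  obtain ⟨h1, h2, h3, h4⟩ := trig_orth k l
  obtain ⟨i1, i2, i3, i4⟩ := int_trig k l
  constructor
  · have e : ∀ x, g0 α β (ph k x) * Real.cos (ph l x)
        = α * (Real.cos (ph k x) * Real.cos (ph l x)) + β * (Real.sin (ph k x) * Real.cos (ph l x)) := by
      intro x; unfold g0; ring
    simp only [e]
    rw [int2 (i1.const_mul _) (i2.const_mul _), integral_const_mul, integral_const_mul, h1, h2]
    ring
  · have e : ∀ x, g0 α β (ph k x) * Real.sin (ph l x)
        = α * (Real.cos (ph k x) * Real.sin (ph l x)) + β * (Real.sin (ph k x) * Real.sin (ph l x)) := by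
      intro x; unfold g0; ring
    simp only [e]
    rw [int2 (i3.const_mul _) (i4.const_mul _), integral_const_mul, integral_const_mul, h3, h4]
    ring

/-- the modes of the target field of a family -/
lemma tg_modes {ι : Type} [Fintype ι] (F : ι → Frame) (Ω a₀ α β : ι → ℝ) (t : ℝ) (i : Fin 3)
    (l : Fin 3 → ℤ) :
    ∫ x in Dom, tg F Ω a₀ α β t x i * Real.cos (ph l x)
      = ∑ j, (a₀ j * (if l = 0 then (volume Dom).toReal else 0) + Real.cos (Ω j * t) * (α j *
        (((if (F j).m = l then (volume Dom).toReal else 0)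
        + (if (F j).m = -l then (volume Dom).toReal else 0)) / 2))) * (F j).e i ∧
    ∫ x in Dom, tg F Ω a₀ α β t x i * Real.sin (ph l x)
      = ∑ j, (Real.cos (Ω j * t) * (β j *
        (((if (F j).m = l then (volume Dom).toReal else 0)
        - (if (F j).m = -l then (volume Dom).toReal else 0)) / 2))) * (F j).e i := by
  have gc : ∀ j, IntegrableOn (fun x => g0 (α j) (β j) (ph (F j).m x) * Real.cos (ph l x)) Dom ∧
      IntegrableOn (fun x => g0 (α j) (β j) (ph (F j).m x) * Real.sin (ph l x)) Dom := by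
    intro j
    have hgc : Continuous (fun x => g0 (α j) (β j) (ph (F j).m x)) :=
      (g0_contDiff _ _).continuous.comp (ph_contDiff _).continuous
    have hgp : Periodic3 (fun x => g0 (α j) (β j) (ph (F j).m x)) := by
      intro i x
      have h2 := cos_periodic (F j).m i x
      have h3 := sin_periodic (F j).m i x
      simp only at h2 h3
      simp only [g0]
      rw [h2, h3]
    exact ⟨int_cos hgp hgc l, int_sin hgp hgc l⟩
  constructor
  · have e : ∀ x, tg F Ω a₀ α β t x i * Real.cos (ph l x)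
        = ∑ j, (a₀ j * Real.cos (ph l x)
          + Real.cos (Ω j * t) * (g0 (α j) (β j) (ph (F j).m x) * Real.cos (ph l x))) * (F j).e i := by
      intro x
      unfold tg
      rw [Finset.sum_mul]
      exact Finset.sum_congr rfl fun j _ => by ring
    simp only [e]
    have hi : ∀ j, IntegrableOn (fun x => (a₀ j * Real.cos (ph l x)
        + Real.cos (Ω j * t) * (g0 (α j) (β j) (ph (F j).m x) * Real.cos (ph l x)))
          * (F j).e i) Dom := fun j =>
      (((integrable_cos l).const_mul _).add ((gc j).1.const_mul _)).mul_const _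
    rw [integral_finsetSum _ fun j _ => hi j]
    refine Finset.sum_congr rfl fun j _ => ?_
    rw [integral_mul_const, int2 ((integrable_cos l).const_mul _) ((gc j).1.const_mul _),
      integral_const_mul, integral_const_mul, cos_moment, (g0_orth _ _ _ _).1]
  · have e : ∀ x, tg F Ω a₀ α β t x i * Real.sin (ph l x)
        = ∑ j, (a₀ j * Real.sin (ph l x)
          + Real.cos (Ω j * t) * (g0 (α j) (β j) (ph (F j).m x) * Real.sin (ph l x))) * (F j).e i := by
      intro x
      unfold tg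
      rw [Finset.sum_mul]
      exact Finset.sum_congr rfl fun j _ => by ring
    simp only [e]
    have hi : ∀ j, IntegrableOn (fun x => (a₀ j * Real.sin (ph l x)
        + Real.cos (Ω j * t) * (g0 (α j) (β j) (ph (F j).m x) * Real.sin (ph l x)))
          * (F j).e i) Dom := fun j =>
      (((integrable_sin l).const_mul _).add ((gc j).2.const_mul _)).mul_const _
    rw [integral_finsetSum _ fun j _ => hi j]
    refine Finset.sum_congr rfl fun j _ => ?_
    rw [integral_mul_const, int2 ((integrable_sin l).const_mul _) ((gc j).2.const_mul _),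
      integral_const_mul, integral_const_mul, sin_moment, (g0_orth _ _ _ _).2]
    ring

end Pool.Agent.Run7.h507.Sh
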