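import Pool.Agent.Run7.h507.Sh10
import Pool.Agent.Run7.h507.Sh11

/-!
# A family of tubes with prescribed histories of the low modes
-/

open MeasureTheory Set
open scoped Topology Pointwise ContDiff

set_option autoImplicit false
set_option linter.unusedSectionVars false

namespace Pool.Agent.Run7.h507.Sh

open Pool.Agent.H708R2.EulerSign Pool.Agent.H708R2.EulerModes Pool.Agent.R739.ET

/-- prescribed histories of the modes with nonzero frequency -/
structure Hist (T : ℝ) (A B : (Fin 3 → ℤ) → ℝ → V) : Prop where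
  orthA : ∀ l, ∀ t ∈ Ico 0 T, ph l (A l t) = 0
  orthB : ∀ l, ∀ t ∈ Ico 0 T, ph l (B l t) = 0
  negA : ∀ l t, A (-l) t = A l t
  negB : ∀ l t, B (-l) t = -B l t
  ucA : ∀ l i, UniformContinuousOn (fun t => A l t i) (Ico 0 T)
  ucB : ∀ l i, UniformContinuousOn (fun t => B l t i) (Ico 0 T)

lemma uc_sum {f : Fin 3 → ℝ → ℝ} {s : Set ℝ} (h : ∀ j, UniformContinuousOn (f j) s)
    (w : Fin 3 → ℝ) : UniformContinuousOn (fun t => ∑ j, w j * f j t) s := by
  have hc : ∀ j, UniformContinuousOn (fun t => w j * f j t) s := fun j =>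
    (uniformContinuous_const_smul (w j)).comp_uniformContinuousOn (h j)
  simp only [uniformContinuousOn_iff_restrict] at hc ⊢
  simp only [Fin.sum_univ_three]
  exact ((hc 0).add (hc 1)).add (hc 2)

/-- the coefficients: for a frequency `k` -/
lemma exists_coef {T : ℝ} (hT : 0 < T) {A : ℝ → V} {k : Fin 3 → ℤ}
    (horth : ∀ t ∈ Ico 0 T, ph k (A t) = 0)
    (huc : ∀ i, UniformContinuousOn (fun t => A t i) (Ico 0 T)) {F : Fin 3 → Frame} {w : Fin 3 → V}
    (hF : ∀ A : V, ph k A = 0 → A = ∑ i, (∑ j, w i j * A j) • rv (F i).e)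
    (S : Finset ℝ) (hS : ∀ a ∈ S, a ∈ Ico 0 T) {η : ℝ} (hη : 0 < η) :
    ∃ n : ℕ, ∀ m, n ≤ m → ∃ c : Fin 3 → ℕ → ℝ,
      (∀ t ∈ Ico 0 T, ∀ i', |∑ i, (∑ r ∈ Finset.range (m + 1),
        c i r * Real.cos (Real.pi * r / T * t)) * (F i).e i' - A t i'| ≤ η) ∧
      ∀ t ∈ S, ∀ i', ∑ i, (∑ r ∈ Finset.range (m + 1),
        c i r * Real.cos (Real.pi * r / T * t)) * (F i).e i' = A t i' := by
  set Ξ : ℝ := 1 + ∑ i, ∑ i', |((F i).e i' : ℝ)| with hΞ
  have hΞ0 : 0 ≤ ∑ i, ∑ i', |((F i).e i' : ℝ)| :=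
    Finset.sum_nonneg fun i _ => Finset.sum_nonneg fun i' _ => abs_nonneg _
  have hΞ1 : 0 < Ξ := by linarith
  have hap := fun i => approx hT (uc_sum huc (w i)) S hS (η := η / Ξ) (by positivity)
  choose n hn using hap
  refine ⟨∑ i, n i, fun m hm => ?_⟩
  have hnm : ∀ i, n i ≤ m := fun i =>
    (Finset.single_le_sum (f := n) (fun _ _ => Nat.zero_le _) (Finset.mem_univ i)).trans hm
  choose c hc1 hc2 using fun i => hn i m (hnm i)
  have hexp : ∀ t ∈ Ico 0 T, ∀ i', A t i' = ∑ i, (∑ j, w i j * A t j) * (F i).e i' := by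
    intro t ht i'
    conv_lhs => rw [hF (A t) (horth t ht)]
    rw [Finset.sum_apply]
    exact Finset.sum_congr rfl fun i _ => rfl
  refine ⟨c, fun t ht i' => ?_, fun t ht i' => ?_⟩
  · rw [hexp t ht i', ← Finset.sum_sub_distrib]
    calc |∑ i, ((∑ r ∈ Finset.range (m + 1), c i r * Real.cos (Real.pi * r / T * t))
          * (F i).e i' - (∑ j, w i j * A t j) * (F i).e i')|
        ≤ ∑ i, η / Ξ * |((F i).e i' : ℝ)| := by
          refine (Finset.abs_sum_le_sum_abs _ _).trans (Finset.sum_le_sum fun i _ => ?_)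
          rw [← sub_mul, abs_mul]
          have := hc1 i t ht
          gcongr
      _ = η / Ξ * ∑ i, |((F i).e i' : ℝ)| := by rw [Finset.mul_sum]
      _ ≤ η / Ξ * Ξ := by
          have h1 : ∑ i, |((F i).e i' : ℝ)| ≤ ∑ i, ∑ i', |((F i).e i' : ℝ)| :=
            Finset.sum_le_sum fun i _ => Finset.single_le_sum
              (f := fun i' => |((F i).e i' : ℝ)|) (fun _ _ => abs_nonneg _) (Finset.mem_univ i')
          gcongr
          linarith
      _ = η := by field_simp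
  · rw [hexp t (hS t ht) i']
    refine Finset.sum_congr rfl fun i _ => ?_
    rw [hc2 i t ht]

theorem exists_family {T : ℝ} (hT : 0 < T) {A B : (Fin 3 → ℤ) → ℝ → V} (h : Hist T A B)
    (A₀ : V) {K : ℕ} (hK1 : 1 ≤ K) (S : Finset ℝ) (hS : ∀ a ∈ S, a ∈ Ico 0 T) {η : ℝ}
    (hη : 0 < η) :
    ∃ (ι : Type) (_ : Fintype ι) (F : ι → Frame) (Ω a₀ α β : ι → ℝ),
      (∀ j i, |(F j).m i| ≤ K) ∧ (∀ j, ∃ z : ℤ, Ω j * (2 * T) = z * (2 * Real.pi)) ∧
      (∀ t i, ∫ x in Dom, tg F Ω a₀ α β t x i * Real.cos (ph 0 x) = A₀ i ∧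
        ∫ x in Dom, tg F Ω a₀ α β t x i * Real.sin (ph 0 x) = 0) ∧
      (∀ l ∈ Bx K, l ≠ 0 → ∀ i, (∀ t ∈ Ico 0 T,
        |(∫ x in Dom, tg F Ω a₀ α β t x i * Real.cos (ph l x)) - A l t i| ≤ η ∧
        |(∫ x in Dom, tg F Ω a₀ α β t x i * Real.sin (ph l x)) - B l t i| ≤ η) ∧
        ∀ t ∈ S, ∫ x in Dom, tg F Ω a₀ α β t x i * Real.cos (ph l x) = A l t i ∧
          ∫ x in Dom, tg F Ω a₀ α β t x i * Real.sin (ph l x) = B l t i) ∧
      (∀ l, l ∉ Bx K → ∀ t i, ∫ x in Dom, tg F Ω a₀ α β t x i * Real.cos (ph l x) = 0 ∧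
        ∫ x in Dom, tg F Ω a₀ α β t x i * Real.sin (ph l x) = 0) := by
  classical
  have hpi := Real.pi_pos
  set vol : ℝ := (volume Dom).toReal with hvol
  have hvol0 : 0 < vol := vol_pos
  let κ := {k // k ∈ (Bx K).erase 0}
  have hfr : ∀ k : κ, ∃ (F : Fin 3 → Frame) (w : Fin 3 → V), (∀ i, (F i).m = k) ∧
      (∀ A : V, ph k A = 0 → A = ∑ i, (∑ j, w i j * A j) • rv (F i).e) := fun k =>
    exists_frames k (Finset.ne_of_mem_erase k.2)
  choose G w hG hw using hfr
  have hA := fun k : κ => exists_coef hT (h.orthA k) (h.ucA k) (hw k) S hS hη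
  have hB := fun k : κ => exists_coef hT (h.orthB k) (h.ucB k) (hw k) S hS hη
  choose nA hnA using hA
  choose nB hnB using hB
  set n : ℕ := (∑ k, nA k) + ∑ k, nB k with hn
  have hnA' : ∀ k, nA k ≤ n := fun k =>
    (Finset.single_le_sum (f := nA) (fun _ _ => Nat.zero_le _) (Finset.mem_univ k)).trans
      (Nat.le_add_right _ _)
  have hnB' : ∀ k, nB k ≤ n := fun k =>
    (Finset.single_le_sum (f := nB) (fun _ _ => Nat.zero_le _) (Finset.mem_univ k)).trans
      (Nat.le_add_left _ _)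
  choose cA hcA1 hcA2 using fun k => hnA k n (hnA' k)
  choose cB hcB1 hcB2 using fun k => hnB k n (hnB' k)
  let ι := Fin 3 ⊕ (κ × Fin 3 × Fin (n + 1))
  let F : ι → Frame := Sum.elim axis (fun j => G j.1 j.2.1)
  let Ω : ι → ℝ := Sum.elim (fun _ => 0) (fun j => Real.pi * (j.2.2 : ℕ) / T)
  let a₀ : ι → ℝ := Sum.elim (fun i => vol⁻¹ * A₀ i) (fun _ => 0)
  let α : ι → ℝ := Sum.elim (fun _ => 0) (fun j => vol⁻¹ * cA j.1 j.2.1 j.2.2)
  let β : ι → ℝ := Sum.elim (fun _ => 0) (fun j => vol⁻¹ * cB j.1 j.2.1 j.2.2)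
  -- the general formula
  have key : ∀ (c : κ → Fin 3 → ℕ → ℝ) (l : Fin 3 → ℤ) (σ t : ℝ) (i : Fin 3),
      ∑ j : κ × Fin 3 × Fin (n + 1), (Real.cos (Real.pi * (j.2.2 : ℕ) / T * t)
        * ((vol⁻¹ * c j.1 j.2.1 j.2.2) * (((if (j.1 : Fin 3 → ℤ) = l then vol else 0)
        + σ * (if (j.1 : Fin 3 → ℤ) = -l then vol else 0)) / 2))) * (G j.1 j.2.1).e i
      = ∑ k : κ, ((if (k : Fin 3 → ℤ) = l then 1 else 0)
        + σ * (if (k : Fin 3 → ℤ) = -l then 1 else 0)) / 2 *
        ∑ i', (∑ r ∈ Finset.range (n + 1), c k i' r * Real.cos (Real.pi * r / T * t))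
          * (G k i').e i := by
    intro c l σ t i
    rw [Fintype.sum_prod_type]
    refine Finset.sum_congr rfl fun k _ => ?_
    rw [Fintype.sum_prod_type, Finset.mul_sum]
    refine Finset.sum_congr rfl fun i' _ => ?_
    rw [Finset.sum_range, Finset.sum_mul, Finset.mul_sum]
    refine Finset.sum_congr rfl fun r _ => ?_
    simp only
    split_ifs <;> field_simp <;> ring
  have hone : ∀ (l : Fin 3 → ℤ) (σ : ℝ) (X : κ → ℝ),
      ∑ k : κ, ((if (k : Fin 3 → ℤ) = l then 1 else 0)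
        + σ * (if (k : Fin 3 → ℤ) = -l then 1 else 0)) / 2 * X k
      = (∑ k : κ, if (k : Fin 3 → ℤ) = l then X k / 2 else 0)
        + σ * ∑ k : κ, if (k : Fin 3 → ℤ) = -l then X k / 2 else 0 := by
    intro l σ X
    rw [Finset.mul_sum, ← Finset.sum_add_distrib]
    refine Finset.sum_congr rfl fun k _ => ?_
    split_ifs <;> ring
  have hin : ∀ (l : Fin 3 → ℤ) (hl : l ∈ (Bx K).erase 0) (X : κ → ℝ),
      (∑ k : κ, if (k : Fin 3 → ℤ) = l then X k / 2 else 0) = X ⟨l, hl⟩ / 2 := by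
    intro l hl X
    rw [Finset.sum_eq_single ⟨l, hl⟩]
    · simp
    · intro k _ hk
      rw [if_neg]
      intro h0
      exact hk (Subtype.ext h0)
    · intro h0; exact absurd (Finset.mem_univ _) h0
  have hout : ∀ (l : Fin 3 → ℤ) (_ : l ∉ (Bx K).erase 0) (X : κ → ℝ),
      (∑ k : κ, if (k : Fin 3 → ℤ) = l then X k / 2 else 0) = 0 := by
    intro l hl X
    refine Finset.sum_eq_zero fun k _ => ?_
    rw [if_neg]
    intro h0
    exact hl (h0 ▸ k.2)
  have hneg : ∀ l, l ∈ (Bx K).erase 0 → -l ∈ (Bx K).erase 0 := by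
    intro l hl
    rw [Finset.mem_erase, mem_Bx] at hl ⊢
    exact ⟨neg_ne_zero.2 hl.1, fun i => by simpa using hl.2 i⟩
  -- the modes
  have hcos : ∀ (l : Fin 3 → ℤ) (t : ℝ) (i : Fin 3),
      ∫ x in Dom, tg F Ω a₀ α β t x i * Real.cos (ph l x)
        = (if l = 0 then A₀ i else 0) + ∑ k : κ, ((if (k : Fin 3 → ℤ) = l then 1 else 0)
        + 1 * (if (k : Fin 3 → ℤ) = -l then 1 else 0)) / 2 *
        ∑ i', (∑ r ∈ Finset.range (n + 1), cA k i' r * Real.cos (Real.pi * r / T * t))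
          * (G k i').e i := by
    intro l t i
    rw [(tg_modes F Ω a₀ α β t i l).1, Fintype.sum_sum_type, ← key]
    congr 1
    · simp only [a₀, Ω, α, F, Sum.elim_inl, axis_e]
      rw [Finset.sum_eq_single i]
      · simp only [if_true, zero_mul, mul_zero, add_zero, mul_one]
        split_ifs
        · field_simp
          exact mul_comm _ _
        · simp
      · intro b _ hb
        rw [if_neg (Ne.symm hb)]
        ring
      · intro h0; exact absurd (Finset.mem_univ _) h0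
    · refine Finset.sum_congr rfl fun j _ => ?_
      simp only [a₀, Ω, α, F, Sum.elim_inr, hG]
      ring
  have hsin : ∀ (l : Fin 3 → ℤ) (t : ℝ) (i : Fin 3),
      ∫ x in Dom, tg F Ω a₀ α β t x i * Real.sin (ph l x)
        = ∑ k : κ, ((if (k : Fin 3 → ℤ) = l then 1 else 0)
        + (-1) * (if (k : Fin 3 → ℤ) = -l then 1 else 0)) / 2 *
        ∑ i', (∑ r ∈ Finset.range (n + 1), cB k i' r * Real.cos (Real.pi * r / T * t))
          * (G k i').e i := by
    intro l t i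
    rw [(tg_modes F Ω a₀ α β t i l).2, Fintype.sum_sum_type, ← key]
    have e0 : ∑ a₁ : Fin 3, (Real.cos (Ω (Sum.inl a₁) * t) * (β (Sum.inl a₁) *
        (((if (F (Sum.inl a₁)).m = l then vol else 0)
        - (if (F (Sum.inl a₁)).m = -l then vol else 0)) / 2))) * (F (Sum.inl a₁)).e i = 0 := by
      refine Finset.sum_eq_zero fun a _ => ?_
      simp only [β, Sum.elim_inl]
      ring
    rw [e0, zero_add]
    refine Finset.sum_congr rfl fun j _ => ?_
    simp only [Ω, β, F, Sum.elim_inr, hG]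
    ring
  refine ⟨ι, inferInstance, F, Ω, a₀, α, β, ?_, ?_, ?_, ?_, ?_⟩
  · intro j i
    rcases j with j | j
    · refine (axis_m j i).trans ?_
      exact_mod_cast hK1
    · have := mem_Bx.1 (Finset.mem_of_mem_erase j.1.2) i
      simp only [F, Sum.elim_inr, hG]
      exact this
  · intro j
    rcases j with j | j
    · exact ⟨0, by simp [Ω]⟩
    · refine ⟨(j.2.2 : ℕ), ?_⟩
      simp only [Ω, Sum.elim_inr]
      push_cast
      field_simp
  · intro t i
    have h0 : (0 : Fin 3 → ℤ) ∉ (Bx K).erase 0 := Finset.notMem_erase _ _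
    have h0' : -(0 : Fin 3 → ℤ) ∉ (Bx K).erase 0 := by rw [neg_zero]; exact h0
    constructor
    · rw [hcos, hone, hout _ h0, hout _ h0']
      simp
    · rw [hsin, hone, hout _ h0, hout _ h0']
      simp
  · intro l hl hl0 i
    have hm : l ∈ (Bx K).erase 0 := Finset.mem_erase.2 ⟨hl0, hl⟩
    have hm' := hneg l hm
    constructor
    · intro t ht
      constructor
      · rw [hcos, if_neg hl0, zero_add, hone, hin _ hm, hin _ hm']
        have h1 := hcA1 ⟨l, hm⟩ t ht i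
        have h2 := hcA1 ⟨-l, hm'⟩ t ht i
        simp only [h.negA] at h2
        rw [abs_le] at h1 h2 ⊢
        constructor <;> linarith
      · rw [hsin, hone, hin _ hm, hin _ hm']
        have h1 := hcB1 ⟨l, hm⟩ t ht i
        have h2 := hcB1 ⟨-l, hm'⟩ t ht i
        simp only [h.negB, Pi.neg_apply] at h2
        rw [abs_le] at h1 h2 ⊢
        constructor <;> linarith
    · intro t ht
      constructor
      · rw [hcos, if_neg hl0, zero_add, hone, hin _ hm, hin _ hm']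
        have h1 := hcA2 ⟨l, hm⟩ t ht i
        have h2 := hcA2 ⟨-l, hm'⟩ t ht i
        simp only [h.negA] at h2
        linarith
      · rw [hsin, hone, hin _ hm, hin _ hm']
        have h1 := hcB2 ⟨l, hm⟩ t ht i
        have h2 := hcB2 ⟨-l, hm'⟩ t ht i
        simp only [h.negB, Pi.neg_apply] at h2
        linarith
  · intro l hl t i
    have hl0 : l ≠ 0 := by
      rintro rfl
      exact hl (mem_Bx.2 fun i => by simp)
    have h0 : l ∉ (Bx K).erase 0 := fun hm => hl (Finset.mem_of_mem_erase hm)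
    have h0' : -l ∉ (Bx K).erase 0 := fun hm => h0 (by simpa using hneg _ hm)
    constructor
    · rw [hcos, if_neg hl0, hone, hout _ h0, hout _ h0']
      simp
    · rw [hsin, hone, hout _ h0, hout _ h0']
      simp

end Pool.Agent.Run7.h507.Sh
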