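import Pool.Agent.Run7.h507.Sh12

/-!
# Closeness in negative Sobolev norms, and the theorem for curves
-/

open MeasureTheory Set
open scoped Topology Pointwise ContDiff

set_option autoImplicit false
set_option linter.unusedSectionVars false

namespace Pool.Agent.Run7.h507.Sh

open Pool.Agent.H708R2.EulerSign Pool.Agent.H708R2.EulerModes Pool.Agent.R739.ET

/-- closeness from closeness of the low modes, vanishing of the intermediate modes and a bound
in `H⁻¹` -/
lemma hneg_close {u₀ v : V → V} (hper : Periodic3 u₀) (hL2 : MemLp u₀ 2 (volume.restrict cube))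
    (hvp : Periodic3 v) (hvc : Continuous v) {K N : ℕ} {s ε M η : ℝ} (hs : 1 < s)
    (hb : ∀ i, Hm1 M (fun x => v x i)) (hη : 0 ≤ η)
    (hvm : ∀ l ∈ Bx K, ∀ i,
      |(∫ x in Dom, v x i * Real.cos (ph l x)) - ∫ x in Dom, u₀ x i * Real.cos (ph l x)| ≤ η ∧
      |(∫ x in Dom, v x i * Real.sin (ph l x)) - ∫ x in Dom, u₀ x i * Real.sin (ph l x)| ≤ η)
    (hvz : ∀ l : Fin 3 → ℤ, l ∉ Bx K → (∀ i, |l i| + K < N) → ∀ i,
      ∫ x in Dom, v x i * Real.cos (ph l x) = 0 ∧ ∫ x in Dom, v x i * Real.sin (ph l x) = 0)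
    (w0 : (Bx K).card * (6 * η ^ 2) ≤ ε ^ 2 / 3)
    (w1 : (1 + ((N - K : ℕ) : ℝ) ^ 2) ^ (-(s - 1)) * (2 * (3 * M)) ≤ ε ^ 2 / 3)
    (w2 : (1 + (K : ℝ) ^ 2) ^ (-s) *
      (2 * ∑ i, (volume Dom).toReal * ∫ x in Dom, (u₀ x i) ^ 2) ≤ ε ^ 2 / 3) :
    HNegClose s ε v u₀ := by
  classical
  have hu2 := memLp_dom hper hL2
  set vol : ℝ := (volume Dom).toReal with hvol
  have hvol0 : 0 < vol := vol_pos
  set Eu : ℝ := ∑ i, vol * ∫ x in Dom, (u₀ x i) ^ 2 with hEu
  intro S
  have hsubp : ∀ i, Periodic3 (fun x => v x i - u₀ x i) := by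
    intro i j x; simp only; rw [hvp j x, hper j x]
  have vi : ∀ i, Integrable (fun x => v x i) (volume.restrict Dom) := fun i =>
    (comp_periodic hvp i).integrableOn ((continuous_apply i).comp hvc)
  have ui : ∀ i, Integrable (fun x => u₀ x i) (volume.restrict Dom) := fun i =>
    (memLp_comp hu2 i).integrable (by norm_num)
  have mulc : ∀ (g : V → ℝ) (l : Fin 3 → ℤ), Integrable g (volume.restrict Dom) →
      Integrable (fun x => g x * Real.cos (ph l x)) (volume.restrict Dom) := by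
    intro g l hg
    refine hg.mul_bdd (c := 1)
      (Real.continuous_cos.comp (ph_contDiff l).continuous).aestronglyMeasurable
      (Filter.Eventually.of_forall fun x => ?_)
    exact Real.abs_cos_le_one _
  have muls : ∀ (g : V → ℝ) (l : Fin 3 → ℤ), Integrable g (volume.restrict Dom) →
      Integrable (fun x => g x * Real.sin (ph l x)) (volume.restrict Dom) := by
    intro g l hg
    refine hg.mul_bdd (c := 1)
      (Real.continuous_sin.comp (ph_contDiff l).continuous).aestronglyMeasurable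
      (Filter.Eventually.of_forall fun x => ?_)
    exact Real.abs_sin_le_one _
  have hcd : ∀ l i, cosCoeff l (fun x => v x i - u₀ x i)
      = (∫ x in Dom, v x i * Real.cos (ph l x)) - ∫ x in Dom, u₀ x i * Real.cos (ph l x) := by
    intro l i
    rw [cosCoeff_eq (hsubp i), ← integral_sub (mulc _ l (vi i)) (mulc _ l (ui i))]
    congr 1
    ext1 x
    ring
  have hsd : ∀ l i, sinCoeff l (fun x => v x i - u₀ x i)
      = (∫ x in Dom, v x i * Real.sin (ph l x)) - ∫ x in Dom, u₀ x i * Real.sin (ph l x) := by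
    intro l i
    rw [sinCoeff_eq (hsubp i), ← integral_sub (muls _ l (vi i)) (muls _ l (ui i))]
    congr 1
    ext1 x
    ring
  set av : (Fin 3 → ℤ) → Fin 3 → ℝ := fun l i =>
    (∫ x in Dom, v x i * Real.cos (ph l x)) ^ 2 + (∫ x in Dom, v x i * Real.sin (ph l x)) ^ 2
    with hav
  set au : (Fin 3 → ℤ) → Fin 3 → ℝ := fun l i =>
    (∫ x in Dom, u₀ x i * Real.cos (ph l x)) ^ 2 + (∫ x in Dom, u₀ x i * Real.sin (ph l x)) ^ 2
    with hau
  have hav0 : ∀ l i, 0 ≤ av l i := fun l i => by positivity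
  have hau0 : ∀ l i, 0 ≤ au l i := fun l i => by positivity
  -- weights
  have hwt : ∀ (r : ℝ), 0 ≤ r → ∀ (l : Fin 3 → ℤ) (n : ℕ), (∃ i, (n : ℤ) ≤ |l i|) →
      (1 + ∑ i, (l i : ℝ) ^ 2) ^ (-r) ≤ (1 + (n : ℝ) ^ 2) ^ (-r) := by
    rintro r hr l n ⟨i, hi⟩
    apply Real.rpow_le_rpow_of_nonpos (by positivity) _ (by linarith)
    have h1 : (l i : ℝ) ^ 2 ≤ ∑ i, (l i : ℝ) ^ 2 :=
      Finset.single_le_sum (f := fun i => (l i : ℝ) ^ 2) (fun _ _ => sq_nonneg _)
        (Finset.mem_univ i)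
    have h2 : (n : ℝ) ≤ |(l i : ℝ)| := by exact_mod_cast hi
    have h3 : (n : ℝ) ^ 2 ≤ (l i : ℝ) ^ 2 := by
      rw [← sq_abs (l i : ℝ)]
      gcongr
    linarith
  have hle1 : ∀ l : Fin 3 → ℤ, (1 + ∑ i, (l i : ℝ) ^ 2) ^ (-s) ≤ 1 := by
    intro l
    refine Real.rpow_le_one_of_one_le_of_nonpos ?_ (by linarith)
    have : 0 ≤ ∑ i, (l i : ℝ) ^ 2 := Finset.sum_nonneg fun i _ => sq_nonneg _
    linarith
  have hsplitw : ∀ l : Fin 3 → ℤ, (1 + ∑ i, (l i : ℝ) ^ 2) ^ (-s)
      = (1 + ∑ i, (l i : ℝ) ^ 2) ^ (-(s - 1)) * (1 + ∑ i, (l i : ℝ) ^ 2)⁻¹ := by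
    intro l
    have hp := wt_pos l
    rw [← Real.rpow_neg_one, ← Real.rpow_add hp]
    congr 1
    ring
  set W1 : ℝ := (1 + ((N - K : ℕ) : ℝ) ^ 2) ^ (-(s - 1)) with hW1
  set W2 : ℝ := (1 + (K : ℝ) ^ 2) ^ (-s) with hW2
  have hW10 : 0 ≤ W1 := by positivity
  have hW20 : 0 ≤ W2 := by positivity
  have hterm : ∀ l ∈ S, (1 + ∑ i, (l i : ℝ) ^ 2) ^ (-s) *
      ∑ i, (cosCoeff l (fun x => v x i - u₀ x i) ^ 2 + sinCoeff l (fun x => v x i - u₀ x i) ^ 2)
      ≤ (if l ∈ Bx K then 6 * η ^ 2 else 0)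
        + (∑ i, W1 * (2 * ((1 + ∑ i, (l i : ℝ) ^ 2)⁻¹ * av l i)) + ∑ i, W2 * (2 * au l i)) := by
    intro l _
    have hw0 : 0 ≤ (1 + ∑ i, (l i : ℝ) ^ 2) ^ (-s) := by positivity
    have hr1 : 0 ≤ ∑ i, W1 * (2 * ((1 + ∑ i, (l i : ℝ) ^ 2)⁻¹ * av l i)) :=
      Finset.sum_nonneg fun i _ => by
        have := hav0 l i
        have := wt_pos l
        positivity
    have hr2 : 0 ≤ ∑ i, W2 * (2 * au l i) :=
      Finset.sum_nonneg fun i _ => by
        have := hau0 l i
        positivity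
    by_cases hl : l ∈ Bx K
    · rw [if_pos hl]
      have h1 : ∀ i, cosCoeff l (fun x => v x i - u₀ x i) ^ 2
          + sinCoeff l (fun x => v x i - u₀ x i) ^ 2 ≤ 2 * η ^ 2 := by
        intro i
        obtain ⟨h1, h2⟩ := hvm l hl i
        rw [hcd, hsd]
        have q1 := sq_le_sq' (abs_le.1 h1).1 (abs_le.1 h1).2
        have q2 := sq_le_sq' (abs_le.1 h2).1 (abs_le.1 h2).2
        linarith
      have h2 : ∑ i, (cosCoeff l (fun x => v x i - u₀ x i) ^ 2
          + sinCoeff l (fun x => v x i - u₀ x i) ^ 2) ≤ 6 * η ^ 2 := by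
        calc _ ≤ ∑ _i : Fin 3, 2 * η ^ 2 := Finset.sum_le_sum fun i _ => h1 i
          _ = 6 * η ^ 2 := by simp; ring
      have h3 : (1 + ∑ i, (l i : ℝ) ^ 2) ^ (-s) *
          ∑ i, (cosCoeff l (fun x => v x i - u₀ x i) ^ 2
          + sinCoeff l (fun x => v x i - u₀ x i) ^ 2) ≤ 1 * (6 * η ^ 2) :=
        mul_le_mul (hle1 l) h2 (Finset.sum_nonneg fun i _ => by positivity) zero_le_one
      linarith
    · rw [if_neg hl, zero_add, ← Finset.sum_add_distrib, Finset.mul_sum]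
      refine Finset.sum_le_sum fun i _ => ?_
      have hbig : ∃ i, ((K : ℕ) : ℤ) ≤ |l i| := by
        rw [mem_Bx] at hl
        push Not at hl
        obtain ⟨i, hi⟩ := hl
        exact ⟨i, hi.le⟩
      have hw1 := hwt s (by linarith) l K hbig
      have hsplit : cosCoeff l (fun x => v x i - u₀ x i) ^ 2
          + sinCoeff l (fun x => v x i - u₀ x i) ^ 2 ≤ 2 * av l i + 2 * au l i := by
        rw [hcd, hsd]
        simp only [hav, hau]
        nlinarith [sq_nonneg ((∫ x in Dom, v x i * Real.cos (ph l x))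
          + ∫ x in Dom, u₀ x i * Real.cos (ph l x)),
          sq_nonneg ((∫ x in Dom, v x i * Real.sin (ph l x))
          + ∫ x in Dom, u₀ x i * Real.sin (ph l x))]
      have hfirst : (1 + ∑ i, (l i : ℝ) ^ 2) ^ (-s) * (2 * av l i)
          ≤ W1 * (2 * ((1 + ∑ i, (l i : ℝ) ^ 2)⁻¹ * av l i)) := by
        by_cases hfar : ∃ i, ((N - K : ℕ) : ℤ) ≤ |l i|
        · have := hwt (s - 1) (by linarith) l (N - K) hfar
          have h0 := hav0 l i
          have hp := wt_pos l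
          rw [hsplitw]
          calc (1 + ∑ i, (l i : ℝ) ^ 2) ^ (-(s - 1)) * (1 + ∑ i, (l i : ℝ) ^ 2)⁻¹ * (2 * av l i)
              = (1 + ∑ i, (l i : ℝ) ^ 2) ^ (-(s - 1))
                * (2 * ((1 + ∑ i, (l i : ℝ) ^ 2)⁻¹ * av l i)) := by ring
            _ ≤ _ := by gcongr
        · have hz : av l i = 0 := by
            push Not at hfar
            have hh : ∀ i, |l i| + K < N := by
              intro i
              have := hfar i
              have := abs_nonneg (l i)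
              omega
            obtain ⟨y1, y2⟩ := hvz l hl hh i
            simp only [hav]
            rw [y1, y2]
            ring
          rw [hz]
          simp
      have hsecond : (1 + ∑ i, (l i : ℝ) ^ 2) ^ (-s) * (2 * au l i) ≤ W2 * (2 * au l i) := by
        have h0 := hau0 l i
        gcongr
      calc (1 + ∑ i, (l i : ℝ) ^ 2) ^ (-s) *
            (cosCoeff l (fun x => v x i - u₀ x i) ^ 2 + sinCoeff l (fun x => v x i - u₀ x i) ^ 2)
          ≤ (1 + ∑ i, (l i : ℝ) ^ 2) ^ (-s) * (2 * av l i + 2 * au l i) := by gcongr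
        _ = (1 + ∑ i, (l i : ℝ) ^ 2) ^ (-s) * (2 * av l i)
            + (1 + ∑ i, (l i : ℝ) ^ 2) ^ (-s) * (2 * au l i) := by ring
        _ ≤ _ := add_le_add hfirst hsecond
  refine (Finset.sum_le_sum hterm).trans ?_
  rw [Finset.sum_add_distrib, Finset.sum_add_distrib]
  have b0 : ∑ l ∈ S, (if l ∈ Bx K then 6 * η ^ 2 else 0) ≤ (Bx K).card * (6 * η ^ 2) := by
    rw [← Finset.sum_filter, Finset.sum_const, nsmul_eq_mul]
    have : (S.filter (fun l => l ∈ Bx K)).card ≤ (Bx K).card :=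
      Finset.card_le_card fun l hl => (Finset.mem_filter.1 hl).2
    gcongr
  have b1 : ∑ l ∈ S, ∑ i, W1 * (2 * ((1 + ∑ i, (l i : ℝ) ^ 2)⁻¹ * av l i))
      ≤ W1 * (2 * (3 * M)) := by
    rw [Finset.sum_comm]
    simp only [← Finset.mul_sum]
    gcongr
    calc ∑ i, ∑ l ∈ S, (1 + ∑ i, (l i : ℝ) ^ 2)⁻¹ * av l i ≤ ∑ _i : Fin 3, M :=
          Finset.sum_le_sum fun i _ => hb i S
      _ = 3 * M := by simp
  have b2 : ∑ l ∈ S, ∑ i, W2 * (2 * au l i) ≤ W2 * (2 * Eu) := by
    rw [Finset.sum_comm]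
    simp only [← Finset.mul_sum]
    gcongr
    exact Finset.sum_le_sum fun i _ => bessel (memLp_comp hu2 i) S
  calc _ ≤ (Bx K).card * (6 * η ^ 2) + (W1 * (2 * (3 * M)) + W2 * (2 * Eu)) := by gcongr
    _ ≤ ε ^ 2 / 3 + (ε ^ 2 / 3 + ε ^ 2 / 3) := by gcongr
    _ = ε ^ 2 := by ring

/-- A curve of velocity fields on the time interval `[0, T)`: `2π`-periodic, square-integrable,
with vanishing divergence in the sense of distributions, bounded in `L²`, with constant mean value,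
and uniformly weakly continuous: each Fourier coefficient is uniformly continuous on `[0, T)`. -/
structure IsCurve (T : ℝ) (b : ℝ → V → V) : Prop where
  periodic : ∀ t ∈ Ico 0 T, Periodic3 (b t)
  sqInt : ∀ t ∈ Ico 0 T, MemLp (b t) 2 (volume.restrict cube)
  divFree : ∀ t ∈ Ico 0 T, WeakDivFree (b t)
  bounded : ∃ E : ℝ, ∀ t ∈ Ico 0 T, ∫ x in cube, ∑ i, b t x i ^ 2 ≤ E
  mean : ∀ t ∈ Ico 0 T, ∀ i, ∫ x in cube, b t x i = ∫ x in cube, b 0 x i
  weakCont : ∀ (l : Fin 3 → ℤ) (i : Fin 3),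
    UniformContinuousOn (fun t => cosCoeff l (fun x => b t x i)) (Ico 0 T) ∧
    UniformContinuousOn (fun t => sinCoeff l (fun x => b t x i)) (Ico 0 T)

theorem main_curve {T : ℝ} (hT : 0 < T) {b : ℝ → V → V} (hb : IsCurve T b) (K : ℕ)
    (S : Finset ℝ) (hS : ∀ a ∈ S, a ∈ Ico 0 T) {s ε : ℝ} (hs : 1 < s) (hε : 0 < ε) :
    ∃ (u : ℝ → V → V) (p : V → ℝ), Sol u p ∧ (∀ t x, u (t + 2 * T) x = u t x) ∧
      (∀ t ∈ S, SameModes K (u t) (b t)) ∧ (∀ t ∈ Ico 0 T, HNegClose s ε (u t) (b t)) := by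
  classical
  have h0T : (0 : ℝ) ∈ Ico 0 T := ⟨le_rfl, hT⟩
  set vol : ℝ := (volume Dom).toReal with hvol
  have hvol0 : 0 < vol := vol_pos
  obtain ⟨E, hE⟩ := hb.bounded
  -- the coefficients over the period cell
  let A : (Fin 3 → ℤ) → ℝ → V := fun l t i => cosCoeff l (fun x => b t x i)
  let B : (Fin 3 → ℤ) → ℝ → V := fun l t i => sinCoeff l (fun x => b t x i)
  have eA : ∀ l, ∀ t ∈ Ico 0 T, ∀ i, A l t i = ∫ x in Dom, b t x i * Real.cos (ph l x) :=
    fun l t ht i => cosCoeff_eq (comp_periodic (hb.periodic t ht) i) l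
  have eB : ∀ l, ∀ t ∈ Ico 0 T, ∀ i, B l t i = ∫ x in Dom, b t x i * Real.sin (ph l x) :=
    fun l t ht i => sinCoeff_eq (comp_periodic (hb.periodic t ht) i) l
  have hHist : Hist T A B := by
    refine ⟨fun l t ht => ?_, fun l t ht => ?_, fun l t => ?_, fun l t => ?_,
      fun l i => (hb.weakCont l i).1, fun l i => (hb.weakCont l i).2⟩
    · have := (ph_coeff (hb.periodic t ht) (hb.sqInt t ht) (hb.divFree t ht) l).1
      have e : A l t = fun i => ∫ x in Dom, b t x i * Real.cos (ph l x) := funext (eA l t ht)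
      rw [e]; exact this
    · have := (ph_coeff (hb.periodic t ht) (hb.sqInt t ht) (hb.divFree t ht) l).2
      have e : B l t = fun i => ∫ x in Dom, b t x i * Real.sin (ph l x) := funext (eB l t ht)
      rw [e]; exact this
    · ext i
      simp only [A, cosCoeff, ph_neg, Real.cos_neg]
    · ext i
      simp only [B, sinCoeff, ph_neg, Real.sin_neg, mul_neg, Pi.neg_apply]
      rw [integral_neg]
  -- the energy over the period cell
  have hEn : ∀ t ∈ Ico 0 T, ∑ i, vol * ∫ x in Dom, (b t x i) ^ 2 ≤ vol * E := by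
    intro t ht
    have hu2 := memLp_dom (hb.periodic t ht) (hb.sqInt t ht)
    have hi : ∀ i, Integrable (fun x => b t x i ^ 2) (volume.restrict Dom) := fun i =>
      (memLp_comp hu2 i).integrable_sq
    rw [← Finset.mul_sum, ← integral_finsetSum _ fun i _ => hi i]
    have h1 := hE t ht
    rw [integral_cube (f := fun x => ∑ i, b t x i ^ 2)] at h1
    · gcongr
    · intro j x
      simp only
      rw [hb.periodic t ht j x]
  -- the choice of the parameters
  obtain ⟨K₁, hK₁⟩ := exists_pow_le s (by linarith) (2 * (vol * E)) (ε ^ 2 / 3) (by positivity)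
  set K' := max 1 (max K K₁) with hK'
  have hK'1 : 1 ≤ K' := le_max_left _ _
  have hKK' : K ≤ K' := (le_max_left _ _).trans (le_max_right _ _)
  have hK₁' : K₁ ≤ K' := (le_max_right _ _).trans (le_max_right _ _)
  set cd : ℝ := ((Bx K').card : ℝ) with hcd
  have hcd0 : 0 ≤ cd := by positivity
  set η : ℝ := Real.sqrt (ε ^ 2 / (18 * (cd + 1))) with hη
  have hη0 : 0 < η := Real.sqrt_pos.2 (by positivity)
  have hηsq : η ^ 2 = ε ^ 2 / (18 * (cd + 1)) := Real.sq_sqrt (by positivity)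
  have w0 : cd * (6 * η ^ 2) ≤ ε ^ 2 / 3 := by
    rw [hηsq]
    have : cd * (6 * (ε ^ 2 / (18 * (cd + 1)))) = (cd / (cd + 1)) * (ε ^ 2 / 3) := by
      field_simp; ring
    rw [this]
    have h1 : cd / (cd + 1) ≤ 1 := by rw [div_le_one (by positivity)]; linarith
    exact mul_le_of_le_one_left (by positivity) h1
  obtain ⟨ι, hι, F, Ω, a₀, α, β, hFK, hΩ, hz, hlow, hhigh⟩ :=
    exists_family hT hHist (A 0 0) hK'1 S hS hη0
  obtain ⟨C, hC⟩ := exists_flow F Ω a₀ α β K' hFK (2 * T) hΩ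
  obtain ⟨N₁, hN₁⟩ := exists_pow_le (s - 1) (by linarith) (2 * (3 * C)) (ε ^ 2 / 3)
    (by positivity)
  set N := 2 * K' + 1 + N₁ with hN
  obtain ⟨u, p, hsol, htime, hHm, hmod⟩ := hC N (by omega)
  have hmean : ∀ t ∈ Ico 0 T, A 0 t = A 0 0 := by
    intro t ht
    ext i
    have := hb.mean t ht i
    simp only [A, cosCoeff, ph_zero, Real.cos_zero, mul_one]
    exact this
  have hB0 : ∀ t, B 0 t = 0 := by
    intro t
    ext i
    simp only [B, sinCoeff, ph_zero, Real.sin_zero, mul_zero, integral_zero, Pi.zero_apply]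
  have hboxN : ∀ l ∈ Bx K', ∀ i, |l i| + K' < N := by
    intro l hl i
    have := mem_Bx.1 hl i
    omega
  have huc : ∀ t, Continuous (u t) := fun t =>
    (ContDiff.comp (g := fun z : ℝ × V => u z.1 z.2) (f := fun x : V => ((t, x) : ℝ × V))
      hsol.smooth (contDiff_const.prodMk contDiff_id)).continuous
  refine ⟨u, p, hsol, htime, ?_, ?_⟩
  · intro t ht l hl i
    have hl' : l ∈ Bx K' := by
      rw [mem_Bx]
      intro i
      refine (hl i).trans ?_
      exact_mod_cast hKK'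
    have htT := hS t ht
    obtain ⟨m1, m2⟩ := hmod l (hboxN l hl') t i
    rw [cosCoeff_eq (comp_periodic (hsol.per t) i), sinCoeff_eq (comp_periodic (hsol.per t) i),
      m1, m2]
    change _ = A l t i ∧ _ = B l t i
    by_cases hl0 : l = 0
    · subst hl0
      rw [hmean t htT, hB0]
      exact hz t i
    · exact (hlow l hl' hl0 i).2 t ht
  · intro t ht
    refine hneg_close (hb.periodic t ht) (hb.sqInt t ht) (hsol.per t) (huc t) (K := K') (N := N)
      (M := C) (η := η) hs (fun i => hHm t i) hη0.le ?_ ?_ w0 ?_ ?_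
    · intro l hl i
      obtain ⟨m1, m2⟩ := hmod l (hboxN l hl) t i
      rw [m1, m2, ← eA l t ht i, ← eB l t ht i]
      by_cases hl0 : l = 0
      · subst hl0
        obtain ⟨z1, z2⟩ := hz t i
        rw [z1, z2, hmean t ht, hB0]
        simp [hη0.le]
      · exact (hlow l hl hl0 i).1 t ht
    · intro l hl hlN i
      obtain ⟨m1, m2⟩ := hmod l hlN t i
      rw [m1, m2]
      exact hhigh l hl t i
    · exact hN₁ (N - K') (by omega)
    · refine le_trans ?_ (hK₁ K' hK₁')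
      have := hEn t ht
      gcongr

end Pool.Agent.Run7.h507.Sh
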