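import Pool.Agent.Run7.h507.Sh13

/-!
# Classical solutions of the Euler equations are curves: the energy and the low modes
-/

open MeasureTheory Set
open scoped Topology Pointwise ContDiff

set_option autoImplicit false
set_option linter.unusedSectionVars false

namespace Pool.Agent.Run7.h507.Sh

open Pool.Agent.H708R2.EulerSign Pool.Agent.H708R2.EulerModes Pool.Agent.R739.ET

section param

variable {T : ℝ} {F : ℝ → V → ℝ}
  (hF : ContDiffOn ℝ 1 (fun z : ℝ × V => F z.1 z.2) (Ico 0 T ×ˢ univ))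

include hF

lemma int_continuousOn : ContinuousOn (fun s => ∫ x in Dom, F s x) (Ico 0 T) := by
  intro t ht
  have hS := hF.continuousOn
  obtain ⟨b, hb1, hb2⟩ := exists_between ht.2
  have hK : IsCompact (Icc 0 b ×ˢ closure Dom) := isCompact_Icc.prod dom_bdd.isCompact_closure
  have hsub : Icc 0 b ×ˢ closure Dom ⊆ Ico 0 T ×ˢ (univ : Set V) :=
    prod_mono (fun s hs => ⟨hs.1, hs.2.trans_lt hb2⟩) (subset_univ _)
  obtain ⟨C, hC⟩ := hK.exists_bound_of_continuousOn (hS.mono hsub)
  have hev : ∀ᶠ s in 𝓝[Ico 0 T] t, s ∈ Icc 0 b := by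
    have h1 : ∀ᶠ s in 𝓝[Ico 0 T] t, s < b := nhdsWithin_le_nhds (Iio_mem_nhds hb1)
    filter_upwards [h1, self_mem_nhdsWithin] with s hs1 hs2
    exact ⟨hs2.1, hs1.le⟩
  refine continuousWithinAt_of_dominated (bound := fun _ => C) ?_ ?_ ?_ ?_
  · filter_upwards [hev] with s hs
    have : ContDiff ℝ 1 (fun x => F s x) := contDiff_slice hF ⟨hs.1, hs.2.trans_lt hb2⟩
    exact this.continuous.aestronglyMeasurable
  · filter_upwards [hev] with s hs
    refine (ae_restrict_iff' dom_meas).2 (Filter.Eventually.of_forall fun x hx => ?_)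
    exact hC (s, x) ⟨hs, subset_closure hx⟩
  · exact integrableOn_const dom_lt_top.ne
  · refine Filter.Eventually.of_forall fun x => ?_
    have h1 : ContinuousWithinAt (fun z : ℝ × V => F z.1 z.2) (Ico 0 T ×ˢ univ) (t, x) :=
      hS (t, x) ⟨ht, mem_univ _⟩
    exact h1.comp (t := Ico 0 T ×ˢ univ) (f := fun s : ℝ => ((s, x) : ℝ × V))
      (by fun_prop) (fun s hs => ⟨hs, mem_univ _⟩)

lemma time_hasDerivAt {t : ℝ} (ht : t ∈ Ioo 0 T) (x : V) :
    HasDerivAt (fun s => F s x) (fderiv ℝ (fun z : ℝ × V => F z.1 z.2) (t, x) (1, 0)) t := by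
  have hmem : Ico 0 T ×ˢ (univ : Set V) ∈ 𝓝 (t, x) :=
    prod_mem_nhds (Ico_mem_nhds ht.1 ht.2) Filter.univ_mem
  have h1 : DifferentiableAt ℝ (fun z : ℝ × V => F z.1 z.2) (t, x) :=
    (hF.contDiffAt hmem).differentiableAt one_ne_zero
  have h2 : HasDerivAt (fun s : ℝ => ((s, x) : ℝ × V)) (1, 0) t :=
    (hasDerivAt_id t).prodMk (hasDerivAt_const t x)
  exact h1.hasFDerivAt.comp_hasDerivAt t h2

lemma int_hasDerivAt {t : ℝ} (ht : t ∈ Ioo 0 T) :
    HasDerivAt (fun s => ∫ x in Dom, F s x)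
      (∫ x in Dom, fderiv ℝ (fun z : ℝ × V => F z.1 z.2) (t, x) (1, 0)) t := by
  obtain ⟨a, ha1, ha2⟩ := exists_between ht.1
  obtain ⟨b, hb1, hb2⟩ := exists_between ht.2
  have hO : IsOpen (Ioo 0 T ×ˢ (univ : Set V)) := isOpen_Ioo.prod isOpen_univ
  have hS1 : ContDiffOn ℝ 1 (fun z : ℝ × V => F z.1 z.2) (Ioo 0 T ×ˢ univ) :=
    hF.mono (prod_mono Ioo_subset_Ico_self subset_rfl)
  have hd : ContinuousOn (fun z : ℝ × V => fderiv ℝ (fun z : ℝ × V => F z.1 z.2) z (1, 0))
      (Ioo 0 T ×ˢ univ) :=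
    (hS1.continuousOn_fderiv_of_isOpen hO le_rfl).clm_apply continuousOn_const
  have hK : IsCompact (Icc a b ×ˢ closure Dom) := isCompact_Icc.prod dom_bdd.isCompact_closure
  have hsub : Icc a b ×ˢ closure Dom ⊆ Ioo 0 T ×ˢ (univ : Set V) :=
    prod_mono (fun s hs => ⟨ha1.trans_le hs.1, hs.2.trans_lt hb2⟩) (subset_univ _)
  obtain ⟨C, hC⟩ := hK.exists_bound_of_continuousOn (hd.mono hsub)
  have hslice : ∀ s ∈ Ioo 0 T, Continuous (fun x => F s x) := fun s hs =>
    (contDiff_slice (f := F) hF ⟨hs.1.le, hs.2⟩).continuous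
  have hnh : Icc a b ∈ 𝓝 t := Icc_mem_nhds ha2 hb1
  refine (hasDerivAt_integral_of_dominated_loc_of_deriv_le (s := Icc a b)
    (F := F) (F' := fun s x => fderiv ℝ (fun z : ℝ × V => F z.1 z.2) (s, x) (1, 0))
    (bound := fun _ => C) (μ := volume.restrict Dom) hnh ?_ ?_ ?_ ?_ ?_ ?_).2
  · filter_upwards [Ioo_mem_nhds ht.1 ht.2] with s hs
    exact (hslice s hs).aestronglyMeasurable
  · have hcl : IntegrableOn (fun x => F t x) (closure Dom) :=
      (hslice t ht).continuousOn.integrableOn_compact dom_bdd.isCompact_closure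
    exact hcl.mono_set subset_closure
  · have : Continuous (fun x => fderiv ℝ (fun z : ℝ × V => F z.1 z.2) (t, x) (1, 0)) := by
      have h := hd.comp_continuous (f := fun x : V => ((t, x) : ℝ × V)) (by fun_prop)
        (fun x => ⟨ht, mem_univ _⟩)
      exact h
    exact this.aestronglyMeasurable
  · refine (ae_restrict_iff' dom_meas).2 (Filter.Eventually.of_forall fun x hx s hs => ?_)
    exact hC (s, x) ⟨hs, subset_closure hx⟩
  · exact integrableOn_const dom_lt_top.ne
  · refine Filter.Eventually.of_forall fun x s hs => ?_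
    exact time_hasDerivAt hF ⟨ha1.trans_le hs.1, hs.2.trans_lt hb2⟩ x

end param

section euler

variable {T : ℝ} {w : ℝ → V → V} {q : ℝ → V → ℝ} (hw : IsClassicalSolution (Ico 0 T) w q)

include hw

/-- conservation of the energy -/
lemma energy_const {t : ℝ} (ht : t ∈ Ico 0 T) :
    ∫ x in Dom, sq3 (w t x) = ∫ x in Dom, sq3 (w 0 x) := by
  have hu : ContDiff ℝ 1 (fun z : ℝ × V => (fun (_ : ℝ) (_ : V) => (0 : V)) z.1 z.2) :=
    contDiff_const
  have hc := en_continuousOn (u := fun _ _ => 0) hw hu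
  have e : ∀ t, en w (fun _ _ => 0) t = ∫ x in Dom, sq3 (w t x) := by
    intro t
    unfold en
    simp only [sub_zero]
  have hz : ∀ t ∈ Ioo 0 T, ∫ x in Dom, dS w (fun _ _ => 0) t x = 0 := by
    intro t ht
    have := en_deriv_le (u := fun _ _ => 0) hw hu (fun _ _ _ => rfl) (fun _ x => divergence_const 0 x)
      (fun t x i => by simp) (K := 0) (fun t _ x i j => by simp [grad]) ht
    rw [mul_zero, zero_mul] at this
    exact abs_nonpos_iff.1 this
  rw [← e, ← e]
  rcases eq_or_lt_of_le ht.1 with h0 | h0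
  · rw [← h0]
  · obtain ⟨c, hc1, hc2⟩ := exists_hasDerivAt_eq_slope (en w (fun _ _ => 0))
      (fun t => ∫ x in Dom, dS w (fun _ _ => 0) t x) h0
      (hc.mono fun s hs => ⟨hs.1, hs.2.trans_lt ht.2⟩)
      (fun s hs => en_hasDerivAt (u := fun _ _ => 0) hw hu ⟨hs.1, hs.2.trans ht.2⟩)
    rw [hz c ⟨hc1.1, hc1.2.trans ht.2⟩] at hc2
    have h1 : t - 0 ≠ 0 := by rw [sub_zero]; exact h0.ne'
    rw [eq_comm, div_eq_zero_iff] at hc2
    rcases hc2 with h | h
    · linarith
    · exact absurd h h1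

lemma norm_sq_le_sq3 (y : V) : ‖y‖ ^ 2 ≤ sq3 y := by
  have h0 := sq3_nonneg y
  have h1 : ‖y‖ ≤ Real.sqrt (sq3 y) := by
    rw [pi_norm_le_iff_of_nonneg (Real.sqrt_nonneg _)]
    intro i
    rw [Real.norm_eq_abs]
    refine Real.abs_le_sqrt ?_
    exact Finset.single_le_sum (f := fun i => y i ^ 2) (fun _ _ => sq_nonneg _) (Finset.mem_univ i)
  calc ‖y‖ ^ 2 ≤ Real.sqrt (sq3 y) ^ 2 := by gcongr
    _ = sq3 y := Real.sq_sqrt h0

/-- the integral of the velocity against a divergence-free test field is Lipschitz in time -/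
theorem test_lip {A : V} {φ : V → ℝ} (hφ : ContDiff ℝ ∞ φ) (hφp : Periodic3 φ)
    (hA : ∀ x, fderiv ℝ φ x A = 0) {C : ℝ} (hC0 : 0 ≤ C) (hC : ∀ x, ‖fderiv ℝ φ x‖ ≤ C)
    {t t' : ℝ} (ht : t ∈ Ico 0 T) (ht' : t' ∈ Ico 0 T) :
    |(∫ x in Dom, (∑ i, A i * w t' x i) * φ x) - ∫ x in Dom, (∑ i, A i * w t x i) * φ x|
      ≤ ((∑ i, |A i|) * C * ∫ x in Dom, sq3 (w 0 x)) * |t' - t| := by
  set F : ℝ → V → ℝ := fun t x => (∑ i, A i * w t x i) * φ x with hFdef
  have hφ1 : ContDiff ℝ 1 φ := hφ.of_le (by exact_mod_cast le_top)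
  have hcomp : ∀ i, ContDiffOn ℝ 1 (fun z : ℝ × V => w z.1 z.2 i) (Ico 0 T ×ˢ univ) := fun i =>
    (contDiff_apply ℝ ℝ i).comp_contDiffOn hw.contDiffOn_u
  have hF : ContDiffOn ℝ 1 (fun z : ℝ × V => F z.1 z.2) (Ico 0 T ×ˢ univ) :=
    (ContDiffOn.sum fun i _ => contDiffOn_const.mul (hcomp i)).mul
      (hφ1.comp contDiff_snd).contDiffOn
  have hc := int_continuousOn hF
  -- the derivative
  have hder : ∀ t ∈ Ioo 0 T,
      |∫ x in Dom, fderiv ℝ (fun z : ℝ × V => F z.1 z.2) (t, x) (1, 0)|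
        ≤ (∑ i, |A i|) * C * ∫ x in Dom, sq3 (w 0 x) := by
    intro t ht
    have htI : t ∈ Ico 0 T := ⟨ht.1.le, ht.2⟩
    have hwt : ContDiff ℝ 1 (w t) := contDiff_slice hw.contDiffOn_u htI
    have hqt : ContDiff ℝ 1 (q t) := contDiff_slice hw.contDiffOn_p htI
    have hwp := hw.periodic_u t htI
    have hqp := hw.periodic_p t htI
    let a : V → ℝ := fun x => ∑ i, A i * w t x i
    have ha : ContDiff ℝ 1 a := ContDiff.sum fun i _ =>
      contDiff_const.mul ((contDiff_apply ℝ ℝ i).comp hwt)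
    have hap : Periodic3 a := by
      intro i x
      simp only [a]
      rw [hwp i x]
    have hda : ∀ x e, fderiv ℝ a x e = ∑ i, A i * fderiv ℝ (w t) x e i := by
      intro x e
      have h1 : ∀ i, HasFDerivAt (fun y => w t y i)
          ((ContinuousLinearMap.proj i).comp (fderiv ℝ (w t) x)) x := fun i =>
        (ContinuousLinearMap.proj (R := ℝ) (φ := fun _ : Fin 3 => ℝ) i).hasFDerivAt.comp x
          (hwt.differentiable one_ne_zero x).hasFDerivAt
      have h2 : HasFDerivAt a (∑ i, A i • ((ContinuousLinearMap.proj i).comp (fderiv ℝ (w t) x))) x :=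
        HasFDerivAt.fun_sum fun i _ => (h1 i).const_mul (A i)
      rw [h2.fderiv]
      simp
    -- time derivative of the components
    have htime : ∀ x i, HasDerivAt (fun s => w s x i)
        (-(fderiv ℝ (w t) x (w t x) i) - fderiv ℝ (q t) x (Pi.single i 1)) t := by
      intro x i
      have h1 := time_hasDerivAt (F := fun s x => w s x i) (hcomp i) ht x
      have h2 := hw.momentum t htI x i
      rw [derivWithin_of_mem_nhds (Ico_mem_nhds ht.1 ht.2), sum_mul_clm, h1.deriv] at h2
      refine h1.congr_deriv ?_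
      linarith
    have hpt : ∀ x, fderiv ℝ (fun z : ℝ × V => F z.1 z.2) (t, x) (1, 0)
        = -divergence (fun y => (a y * φ y) • w t y) x - divergence (fun y => (q t y * φ y) • A) x
          + a x * fderiv ℝ φ x (w t x) := by
      intro x
      have h1 := time_hasDerivAt hF ht x
      have h2 : HasDerivAt (fun s => F s x)
          ((∑ i, A i * (-(fderiv ℝ (w t) x (w t x) i) - fderiv ℝ (q t) x (Pi.single i 1))) * φ x) t :=
        (HasDerivAt.fun_sum fun i _ => (htime x i).const_mul (A i)).mul_const (φ x)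
      rw [h1.unique h2]
      have da := (ha.differentiable one_ne_zero x).hasFDerivAt
      have dφ := (hφ1.differentiable one_ne_zero x).hasFDerivAt
      have dq := (hqt.differentiable one_ne_zero x).hasFDerivAt
      have daφ : HasFDerivAt (fun y => a y * φ y) (a x • fderiv ℝ φ x + φ x • fderiv ℝ a x) x :=
        da.mul dφ
      have dqφ : HasFDerivAt (fun y => q t y * φ y)
          (q t x • fderiv ℝ φ x + φ x • fderiv ℝ (q t) x) x := dq.mul dφ
      rw [divergence_smul daφ.differentiableAt (hwt.differentiable one_ne_zero x),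
        divergence_smul dqφ.differentiableAt (differentiableAt_const A), divergence_const,
        hw.div_free t htI, daφ.fderiv, dqφ.fderiv]
      simp only [add_apply, smul_apply, smul_eq_mul, hA x, hda]
      have hqA : fderiv ℝ (q t) x A = ∑ i, A i * fderiv ℝ (q t) x (Pi.single i 1) :=
        (sum_mul_clm' _ _).symm
      rw [hqA]
      have e1 : ∑ i, A i * (-(fderiv ℝ (w t) x (w t x) i) - fderiv ℝ (q t) x (Pi.single i 1))
          = -(∑ i, A i * fderiv ℝ (w t) x (w t x) i)
            - ∑ i, A i * fderiv ℝ (q t) x (Pi.single i 1) := by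
        rw [← Finset.sum_neg_distrib, ← Finset.sum_sub_distrib]
        exact Finset.sum_congr rfl fun i _ => by ring
      rw [e1]
      ring
    have g1 : ContDiff ℝ 1 (fun y => (a y * φ y) • w t y) := (ha.mul hφ1).smul hwt
    have g1p : Periodic3 (fun y => (a y * φ y) • w t y) := by
      intro i x; simp only; rw [hap i x, hφp i x, hwp i x]
    have g2 : ContDiff ℝ 1 (fun y => (q t y * φ y) • A) := (hqt.mul hφ1).smul contDiff_const
    have g2p : Periodic3 (fun y => (q t y * φ y) • A) := by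
      intro i x; simp only; rw [hqp i x, hφp i x]
    have i1 : IntegrableOn (fun x => divergence (fun y => (a y * φ y) • w t y) x) Dom :=
      g1p.trace.integrableOn (continuous_grad g1).matrix_trace
    have i2 : IntegrableOn (fun x => divergence (fun y => (q t y * φ y) • A) x) Dom :=
      g2p.trace.integrableOn (continuous_grad g2).matrix_trace
    have cR : Continuous (fun x => a x * fderiv ℝ φ x (w t x)) :=
      ha.continuous.mul ((hφ1.continuous_fderiv one_ne_zero).clm_apply hwt.continuous)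
    have pR : Periodic3 (fun x => a x * fderiv ℝ φ x (w t x)) := by
      intro i x; simp only; rw [hap i x, hφp.fderiv i x, hwp i x]
    have iR : IntegrableOn (fun x => a x * fderiv ℝ φ x (w t x)) Dom := pR.integrableOn cR
    have e1 : ∫ x in Dom, fderiv ℝ (fun z : ℝ × V => F z.1 z.2) (t, x) (1, 0)
        = ∫ x in Dom, a x * fderiv ℝ φ x (w t x) := by
      simp_rw [hpt]
      have e2 : ∀ x, -divergence (fun y => (a y * φ y) • w t y) x
          - divergence (fun y => (q t y * φ y) • A) x + a x * fderiv ℝ φ x (w t x)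
          = (-1) * divergence (fun y => (a y * φ y) • w t y) x
            + (-1) * divergence (fun y => (q t y * φ y) • A) x + a x * fderiv ℝ φ x (w t x) := by
        intro x; ring
      simp_rw [e2]
      rw [int3 (i1.const_mul _) (i2.const_mul _) iR, integral_const_mul, integral_const_mul,
        integral_divergence_eq_zero g1 g1p, integral_divergence_eq_zero g2 g2p]
      ring
    rw [e1, ← energy_const hw htI]
    have hsq : IntegrableOn (fun x => (∑ i, |A i|) * C * sq3 (w t x)) Dom := by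
      refine Periodic3.integrableOn ?_ (continuous_const.mul
        ((sq3_contDiff (n := 1)).continuous.comp hwt.continuous))
      intro i x; simp only; rw [hwp i x]
    have hb : ∀ x, ‖a x * fderiv ℝ φ x (w t x)‖ ≤ (∑ i, |A i|) * C * sq3 (w t x) := by
      intro x
      rw [norm_mul]
      have h1 : ‖a x‖ ≤ (∑ i, |A i|) * ‖w t x‖ := by
        rw [Finset.sum_mul]
        refine (norm_sum_le _ _).trans (Finset.sum_le_sum fun i _ => ?_)
        rw [norm_mul]
        exact mul_le_mul_of_nonneg_left (norm_le_pi_norm _ i) (norm_nonneg _)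
      have h2 : ‖fderiv ℝ φ x (w t x)‖ ≤ C * ‖w t x‖ :=
        (ContinuousLinearMap.le_opNorm _ _).trans (by gcongr; exact hC x)
      have hS0 : 0 ≤ ∑ i, |A i| := Finset.sum_nonneg fun i _ => abs_nonneg _
      calc ‖a x‖ * ‖fderiv ℝ φ x (w t x)‖ ≤ ((∑ i, |A i|) * ‖w t x‖) * (C * ‖w t x‖) := by gcongr
        _ = (∑ i, |A i|) * C * ‖w t x‖ ^ 2 := by ring
        _ ≤ _ := by
          have := norm_sq_le_sq3 hw (w t x)
          gcongr
    have := norm_integral_le_of_norm_le hsq (Filter.Eventually.of_forall hb)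
    rw [integral_const_mul] at this
    exact this
  -- the mean value theorem
  have key : ∀ t t' : ℝ, t ∈ Ico 0 T → t' ∈ Ico 0 T → t < t' →
      |(∫ x in Dom, F t' x) - ∫ x in Dom, F t x|
      ≤ ((∑ i, |A i|) * C * ∫ x in Dom, sq3 (w 0 x)) * |t' - t| := by
    intro t t' ht ht' hlt
    obtain ⟨c, hc1, hc2⟩ := exists_hasDerivAt_eq_slope (fun s => ∫ x in Dom, F s x)
      (fun t => ∫ x in Dom, fderiv ℝ (fun z : ℝ × V => F z.1 z.2) (t, x) (1, 0)) hlt
      (hc.mono fun s hs => ⟨ht.1.trans hs.1, hs.2.trans_lt ht'.2⟩)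
      (fun s hs => int_hasDerivAt hF ⟨ht.1.trans_lt hs.1, hs.2.trans ht'.2⟩)
    have h1 := hder c ⟨ht.1.trans_lt hc1.1, hc1.2.trans ht'.2⟩
    have hne : t' - t ≠ 0 := by linarith
    have h2 : (∫ x in Dom, F t' x) - ∫ x in Dom, F t x
        = (∫ x in Dom, fderiv ℝ (fun z : ℝ × V => F z.1 z.2) (c, x) (1, 0)) * (t' - t) := by
      rw [hc2]; field_simp
    rw [h2, abs_mul]
    gcongr
  rcases lt_trichotomy t t' with h | h | h
  · exact key t t' ht ht' h
  · subst h; simp
  · have := key t' t ht' ht h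
    rwa [abs_sub_comm, abs_sub_comm t t'] at this

end euler

end Pool.Agent.Run7.h507.Sh
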