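import Pool.Agent.Run7.h507.Sh14

/-!
# Classical solutions of the Euler equations are curves
-/

open MeasureTheory Set
open scoped Topology Pointwise ContDiff

set_option autoImplicit false
set_option linter.unusedSectionVars false

namespace Pool.Agent.Run7.h507.Sh

open Pool.Agent.H708R2.EulerSign Pool.Agent.H708R2.EulerModes Pool.Agent.R739.ET

/-- fields of class `C¹` without divergence are weakly divergence-free -/
lemma weakDivFree {u : V → V} (hu : ContDiff ℝ 1 u) (hp : Periodic3 u)
    (hdiv : ∀ x, divergence u x = 0) : WeakDivFree u := by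
  intro ψ hψ hψp
  have hψ1 : ContDiff ℝ 1 ψ := hψ.of_le (by exact_mod_cast le_top)
  rw [integral_cube]
  · have h := integral_divergence_eq_zero (hψ1.smul hu) (by
      intro i x; simp only [Pi.smul_apply']; rw [hψp i x, hp i x])
    refine Eq.trans ?_ h
    congr 1
    ext x
    have := divergence_smul (hψ1.differentiable one_ne_zero x) (hu.differentiable one_ne_zero x)
    rw [hdiv, mul_zero, zero_add] at this
    exact this.symm
  · intro i x
    simp only
    rw [hψp.fderiv i x, hp i x]

lemma memLp_cube {u : V → V} (hu : Continuous u) (hp : Periodic3 u) :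
    MemLp u 2 (volume.restrict cube) := by
  obtain ⟨C, -, hC⟩ := hp.bounded hu
  have hfin : IsFiniteMeasure (volume.restrict cube : Measure V) := by
    constructor
    rw [Measure.restrict_apply_univ]
    exact (isCompact_Icc (a := fun _ : Fin 3 => -Real.pi) (b := fun _ => Real.pi)).measure_lt_top
  exact MemLp.of_bound hu.aestronglyMeasurable C (Filter.Eventually.of_forall hC)

/-- the vector `eᵢ` projected to the orthogonal complement of `l` -/
noncomputable def prj (l : Fin 3 → ℤ) (i : Fin 3) : V :=
  if l = 0 then Pi.single i 1 else Pi.single i 1 - ((l i : ℝ) / ph l (rv l)) • rv l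

lemma ph_prj (l : Fin 3 → ℤ) (i : Fin 3) : ph l (prj l i) = 0 := by
  unfold prj
  split_ifs with h
  · rw [h, ph_zero]
  · have h1 := ph_self_pos h
    rw [sub_eq_add_neg, ← neg_smul, ph_add, ph_smul, ph_single]
    field_simp
    ring

lemma prj_sum (l : Fin 3 → ℤ) (i : Fin 3) {c : V} (hc : ph l c = 0) :
    ∑ j, prj l i j * c j = c i := by
  unfold prj
  split_ifs with h
  · simp [Pi.single_apply]
  · simp only [Pi.sub_apply, Pi.smul_apply, smul_eq_mul, sub_mul, Finset.sum_sub_distrib]
    have e1 : ∑ j, (Pi.single i (1 : ℝ) : V) j * c j = c i := by simp [Pi.single_apply]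
    have e2 : ∑ j, (l i : ℝ) / ph l (rv l) * rv l j * c j
        = (l i : ℝ) / ph l (rv l) * ph l c := by
      unfold ph
      rw [Finset.mul_sum]
      exact Finset.sum_congr rfl fun j _ => by simp only [rv]; ring
    rw [e1, e2, hc, mul_zero, sub_zero]

section euler

variable {T : ℝ} {w : ℝ → V → V} {q : ℝ → V → ℝ} (hw : IsClassicalSolution (Ico 0 T) w q)

include hw

lemma slice {t : ℝ} (ht : t ∈ Ico 0 T) : ContDiff ℝ 1 (w t) := contDiff_slice hw.contDiffOn_u ht

lemma test_eq (l : Fin 3 → ℤ) (i : Fin 3) {t : ℝ} (ht : t ∈ Ico 0 T) :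
    cosCoeff l (fun x => w t x i) = ∫ x in Dom, (∑ j, prj l i j * w t x j) * Real.cos (ph l x) ∧
    sinCoeff l (fun x => w t x i)
      = ∫ x in Dom, (∑ j, prj l i j * w t x j) * Real.sin (ph l x) := by
  have hwt := slice hw ht
  have hp := hw.periodic_u t ht
  have hpc := fun j => comp_periodic hp j
  have hcc : ∀ j, Continuous (fun x => w t x j) := fun j =>
    (continuous_apply j).comp hwt.continuous
  obtain ⟨h1, h2⟩ := ph_coeff hp (memLp_cube hwt.continuous hp)
    (weakDivFree hwt hp (hw.div_free t ht)) l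
  constructor
  · rw [cosCoeff_eq (hpc i)]
    have e : ∀ x, (∑ j, prj l i j * w t x j) * Real.cos (ph l x)
        = ∑ j, prj l i j * (w t x j * Real.cos (ph l x)) := by
      intro x
      rw [Finset.sum_mul]
      exact Finset.sum_congr rfl fun j _ => by ring
    simp only [e]
    rw [integral_finsetSum _ fun j _ => (int_cos (hpc j) (hcc j) l).const_mul _]
    simp only [integral_const_mul]
    exact (prj_sum l i h1).symm
  · rw [sinCoeff_eq (hpc i)]
    have e : ∀ x, (∑ j, prj l i j * w t x j) * Real.sin (ph l x)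
        = ∑ j, prj l i j * (w t x j * Real.sin (ph l x)) := by
      intro x
      rw [Finset.sum_mul]
      exact Finset.sum_congr rfl fun j _ => by ring
    simp only [e]
    rw [integral_finsetSum _ fun j _ => (int_sin (hpc j) (hcc j) l).const_mul _]
    simp only [integral_const_mul]
    exact (prj_sum l i h2).symm

/-- the Fourier coefficients are Lipschitz in time; the mean is constant -/
theorem coeff_lip (l : Fin 3 → ℤ) (i : Fin 3) {t t' : ℝ} (ht : t ∈ Ico 0 T) (ht' : t' ∈ Ico 0 T) :
    |cosCoeff l (fun x => w t' x i) - cosCoeff l (fun x => w t x i)|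
      ≤ ((∑ j, |prj l i j|) * ‖phL l‖ * ∫ x in Dom, sq3 (w 0 x)) * |t' - t| ∧
    |sinCoeff l (fun x => w t' x i) - sinCoeff l (fun x => w t x i)|
      ≤ ((∑ j, |prj l i j|) * ‖phL l‖ * ∫ x in Dom, sq3 (w 0 x)) * |t' - t| := by
  constructor
  · rw [(test_eq hw l i ht).1, (test_eq hw l i ht').1]
    refine test_lip hw (cosph_contDiff l) (cos_periodic l) (fun x => ?_) (norm_nonneg _)
      (fun x => ?_) ht ht'
    · rw [(cosph_fderiv l x).fderiv]
      simp [phL_apply, ph_prj]
    · rw [(cosph_fderiv l x).fderiv, norm_smul, norm_neg]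
      exact mul_le_of_le_one_left (norm_nonneg _) (Real.abs_sin_le_one _)
  · rw [(test_eq hw l i ht).2, (test_eq hw l i ht').2]
    refine test_lip hw (sinph_contDiff l) (sin_periodic l) (fun x => ?_) (norm_nonneg _)
      (fun x => ?_) ht ht'
    · rw [(sinph_fderiv l x).fderiv]
      simp [phL_apply, ph_prj]
    · rw [(sinph_fderiv l x).fderiv, norm_smul]
      exact mul_le_of_le_one_left (norm_nonneg _) (Real.abs_cos_le_one _)

lemma uc_of_lip {f : ℝ → ℝ} {C : ℝ}
    (h : ∀ t ∈ Ico 0 T, ∀ t' ∈ Ico 0 T, |f t' - f t| ≤ C * |t' - t|) :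
    UniformContinuousOn f (Ico 0 T) := by
  have hL : LipschitzOnWith C.toNNReal f (Ico 0 T) := by
    refine LipschitzOnWith.of_dist_le_mul fun x hx y hy => ?_
    rw [Real.dist_eq, Real.dist_eq]
    refine (h y hy x hx).trans ?_
    gcongr
    exact Real.le_coe_toNNReal C
  exact hL.uniformContinuousOn

theorem isCurve_of_classical : IsCurve T w := by
  refine ⟨fun t ht => hw.periodic_u t ht,
    fun t ht => memLp_cube (slice hw ht).continuous (hw.periodic_u t ht),
    fun t ht => weakDivFree (slice hw ht) (hw.periodic_u t ht) (hw.div_free t ht),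
    ⟨∫ x in Dom, sq3 (w 0 x), fun t ht => ?_⟩, fun t ht i => ?_, fun l i => ⟨?_, ?_⟩⟩
  · rw [integral_cube (f := fun x => ∑ i, w t x i ^ 2)]
    · exact (energy_const hw ht).le
    · intro j x
      simp only
      rw [hw.periodic_u t ht j x]
  · have h0 : (0 : ℝ) ∈ Ico 0 T := ⟨le_rfl, ht.1.trans_lt ht.2⟩
    have h := (coeff_lip hw 0 i h0 ht).1
    have e : ‖phL (0 : Fin 3 → ℤ)‖ = 0 := by
      have : phL (0 : Fin 3 → ℤ) = 0 := by
        ext x; rw [phL_apply, ph_zero]; rfl
      rw [this, norm_zero]
    rw [e] at h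
    simp only [mul_zero, zero_mul, abs_nonpos_iff] at h
    simp only [cosCoeff, ph_zero, Real.cos_zero, mul_one] at h
    linarith
  · exact uc_of_lip hw fun t ht t' ht' => (coeff_lip hw l i ht ht').1
  · exact uc_of_lip hw fun t ht t' ht' => (coeff_lip hw l i ht ht').2

end euler

end Pool.Agent.Run7.h507.Sh
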