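import Pool.Agent.Run7.h507.Sh1

/-!
# Flows in a tube with a rational direction
-/

open MeasureTheory Set
open scoped Topology Pointwise ContDiff

set_option autoImplicit false

namespace Pool.Agent.Run7.h507.Sh

open Pool.Agent.H708R2.EulerSign Pool.Agent.H708R2.EulerModes Pool.Agent.R739.ET

lemma wr_add_int (r : ℝ) (z : ℤ) : wr (r + z * (2 * Real.pi)) = wr r := by
  obtain ⟨k, hk⟩ := wr_exists r
  refine wr_eq (wr_mem r) ⟨k + z, ?_⟩
  push_cast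
  linarith

namespace Frame

variable {F : Frame}

lemma yc_periodic (s t : ℝ) : Periodic3 (F.yc s t) := by
  intro i x
  unfold yc
  have e : ∀ (k : Fin 3 → ℤ) (c : ℝ), wr (ph k (x + Pi.single i (2 * Real.pi)) - c)
      = wr (ph k x - c) := by
    intro k c
    rw [ph_add, ph_single]
    have : ph k x + (k i : ℝ) * (2 * Real.pi) - c = (ph k x - c) + (k i : ℤ) * (2 * Real.pi) := by
      ring
    rw [this, wr_add_int]
  rw [e, e]

lemma periodic_wrap {E : Type*} (h : V → E) (s t : ℝ) (N : ℕ) :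
    Periodic3 (fun x => h (F.yc s t ((N : ℝ) • x))) := by
  refine periodic_resc (f := fun x => h (F.yc s t x)) ?_ N
  intro i x
  simp only
  rw [yc_periodic s t i x]

lemma joint {E : Type*} [NormedAddCommGroup E] [NormedSpace ℝ E] {δ : ℝ} (hδ : F.Thin δ)
    {h : ℝ → V → E} (hs : ContDiff ℝ ∞ (fun z : ℝ × V => h z.1 z.2)) (hh : ∀ r, HT δ (h r))
    (s t N : ℝ) : ContDiff ℝ ∞ (fun z : ℝ × V => h z.1 (F.yc s t (N • z.2))) := by
  rw [contDiff_iff_contDiffAt]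
  intro z₀
  have hev : (fun z : ℝ × V => h z.1 (F.yc s t (N • z.2))) =ᶠ[𝓝 z₀]
      fun z => h z.1 (F.af (F.ca s (N • z₀.2)) (F.cb t (N • z₀.2)) (N • z.2)) := by
    have hc : Continuous (fun z : ℝ × V => N • z.2) := continuous_snd.const_smul N
    have h1 := (hc.tendsto z₀).eventually (ph_near F.m (N • z₀.2))
    have h2 := (hc.tendsto z₀).eventually (ph_near F.n (N • z₀.2))
    filter_upwards [h1, h2] with z ha hb
    exact near s t (N • z₀.2) (N • z.2) ha hb hδ (hh z.1)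
  refine ContDiffAt.congr_of_eventuallyEq ?_ hev
  have h2 : ContDiff ℝ ∞ (fun z : ℝ × V =>
      ((z.1, F.af (F.ca s (N • z₀.2)) (F.cb t (N • z₀.2)) (N • z.2)) : ℝ × V)) :=
    contDiff_fst.prodMk ((af_contDiff le_rfl _ _).comp (contDiff_snd.const_smul N))
  exact (hs.comp h2).contDiffAt

lemma smooth_wrap {E : Type*} [NormedAddCommGroup E] [NormedSpace ℝ E] {δ : ℝ} (hδ : F.Thin δ)
    {h : V → E} (hs : ContDiff ℝ ∞ h) (hh : HT δ h)
    (s t N : ℝ) : ContDiff ℝ ∞ (fun x : V => h (F.yc s t (N • x))) := by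
  rw [contDiff_iff_contDiffAt]
  intro x₀
  have hev : (fun x : V => h (F.yc s t (N • x))) =ᶠ[𝓝 x₀]
      fun x => h (F.af (F.ca s (N • x₀)) (F.cb t (N • x₀)) (N • x)) := by
    have hc : Continuous (fun x : V => N • x) := continuous_id.const_smul N
    have h1 := (hc.tendsto x₀).eventually (ph_near F.m (N • x₀))
    have h2 := (hc.tendsto x₀).eventually (ph_near F.n (N • x₀))
    filter_upwards [h1, h2] with x ha hb
    exact near s t (N • x₀) (N • x) ha hb hδ hh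
  refine ContDiffAt.congr_of_eventuallyEq ?_ hev
  have h3 : ContDiff ℝ ∞ (fun x : V => N • x) := contDiff_id.const_smul N
  exact (hs.comp ((af_contDiff le_rfl _ _).comp h3)).contDiffAt

/-- the flow with the components `s₁`, `s₂` in the cross-section and `w` along the tube -/
noncomputable def vel (F : Frame) (s₁ s₂ : V → ℝ) (w : ℝ → V → ℝ) (t : ℝ) (x : V) : V :=
  s₁ x • (F.la⁻¹ • rv F.m) + s₂ x • (F.lb⁻¹ • rv F.n) + w t x • rv F.e

lemma vel_apply (s₁ s₂ : V → ℝ) (w : ℝ → V → ℝ) (t : ℝ) (x : V) (i : Fin 3) :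
    F.vel s₁ s₂ w t x i
      = s₁ x * (F.la⁻¹ * F.m i) + s₂ x * (F.lb⁻¹ * F.n i) + w t x * F.e i := by
  simp [vel, rv]

lemma ph_m_vel (s₁ s₂ : V → ℝ) (w : ℝ → V → ℝ) (t : ℝ) (x : V) :
    ph F.m (F.vel s₁ s₂ w t x) = s₁ x * F.la := by
  unfold vel
  simp only [ph_add, ph_smul, F.mn, F.me, ← len_mul_len]
  have := F.la_pos
  have e : len F.m = F.la := rfl
  rw [e]
  field_simp
  ring

lemma ph_n_vel (s₁ s₂ : V → ℝ) (w : ℝ → V → ℝ) (t : ℝ) (x : V) :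
    ph F.n (F.vel s₁ s₂ w t x) = s₂ x * F.lb := by
  unfold vel
  simp only [ph_add, ph_smul, F.nm, F.ne, ← len_mul_len]
  have := F.lb_pos
  have e : len F.n = F.lb := rfl
  rw [e]
  field_simp
  ring

lemma vel_fderiv {s₁ s₂ : V → ℝ} {w : ℝ → V → ℝ} {t : ℝ} {x : V} {a₁ b₁ a₂ b₂ a₃ b₃ : ℝ}
    (h1 : F.HX s₁ a₁ b₁ x) (h2 : F.HX s₂ a₂ b₂ x) (h3 : F.HX (w t) a₃ b₃ x) (e : V) (i : Fin 3) :
    fderiv ℝ (F.vel s₁ s₂ w t) x e i = (a₁ * ph F.m e + b₁ * ph F.n e) * (F.la⁻¹ * F.m i)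
      + (a₂ * ph F.m e + b₂ * ph F.n e) * (F.lb⁻¹ * F.n i)
      + (a₃ * ph F.m e + b₃ * ph F.n e) * F.e i := by
  have h := ((HasFDerivAt.smul_const h1 (F.la⁻¹ • rv F.m)).add
    (HasFDerivAt.smul_const h2 (F.lb⁻¹ • rv F.n))).add (HasFDerivAt.smul_const h3 (rv F.e))
  have h' : fderiv ℝ (F.vel s₁ s₂ w t) x = _ := h.fderiv
  rw [h']
  simp [phL_apply, rv]

lemma ph_pi_single (k : Fin 3 → ℤ) (i : Fin 3) : ph k (Pi.single i (1 : ℝ)) = k i := by
  rw [ph_single, mul_one]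

/-- the conditions for a solution of the Euler equations -/
theorem classical {s₁ s₂ P : V → ℝ} {w : ℝ → V → ℝ} {a₁ b₁ a₂ b₂ pa pb : V → ℝ}
    {a₃ b₃ wt : ℝ → V → ℝ}
    (c1 : ContDiff ℝ ∞ s₁) (c2 : ContDiff ℝ ∞ s₂)
    (c3 : ContDiff ℝ ∞ (fun z : ℝ × V => w z.1 z.2))     (p1 : Periodic3 s₁) (p2 : Periodic3 s₂) (p3 : ∀ t, Periodic3 (w t))
    (H1 : ∀ x, F.HX s₁ (a₁ x) (b₁ x) x) (H2 : ∀ x, F.HX s₂ (a₂ x) (b₂ x) x)
    (H3 : ∀ t x, F.HX (w t) (a₃ t x) (b₃ t x) x)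
    (Ht : ∀ t x, HasDerivAt (fun r => w r x) (wt t x) t)
    (HP : ∀ x, F.HX P (pa x) (pb x) x)
    (hdiv : ∀ x, a₁ x * F.la + b₂ x * F.lb = 0)
    (hm1 : ∀ x, a₁ x * (s₁ x * F.la) + b₁ x * (s₂ x * F.lb) = -(pa x * F.la))
    (hm2 : ∀ x, a₂ x * (s₁ x * F.la) + b₂ x * (s₂ x * F.lb) = -(pb x * F.lb))
    (hm3 : ∀ t x, wt t x + (a₃ t x * (s₁ x * F.la) + b₃ t x * (s₂ x * F.lb)) = 0) :
    ContDiff ℝ ∞ (fun z : ℝ × V => F.vel s₁ s₂ w z.1 z.2) ∧
    (∀ t, Periodic3 (F.vel s₁ s₂ w t)) ∧ (∀ t x, divergence (F.vel s₁ s₂ w t) x = 0) ∧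
    (∀ t x i, deriv (fun r => F.vel s₁ s₂ w r x i) t
      + fderiv ℝ (F.vel s₁ s₂ w t) x (F.vel s₁ s₂ w t x) i
      = - fderiv ℝ P x (Pi.single i 1)) := by
  have hla := F.la_pos
  have hlb := F.lb_pos
  refine ⟨?_, ?_, ?_, ?_⟩
  · unfold vel
    exact (((c1.comp contDiff_snd).smul contDiff_const).add
      ((c2.comp contDiff_snd).smul contDiff_const)).add (c3.smul contDiff_const)
  · intro t i x
    unfold vel
    rw [p1 i x, p2 i x, p3 t i x]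
  · intro t x
    rw [divergence_eq_sum]
    simp only [vel_fderiv (H1 x) (H2 x) (H3 t x), ph_pi_single]
    have hs := hdiv x
    have q1 : ∑ i, (F.m i : ℝ) * F.m i = F.la * F.la := (len_mul_len (k := F.m)).symm
    have q2 : ∑ i, (F.n i : ℝ) * F.n i = F.lb * F.lb := (len_mul_len (k := F.n)).symm
    have q3 : ∑ i, (F.m i : ℝ) * F.n i = 0 := F.mn
    have q4 : ∑ i, (F.m i : ℝ) * F.e i = 0 := F.me
    have q5 : ∑ i, (F.n i : ℝ) * F.e i = 0 := F.ne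
    have e : ∑ i, ((a₁ x * F.m i + b₁ x * F.n i) * (F.la⁻¹ * F.m i)
        + (a₂ x * F.m i + b₂ x * F.n i) * (F.lb⁻¹ * F.n i)
        + (a₃ t x * F.m i + b₃ t x * F.n i) * F.e i)
        = a₁ x * F.la⁻¹ * (∑ i, (F.m i : ℝ) * F.m i) + b₁ x * F.la⁻¹ * (∑ i, (F.m i : ℝ) * F.n i)
          + a₂ x * F.lb⁻¹ * (∑ i, (F.m i : ℝ) * F.n i) + b₂ x * F.lb⁻¹ * (∑ i, (F.n i : ℝ) * F.n i)
          + a₃ t x * (∑ i, (F.m i : ℝ) * F.e i) + b₃ t x * (∑ i, (F.n i : ℝ) * F.e i) := by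
      simp only [Finset.mul_sum, ← Finset.sum_add_distrib]
      refine Finset.sum_congr rfl fun i _ => ?_
      ring
    have r1 : F.la⁻¹ * (F.la * F.la) = F.la := by field_simp
    have r2 : F.lb⁻¹ * (F.lb * F.lb) = F.lb := by field_simp
    rw [e, q1, q2, q3, q4, q5, mul_assoc (a₁ x), r1, mul_assoc (b₂ x), r2]
    linarith
  · intro t x i
    have hd : HasDerivAt (fun r => F.vel s₁ s₂ w r x i) (wt t x * F.e i) t := by
      simp only [vel_apply]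
      exact ((Ht t x).mul_const (F.e i : ℝ)).const_add _
    rw [hd.deriv, vel_fderiv (H1 x) (H2 x) (H3 t x), ph_m_vel, ph_n_vel, (HP x).fderiv,
      ph_pi_single, ph_pi_single, hm1 x, hm2 x]
    have h3 := hm3 t x
    have h4 : a₃ t x * (s₁ x * F.la) + b₃ t x * (s₂ x * F.lb) = -wt t x := by linarith
    rw [h4]
    field_simp
    ring

end Frame

end Pool.Agent.Run7.h507.Sh
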