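import Pool.Agent.Run7.h507.Sh2

/-!
# A rotating tube with a transported axial velocity
-/

open MeasureTheory Set
open scoped Topology Pointwise ContDiff

set_option autoImplicit false

namespace Pool.Agent.Run7.h507.Sh

open Pool.Agent.H708R2.EulerSign Pool.Agent.H708R2.EulerModes Pool.Agent.R739.ET

/-- the profile of the angular velocity: `1` on the core of the tube -/
noncomputable def kp (d R : ℝ) : ℝ := Real.smoothTransition (2 - 2 * R / d)

lemma kp_rp {d : ℝ} (hd : 0 < d) : RP d (kp d) := by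
  refine ⟨?_, fun R hR => ?_⟩
  · exact Real.smoothTransition.contDiff.comp
      (contDiff_const.sub ((contDiff_const.mul contDiff_id).div_const d))
  · refine Real.smoothTransition.zero_of_nonpos ?_
    rw [sub_nonpos, le_div_iff₀ hd]
    linarith

lemma kp_one {d R : ℝ} (hd : 0 < d) (hR : R ≤ d / 2) : kp d R = 1 := by
  refine Real.smoothTransition.one_of_one_le ?_
  have : 2 * R / d ≤ 1 := by
    rw [div_le_one hd]; linarith
  linarith

lemma kp_mul {d : ℝ} (hd : 0 < d) (R : ℝ) : kp d R * pA (d / 2) R = pA (d / 2) R := by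
  rcases le_or_gt R (d / 2) with h | h
  · rw [kp_one hd h, one_mul]
  · rw [(pA_rp (d / 2)).van R h.le, mul_zero]

lemma pA_rp' {d : ℝ} (hd : 0 < d) : RP d (pA (d / 2)) :=
  ⟨(pA_rp (d / 2)).smooth, fun R hR => (pA_rp (d / 2)).van R (by linarith)⟩

/-- the core function which is transported by the rotation -/
noncomputable def gq (d Ω t : ℝ) (y : V) : ℝ :=
  pA (d / 2) (rad y) * (y 0 * Real.cos (Ω * t) + y 1 * Real.sin (Ω * t))

noncomputable def hc (ν d Ω t : ℝ) (y : V) : ℝ := Real.cos (ν * y 0) * gq d Ω t y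
noncomputable def hs (ν d Ω t : ℝ) (y : V) : ℝ := Real.sin (ν * y 0) * gq d Ω t y

noncomputable def k0 (d : ℝ) (y : V) : ℝ := kp d (rad y) * y 0
noncomputable def k1 (d : ℝ) (y : V) : ℝ := kp d (rad y) * y 1
noncomputable def kr (d : ℝ) (y : V) : ℝ := pA (d / 2) (rad y)
noncomputable def kP (d : ℝ) (y : V) : ℝ := 1 / 2 * prim d (fun R => kp d R * kp d R) (rad y)

section ht

variable {d : ℝ} (hd : 0 < d)

include hd

lemma gq_ht (Ω t : ℝ) : HT d (gq d Ω t) := by
  refine ⟨fun y z h0 h1 => ?_, fun y hy => ?_⟩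
  · unfold gq rad; rw [h0, h1]
  · unfold gq; rw [(pA_rp' hd).van _ hy, zero_mul]

lemma hc_ht (ν Ω t : ℝ) : HT d (hc ν d Ω t) := by
  refine ⟨fun y z h0 h1 => ?_, fun y hy => ?_⟩
  · unfold hc; rw [(gq_ht hd Ω t).ind y z h0 h1, h0]
  · unfold hc; rw [(gq_ht hd Ω t).van y hy, mul_zero]

lemma hs_ht (ν Ω t : ℝ) : HT d (hs ν d Ω t) := by
  refine ⟨fun y z h0 h1 => ?_, fun y hy => ?_⟩
  · unfold hs; rw [(gq_ht hd Ω t).ind y z h0 h1, h0]
  · unfold hs; rw [(gq_ht hd Ω t).van y hy, mul_zero]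

lemma k0_ht : HT d (k0 d) := by
  refine ⟨fun y z h0 h1 => ?_, fun y hy => ?_⟩
  · unfold k0 rad; rw [h0, h1]
  · unfold k0; rw [(kp_rp hd).van _ hy, zero_mul]

lemma k1_ht : HT d (k1 d) := by
  refine ⟨fun y z h0 h1 => ?_, fun y hy => ?_⟩
  · unfold k1 rad; rw [h0, h1]
  · unfold k1; rw [(kp_rp hd).van _ hy, zero_mul]

lemma kr_ht : HT d (kr d) := (pA_rp' hd).ht

lemma kk_rp : RP d (fun R => kp d R * kp d R) := (kp_rp hd).mul (kp_rp hd).smooth

lemma kP_ht : HT d (kP d) := by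
  refine ⟨fun y z h0 h1 => ?_, fun y hy => ?_⟩
  · unfold kP rad; rw [h0, h1]
  · unfold kP; rw [(kk_rp hd).prim.van _ hy, mul_zero]

lemma k0_smooth : ContDiff ℝ ∞ (k0 d) :=
  ((kp_rp hd).smooth.comp rad_contDiff).mul (contDiff_apply ℝ ℝ (0 : Fin 3))

lemma k1_smooth : ContDiff ℝ ∞ (k1 d) :=
  ((kp_rp hd).smooth.comp rad_contDiff).mul (contDiff_apply ℝ ℝ (1 : Fin 3))

lemma kr_smooth : ContDiff ℝ ∞ (kr d) := (pA_rp' hd).smooth.comp rad_contDiff

lemma kP_smooth : ContDiff ℝ ∞ (kP d) :=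
  contDiff_const.mul ((kk_rp hd).prim.smooth.comp rad_contDiff)

lemma gq_joint (Ω : ℝ) : ContDiff ℝ ∞ (fun z : ℝ × V => gq d Ω z.1 z.2) := by
  have hr : ContDiff ℝ ∞ (fun z : ℝ × V => rad z.2) := rad_contDiff.comp contDiff_snd
  have hA : ContDiff ℝ ∞ (fun z : ℝ × V => pA (d / 2) (rad z.2)) := (pA_rp' hd).smooth.comp hr
  have hx : ∀ i : Fin 3, ContDiff ℝ ∞ (fun z : ℝ × V => z.2 i) := fun i =>
    (contDiff_apply ℝ ℝ i).comp contDiff_snd
  have hth : ContDiff ℝ ∞ (fun z : ℝ × V => Ω * z.1) := contDiff_const.mul contDiff_fst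
  exact hA.mul (((hx 0).mul (Real.contDiff_cos.comp hth)).add
    ((hx 1).mul (Real.contDiff_sin.comp hth)))

lemma hc_joint (ν Ω : ℝ) : ContDiff ℝ ∞ (fun z : ℝ × V => hc ν d Ω z.1 z.2) := by
  have hx : ContDiff ℝ ∞ (fun z : ℝ × V => ν * z.2 0) :=
    contDiff_const.mul ((contDiff_apply ℝ ℝ (0 : Fin 3)).comp contDiff_snd)
  exact (Real.contDiff_cos.comp hx).mul (gq_joint hd Ω)

lemma hs_joint (ν Ω : ℝ) : ContDiff ℝ ∞ (fun z : ℝ × V => hs ν d Ω z.1 z.2) := by
  have hx : ContDiff ℝ ∞ (fun z : ℝ × V => ν * z.2 0) :=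
    contDiff_const.mul ((contDiff_apply ℝ ℝ (0 : Fin 3)).comp contDiff_snd)
  exact (Real.contDiff_sin.comp hx).mul (gq_joint hd Ω)

lemma k0_hd (y : V) : HD (k0 d) (kp d (rad y) + y 0 * (deriv (kp d) (rad y) * (2 * y 0)))
    (y 0 * (deriv (kp d) (rad y) * (2 * y 1))) y := by
  refine ((HD.comp ((kp_rp hd).hasDerivAt _) (HD.rad y)).mul (HD.x0 y)).congr ?_ ?_ <;> ring

lemma k1_hd (y : V) : HD (k1 d) (y 1 * (deriv (kp d) (rad y) * (2 * y 0)))
    (kp d (rad y) + y 1 * (deriv (kp d) (rad y) * (2 * y 1))) y := by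
  refine ((HD.comp ((kp_rp hd).hasDerivAt _) (HD.rad y)).mul (HD.x1 y)).congr ?_ ?_ <;> ring

lemma kr_hd (y : V) : HD (kr d) (deriv (pA (d / 2)) (rad y) * (2 * y 0))
    (deriv (pA (d / 2)) (rad y) * (2 * y 1)) y :=
  HD.comp ((pA_rp' hd).hasDerivAt _) (HD.rad y)

lemma kP_hd (y : V) : HD (kP d) (kp d (rad y) * kp d (rad y) * y 0)
    (kp d (rad y) * kp d (rad y) * y 1) y := by
  refine ((HD.comp (prim_hasDerivAt (kk_rp hd) (rad y)) (HD.rad y)).const_mul
    (1 / 2)).congr ?_ ?_ <;> ring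

lemma gq_hd (Ω t : ℝ) (y : V) : HD (gq d Ω t)
    (deriv (pA (d / 2)) (rad y) * (2 * y 0) * (y 0 * Real.cos (Ω * t) + y 1 * Real.sin (Ω * t))
      + pA (d / 2) (rad y) * Real.cos (Ω * t))
    (deriv (pA (d / 2)) (rad y) * (2 * y 1) * (y 0 * Real.cos (Ω * t) + y 1 * Real.sin (Ω * t))
      + pA (d / 2) (rad y) * Real.sin (Ω * t)) y := by
  have h0 := (HD.x0 y).mul (HD.const (Real.cos (Ω * t)) y)
  have h1 := (HD.x1 y).mul (HD.const (Real.sin (Ω * t)) y)
  refine ((kr_hd hd y).mul (h0.add h1)).congr ?_ ?_ <;> simp only [kr] <;> ring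

omit hd in
lemma hc_hd (ν Ω t : ℝ) {y : V} {a b : ℝ} (h : HD (gq d Ω t) a b y) : HD (hc ν d Ω t)
    (-(ν * Real.sin (ν * y 0)) * gq d Ω t y + Real.cos (ν * y 0) * a)
    (Real.cos (ν * y 0) * b) y := by
  have h1 := HD.comp (φ := Real.cos) (Real.hasDerivAt_cos (ν * y 0)) ((HD.x0 y).const_mul ν)
  refine (h1.mul h).congr ?_ ?_ <;> ring

omit hd in
lemma hs_hd (ν Ω t : ℝ) {y : V} {a b : ℝ} (h : HD (gq d Ω t) a b y) : HD (hs ν d Ω t)
    (ν * Real.cos (ν * y 0) * gq d Ω t y + Real.sin (ν * y 0) * a)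
    (Real.sin (ν * y 0) * b) y := by
  have h1 := HD.comp (φ := Real.sin) (Real.hasDerivAt_sin (ν * y 0)) ((HD.x0 y).const_mul ν)
  refine (h1.mul h).congr ?_ ?_ <;> ring

omit hd in
lemma gq_time (Ω t : ℝ) (y : V) : HasDerivAt (fun r => gq d Ω r y)
    (Ω * (pA (d / 2) (rad y) * (y 1 * Real.cos (Ω * t) - y 0 * Real.sin (Ω * t)))) t := by
  have hth : HasDerivAt (fun r : ℝ => Ω * r) Ω t := by
    simpa using (hasDerivAt_id t).const_mul Ω
  have h := (((hth.cos.const_mul (y 0)).add (hth.sin.const_mul (y 1))).const_mul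
    (pA (d / 2) (rad y)))
  refine h.congr_deriv ?_
  ring

end ht

/-- the slow factor and its derivative -/
noncomputable def g0 (α β θ : ℝ) : ℝ := α * Real.cos θ + β * Real.sin θ
noncomputable def g1 (α β θ : ℝ) : ℝ := -α * Real.sin θ + β * Real.cos θ

lemma g0_hasDerivAt (α β θ : ℝ) : HasDerivAt (g0 α β) (g1 α β θ) θ := by
  have := ((Real.hasDerivAt_cos θ).const_mul α).add ((Real.hasDerivAt_sin θ).const_mul β)
  refine this.congr_deriv ?_
  unfold g1; ring

lemma g1_hasDerivAt (α β θ : ℝ) : HasDerivAt (g1 α β) (-g0 α β θ) θ := by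
  have := ((Real.hasDerivAt_sin θ).const_mul (-α)).add ((Real.hasDerivAt_cos θ).const_mul β)
  refine this.congr_deriv ?_
  unfold g0; ring

lemma g0_contDiff (α β : ℝ) : ContDiff ℝ ∞ (g0 α β) :=
  (contDiff_const.mul Real.contDiff_cos).add (contDiff_const.mul Real.contDiff_sin)

lemma g1_contDiff (α β : ℝ) : ContDiff ℝ ∞ (g1 α β) :=
  (contDiff_const.mul Real.contDiff_sin).add (contDiff_const.mul Real.contDiff_cos)

lemma g0_abs (α β θ : ℝ) : |g0 α β θ| ≤ |α| + |β| := by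
  unfold g0
  refine (abs_add_le _ _).trans ?_
  rw [abs_mul, abs_mul]
  have c1 := Real.abs_cos_le_one θ
  have c2 := Real.abs_sin_le_one θ
  have d1 := abs_nonneg α
  have d2 := abs_nonneg β
  nlinarith

lemma g1_abs (α β θ : ℝ) : |g1 α β θ| ≤ |α| + |β| := by
  unfold g1
  refine (abs_add_le _ _).trans ?_
  rw [abs_mul, abs_mul, abs_neg]
  have c1 := Real.abs_cos_le_one θ
  have c2 := Real.abs_sin_le_one θ
  have d1 := abs_nonneg α
  have d2 := abs_nonneg β
  nlinarith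

/-- the data of one family of tubes: the frame, the phases, the size of the tube, the angular
velocity, the amplitudes -/
structure Blk where
  F : Frame
  s : ℝ
  r : ℝ
  Ω : ℝ
  a₀ : ℝ
  α : ℝ
  β : ℝ

namespace Blk

variable (b : Blk) (d c : ℝ) (N : ℕ)

/-- the wrapped coordinates at the scale `1 / N` -/
noncomputable def y (x : V) : V := b.F.yc b.s b.r ((N : ℝ) • x)

noncomputable def S1 (x : V) : ℝ := -(b.Ω / N) * k1 d (b.y N x)
noncomputable def S2 (x : V) : ℝ := b.Ω / N * k0 d (b.y N x)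
noncomputable def P (x : V) : ℝ := (b.Ω / N) ^ 2 * kP d (b.y N x)

/-- the axial velocity -/
noncomputable def W (t : ℝ) (x : V) : ℝ :=
  b.a₀ * kr d (b.y N x) + c * N * (g1 b.α b.β (ph b.F.m x) * hc (b.F.la / N) d b.Ω t (b.y N x)
    + g0 b.α b.β (ph b.F.m x) * hs (b.F.la / N) d b.Ω t (b.y N x))

/-- the flow -/
noncomputable def U (t : ℝ) (x : V) : V := b.F.vel (b.S1 d N) (b.S2 d N) (b.W d c N) t x

variable {b d} (hd : 0 < d) (hN : 0 < N) (hth : b.F.Thin d)

include hd hN hth in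
theorem solution :
    ContDiff ℝ ∞ (fun z : ℝ × V => b.U d c N z.1 z.2) ∧
    (∀ t, Periodic3 (b.U d c N t)) ∧ (∀ t x, divergence (b.U d c N t) x = 0) ∧
    (∀ t x i, deriv (fun r => b.U d c N r x i) t
      + fderiv ℝ (b.U d c N t) x (b.U d c N t x) i
      = - fderiv ℝ (b.P d N) x (Pi.single i 1)) := by
  have hla := b.F.la_pos
  have hlb := b.F.lb_pos
  have hNr : (N : ℝ) ≠ 0 := by positivity
  have hw := fun {h : V → ℝ} (hh : HT d h) {a e : ℝ} {x : V}
    (hdv : HD h a e (b.F.yc b.s b.r ((N : ℝ) • x))) => Frame.HX.wrap hth b.s b.r (N : ℝ) hh hdv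
  have hthe : ∀ x, b.F.HX (ph b.F.m) 1 0 x := fun x => Frame.HX.theta x
  refine Frame.classical (F := b.F) (s₁ := b.S1 d N) (s₂ := b.S2 d N) (P := b.P d N)
    (w := b.W d c N) ?_ ?_ ?_ ?_ ?_ ?_
    (fun x => (hw (k1_ht hd) (k1_hd hd _)).const_mul (-(b.Ω / N)))
    (fun x => (hw (k0_ht hd) (k0_hd hd _)).const_mul (b.Ω / N))
    (fun t x => ((hw (kr_ht hd) (kr_hd hd _)).const_mul b.a₀).add
      ((((Frame.HX.comp (g1_hasDerivAt b.α b.β _) (hthe x)).mul
          (hw (hc_ht hd _ _ t) (hc_hd (b.F.la / N) b.Ω t (gq_hd hd b.Ω t _)))).add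
        ((Frame.HX.comp (g0_hasDerivAt b.α b.β _) (hthe x)).mul
          (hw (hs_ht hd _ _ t) (hs_hd (b.F.la / N) b.Ω t (gq_hd hd b.Ω t _))))).const_mul (c * N)))
    (fun t x => (((((gq_time b.Ω t (b.y N x)).const_mul
          (Real.cos (b.F.la / N * b.y N x 0))).const_mul (g1 b.α b.β (ph b.F.m x))).add
        (((gq_time b.Ω t (b.y N x)).const_mul
          (Real.sin (b.F.la / N * b.y N x 0))).const_mul (g0 b.α b.β (ph b.F.m x)))).const_mul
          (c * N)).const_add (b.a₀ * kr d (b.y N x)))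
    (fun x => (hw (kP_ht hd) (kP_hd hd _)).const_mul ((b.Ω / N) ^ 2)) ?_ ?_ ?_ ?_
  · exact contDiff_const.mul (Frame.smooth_wrap hth (k1_smooth hd) (k1_ht hd) b.s b.r N)
  · exact contDiff_const.mul (Frame.smooth_wrap hth (k0_smooth hd) (k0_ht hd) b.s b.r N)
  · have q1 : ContDiff ℝ ∞ (fun z : ℝ × V => kr d (b.y N z.2)) :=
      (Frame.smooth_wrap hth (kr_smooth hd) (kr_ht hd) b.s b.r N).comp contDiff_snd
    have q2 : ContDiff ℝ ∞ (fun z : ℝ × V => hc (b.F.la / N) d b.Ω z.1 (b.y N z.2)) :=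
      Frame.joint hth (hc_joint hd _ _) (fun r => hc_ht hd _ _ r) b.s b.r N
    have q3 : ContDiff ℝ ∞ (fun z : ℝ × V => hs (b.F.la / N) d b.Ω z.1 (b.y N z.2)) :=
      Frame.joint hth (hs_joint hd _ _) (fun r => hs_ht hd _ _ r) b.s b.r N
    have q4 : ContDiff ℝ ∞ (fun z : ℝ × V => ph b.F.m z.2) := (ph_contDiff _).comp contDiff_snd
    exact (contDiff_const.mul q1).add (contDiff_const.mul
      ((((g1_contDiff b.α b.β).comp q4).mul q2).add (((g0_contDiff b.α b.β).comp q4).mul q3)))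
  · intro i x
    have := Frame.periodic_wrap (F := b.F) (k1 d) b.s b.r N i x
    simp only at this
    simp only [S1, y]
    rw [this]
  · intro i x
    have := Frame.periodic_wrap (F := b.F) (k0 d) b.s b.r N i x
    simp only at this
    simp only [S2, y]
    rw [this]
  · intro t i x
    have h1 := Frame.periodic_wrap (F := b.F) (fun y => y) b.s b.r N i x
    have h2 := cos_periodic b.F.m i x
    have h3 := sin_periodic b.F.m i x
    simp only at h1 h2 h3
    simp only [W, y, g0, g1]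
    rw [h1, h2, h3]
  · intro x
    field_simp
    ring
  · intro x
    simp only [S1, S2, k0, k1, y]
    field_simp
    ring
  · intro x
    simp only [S1, S2, k0, k1, y]
    field_simp
    ring
  · intro t x
    have hk := kp_mul hd (rad (b.y N x))
    simp only [S1, S2, k0, k1, hc, hs, gq]
    change _ = _
    simp only [y] at hk ⊢
    set Y := b.F.yc b.s b.r ((N : ℝ) • x) with hY
    set κ := kp d (rad Y) with hκ
    set X := pA (d / 2) (rad Y) with hX
    set X' := deriv (pA (d / 2)) (rad Y) with hX'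
    set G1 := g1 b.α b.β (ph b.F.m x)
    set G0 := g0 b.α b.β (ph b.F.m x)
    set C := Real.cos (b.F.la / N * Y 0)
    set S := Real.sin (b.F.la / N * Y 0)
    set co := Real.cos (b.Ω * t)
    set si := Real.sin (b.Ω * t)
    linear_combination (norm := skip)
      (-(c * N * b.Ω * (G1 * C + G0 * S) * (Y 1 * co - Y 0 * si))) * hk
    field_simp
    ring

end Blk

end Pool.Agent.Run7.h507.Sh
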