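import Pool.Agent.Run7.h507.Sh3

/-!
# The bound in `H⁻¹` which is uniform in the scale
-/

open MeasureTheory Set
open scoped Topology Pointwise ContDiff

set_option autoImplicit false

namespace Pool.Agent.Run7.h507.Sh

open Pool.Agent.H708R2.EulerSign Pool.Agent.H708R2.EulerModes Pool.Agent.R739.ET

lemma divergence_const (e : V) (x : V) : divergence (fun _ => e) x = 0 := by
  rw [divergence_eq_sum]
  simp

lemma cosph_contDiff (l : Fin 3 → ℤ) : ContDiff ℝ ∞ (fun x => Real.cos (ph l x)) :=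
  Real.contDiff_cos.comp (ph_contDiff l)

lemma sinph_contDiff (l : Fin 3 → ℤ) : ContDiff ℝ ∞ (fun x => Real.sin (ph l x)) :=
  Real.contDiff_sin.comp (ph_contDiff l)

lemma cosph_fderiv (l : Fin 3 → ℤ) (x : V) :
    HasFDerivAt (fun x => Real.cos (ph l x)) (-Real.sin (ph l x) • phL l) x :=
  (Real.hasDerivAt_cos (ph l x)).comp_hasFDerivAt x (Frame.hasFDerivAt_ph l x)

lemma sinph_fderiv (l : Fin 3 → ℤ) (x : V) :
    HasFDerivAt (fun x => Real.sin (ph l x)) (Real.cos (ph l x) • phL l) x :=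
  (Real.hasDerivAt_sin (ph l x)).comp_hasFDerivAt x (Frame.hasFDerivAt_ph l x)

/-- integration by parts -/
lemma parts {ψ φ : V → ℝ} (hψ : ContDiff ℝ 1 ψ) (hp : Periodic3 ψ) (hφ : ContDiff ℝ 1 φ)
    (hq : Periodic3 φ) (e : V) :
    ∫ x in Dom, fderiv ℝ ψ x e * φ x = -∫ x in Dom, ψ x * fderiv ℝ φ x e := by
  have hG : ContDiff ℝ 1 (fun x => (ψ x * φ x) • e) := (hψ.mul hφ).smul contDiff_const
  have hGp : Periodic3 (fun x => (ψ x * φ x) • e) := by
    intro i x
    simp only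
    rw [hp i x, hq i x]
  have h := integral_divergence_eq_zero hG hGp
  have dψ := hψ.differentiable one_ne_zero
  have dφ := hφ.differentiable one_ne_zero
  have e1 : ∀ x, divergence (fun x => (ψ x * φ x) • e) x
      = fderiv ℝ ψ x e * φ x + ψ x * fderiv ℝ φ x e := by
    intro x
    have h1 := ((dψ x).hasFDerivAt.mul (dφ x).hasFDerivAt)
    have h0 : DifferentiableAt ℝ (fun y => ψ y * φ y) x := h1.differentiableAt
    rw [divergence_smul h0 (differentiableAt_const e), divergence_const,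
      mul_zero, zero_add]
    have h2 : fderiv ℝ (fun y => ψ y * φ y) x = _ := h1.fderiv
    rw [h2]
    simp
    ring
  simp only [e1] at h
  have c1 : Continuous (fun x => fderiv ℝ ψ x e) :=
    (hψ.continuous_fderiv one_ne_zero).clm_apply continuous_const
  have c2 : Continuous (fun x => fderiv ℝ φ x e) :=
    (hφ.continuous_fderiv one_ne_zero).clm_apply continuous_const
  have i1 : IntegrableOn (fun x => fderiv ℝ ψ x e * φ x) Dom := by
    refine Periodic3.integrableOn ?_ (c1.mul hφ.continuous)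
    intro i x
    simp only
    rw [hp.fderiv i x, hq i x]
  have i2 : IntegrableOn (fun x => ψ x * fderiv ℝ φ x e) Dom := by
    refine Periodic3.integrableOn ?_ (hψ.continuous.mul c2)
    intro i x
    simp only
    rw [hp i x, hq.fderiv i x]
  rw [integral_add i1 i2] at h
  linarith

/-- the sums in the definition of the norm of `H⁻¹` are at most `M` -/
def Hm1 (M : ℝ) (f : V → ℝ) : Prop := ∀ S : Finset (Fin 3 → ℤ),
  ∑ l ∈ S, (1 + ∑ i, (l i : ℝ) ^ 2)⁻¹ *
    ((∫ x in Dom, f x * Real.cos (ph l x)) ^ 2 + (∫ x in Dom, f x * Real.sin (ph l x)) ^ 2) ≤ M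

lemma int_cos {f : V → ℝ} (hp : Periodic3 f) (hc : Continuous f) (l : Fin 3 → ℤ) :
    IntegrableOn (fun x => f x * Real.cos (ph l x)) Dom := by
  refine Periodic3.integrableOn ?_ (hc.mul (cosph_contDiff l).continuous)
  intro i x
  have := cos_periodic l i x
  simp only at this ⊢
  rw [this, hp i x]

lemma int_sin {f : V → ℝ} (hp : Periodic3 f) (hc : Continuous f) (l : Fin 3 → ℤ) :
    IntegrableOn (fun x => f x * Real.sin (ph l x)) Dom := by
  refine Periodic3.integrableOn ?_ (hc.mul (sinph_contDiff l).continuous)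
  intro i x
  have := sin_periodic l i x
  simp only at this ⊢
  rw [this, hp i x]

lemma bessel_bdd {f : V → ℝ} (hc : Continuous f) {C : ℝ} (hC : ∀ x, |f x| ≤ C)
    (S : Finset (Fin 3 → ℤ)) :
    ∑ l ∈ S, ((∫ x in Dom, f x * Real.cos (ph l x)) ^ 2
      + (∫ x in Dom, f x * Real.sin (ph l x)) ^ 2)
      ≤ (volume Dom).toReal * (C ^ 2 * (volume Dom).toReal) := by
  have h2 : MemLp f 2 (volume.restrict Dom) :=
    MemLp.of_bound hc.aestronglyMeasurable C (Filter.Eventually.of_forall hC)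
  refine (bessel h2 S).trans ?_
  gcongr
  have h1 : ‖∫ x in Dom, f x ^ 2‖ ≤ C ^ 2 * (volume.real Dom) := by
    refine norm_setIntegral_le_of_norm_le_const dom_lt_top fun x _ => ?_
    rw [norm_pow]
    gcongr
    exact hC x
  exact (le_abs_self _).trans h1

lemma wt_pos (l : Fin 3 → ℤ) : 0 < (1 + ∑ i, (l i : ℝ) ^ 2) := by positivity

lemma Hm1.of_bdd {f : V → ℝ} (hc : Continuous f) {C : ℝ} (hC : ∀ x, |f x| ≤ C) :
    Hm1 ((volume Dom).toReal * (C ^ 2 * (volume Dom).toReal)) f := by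
  intro S
  refine le_trans (Finset.sum_le_sum fun l _ => ?_) (bessel_bdd hc hC S)
  have h1 : (1 + ∑ i, (l i : ℝ) ^ 2)⁻¹ ≤ 1 := by
    refine inv_le_one_of_one_le₀ ?_
    have : 0 ≤ ∑ i, (l i : ℝ) ^ 2 := Finset.sum_nonneg fun i _ => sq_nonneg _
    linarith
  exact mul_le_of_le_one_left (by positivity) h1

lemma Hm1.of_deriv {ψ : V → ℝ} (hψ : ContDiff ℝ 1 ψ) (hp : Periodic3 ψ) {C : ℝ}
    (hC : ∀ x, |ψ x| ≤ C) {e : V} (he : ∑ i, e i ^ 2 ≤ 1) :
    Hm1 ((volume Dom).toReal * (C ^ 2 * (volume Dom).toReal)) (fun x => fderiv ℝ ψ x e) := by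
  intro S
  refine le_trans (Finset.sum_le_sum fun l _ => ?_) (bessel_bdd hψ.continuous hC S)
  have c1 : ∫ x in Dom, fderiv ℝ ψ x e * Real.cos (ph l x)
      = ph l e * ∫ x in Dom, ψ x * Real.sin (ph l x) := by
    rw [parts hψ hp ((cosph_contDiff l).of_le (by exact_mod_cast le_top)) (cos_periodic l),
      ← integral_neg, ← integral_const_mul]
    congr 1
    ext x
    rw [(cosph_fderiv l x).fderiv]
    simp [phL_apply]
    ring
  have c2 : ∫ x in Dom, fderiv ℝ ψ x e * Real.sin (ph l x)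
      = -(ph l e) * ∫ x in Dom, ψ x * Real.cos (ph l x) := by
    rw [parts hψ hp ((sinph_contDiff l).of_le (by exact_mod_cast le_top)) (sin_periodic l),
      ← integral_neg, ← integral_const_mul]
    congr 1
    ext x
    rw [(sinph_fderiv l x).fderiv]
    simp [phL_apply]
    ring
  have hCS : ph l e ^ 2 ≤ 1 + ∑ i, (l i : ℝ) ^ 2 := by
    have h1 : ph l e ^ 2 ≤ (∑ i, (l i : ℝ) ^ 2) * ∑ i, e i ^ 2 :=
      Finset.sum_mul_sq_le_sq_mul_sq _ _ _
    have h2 : 0 ≤ ∑ i, (l i : ℝ) ^ 2 := Finset.sum_nonneg fun i _ => sq_nonneg _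
    nlinarith
  rw [c1, c2]
  set A := ∫ x in Dom, ψ x * Real.sin (ph l x)
  set B := ∫ x in Dom, ψ x * Real.cos (ph l x)
  have hw := wt_pos l
  rw [inv_mul_le_iff₀ hw]
  have : (ph l e * A) ^ 2 + (-(ph l e) * B) ^ 2 = ph l e ^ 2 * (B ^ 2 + A ^ 2) := by ring
  rw [this]
  gcongr

lemma Hm1.nonneg {M : ℝ} {f : V → ℝ} (h : Hm1 M f) : 0 ≤ M := by simpa using h ∅

lemma Hm1.const_mul {M : ℝ} {f : V → ℝ} (k : ℝ) (h : Hm1 M f) :
    Hm1 (k ^ 2 * M) (fun x => k * f x) := by
  intro S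
  calc _ = k ^ 2 * ∑ l ∈ S, (1 + ∑ i, (l i : ℝ) ^ 2)⁻¹ *
      ((∫ x in Dom, f x * Real.cos (ph l x)) ^ 2 + (∫ x in Dom, f x * Real.sin (ph l x)) ^ 2) := by
        rw [Finset.mul_sum]
        refine Finset.sum_congr rfl fun l _ => ?_
        simp only [mul_assoc]
        rw [integral_const_mul, integral_const_mul]
        ring
    _ ≤ k ^ 2 * M := by gcongr; exact h S

lemma Hm1.sum {ι : Type*} [Fintype ι] {M : ι → ℝ} {f : ι → V → ℝ} (h : ∀ j, Hm1 (M j) (f j))
    (hp : ∀ j, Periodic3 (f j)) (hc : ∀ j, Continuous (f j)) :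
    Hm1 (Fintype.card ι * ∑ j, M j) (fun x => ∑ j, f j x) := by
  intro S
  have e1 : ∀ l, ∫ x in Dom, (∑ j, f j x) * Real.cos (ph l x)
      = ∑ j, ∫ x in Dom, f j x * Real.cos (ph l x) := by
    intro l
    simp only [Finset.sum_mul]
    exact integral_finsetSum _ fun j _ => int_cos (hp j) (hc j) l
  have e2 : ∀ l, ∫ x in Dom, (∑ j, f j x) * Real.sin (ph l x)
      = ∑ j, ∫ x in Dom, f j x * Real.sin (ph l x) := by
    intro l
    simp only [Finset.sum_mul]
    exact integral_finsetSum _ fun j _ => int_sin (hp j) (hc j) l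
  have e3 : ∀ g : ι → ℝ, (∑ j, g j) ^ 2 ≤ Fintype.card ι * ∑ j, g j ^ 2 := by
    intro g
    have := sq_sum_le_card_mul_sum_sq (s := (Finset.univ : Finset ι)) (f := g)
    simpa using this
  calc _ ≤ ∑ l ∈ S, (1 + ∑ i, (l i : ℝ) ^ 2)⁻¹ *
      ((Fintype.card ι * ∑ j, (∫ x in Dom, f j x * Real.cos (ph l x)) ^ 2)
        + Fintype.card ι * ∑ j, (∫ x in Dom, f j x * Real.sin (ph l x)) ^ 2) := by
        refine Finset.sum_le_sum fun l _ => ?_
        have := wt_pos l
        rw [e1, e2]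
        gcongr
        · exact e3 _
        · exact e3 _
    _ = Fintype.card ι * ∑ j, ∑ l ∈ S, (1 + ∑ i, (l i : ℝ) ^ 2)⁻¹ *
      ((∫ x in Dom, f j x * Real.cos (ph l x)) ^ 2
        + (∫ x in Dom, f j x * Real.sin (ph l x)) ^ 2) := by
        rw [Finset.sum_comm, Finset.mul_sum]
        refine Finset.sum_congr rfl fun l _ => ?_
        rw [← Finset.mul_sum, Finset.sum_add_distrib]
        ring
    _ ≤ _ := by
        gcongr with j _
        exact h j S

lemma Hm1.add {M M' : ℝ} {f g : V → ℝ} (hf : Hm1 M f) (hg : Hm1 M' g)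
    (pf : Periodic3 f) (pg : Periodic3 g) (cf : Continuous f) (cg : Continuous g) :
    Hm1 (2 * (M + M')) (fun x => f x + g x) := by
  have := Hm1.sum (ι := Fin 2) (M := ![M, M']) (f := ![f, g])
    (by intro j; fin_cases j <;> simpa) (by intro j; fin_cases j <;> simpa)
    (by intro j; fin_cases j <;> simpa)
  simpa using this

lemma Hm1.mono {M M' : ℝ} {f : V → ℝ} (hf : Hm1 M f) (h : M ≤ M') : Hm1 M' f :=
  fun S => (hf S).trans h

/-- the potential of the transported part of the axial velocity -/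
noncomputable def kX (d : ℝ) (y : V) : ℝ := 1 / 2 * prim d (pA (d / 2)) (rad y)

section

variable {d : ℝ} (hd : 0 < d)

include hd

lemma kX_ht : HT d (kX d) := by
  refine ⟨fun y z h0 h1 => ?_, fun y hy => ?_⟩
  · unfold kX rad; rw [h0, h1]
  · unfold kX; rw [(pA_rp' hd).prim.van _ hy, mul_zero]

lemma kX_smooth : ContDiff ℝ ∞ (kX d) :=
  contDiff_const.mul ((pA_rp' hd).prim.smooth.comp rad_contDiff)

lemma kX_hd (y : V) : HD (kX d) (pA (d / 2) (rad y) * y 0) (pA (d / 2) (rad y) * y 1) y := by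
  refine ((HD.comp (prim_hasDerivAt (pA_rp' hd) (rad y)) (HD.rad y)).const_mul
    (1 / 2)).congr ?_ ?_ <;> ring

end

/-- functions in a thin tube are bounded -/
lemma ht_bounded {d : ℝ} {h : V → ℝ} (hh : HT d h) (hc : Continuous h) :
    ∃ C : ℝ, 0 ≤ C ∧ ∀ y, |h y| ≤ C := by
  have hK : IsCompact (Icc (fun _ : Fin 3 => -(1 + |d|)) (fun _ => 1 + |d|)) := isCompact_Icc
  obtain ⟨C, hC⟩ := hK.exists_bound_of_continuousOn hc.continuousOn
  have h0 : (0 : V) ∈ Icc (fun _ : Fin 3 => -(1 + |d|)) (fun _ => 1 + |d|) := by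
    have := abs_nonneg d
    constructor <;> intro i <;> simp <;> linarith
  have hC0 : 0 ≤ C := (norm_nonneg _).trans (hC 0 h0)
  refine ⟨C, hC0, fun y => ?_⟩
  rcases le_or_gt d (rad y) with h1 | h1
  · rw [hh.van y h1, abs_zero]; exact hC0
  · have e : h y = h ![y 0, y 1, 0] := hh.ind _ _ rfl rfl
    rw [e]
    refine hC _ ?_
    have h2 : ∀ r : ℝ, r ^ 2 ≤ d → |r| ≤ 1 + |d| := by
      intro r hr
      have h3 := le_abs_self d
      by_contra hcon
      push Not at hcon
      have h4 : (1 + |d|) ^ 2 < |r| ^ 2 := by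
        have : 0 ≤ 1 + |d| := by positivity
        nlinarith
      rw [sq_abs] at h4
      nlinarith [abs_nonneg d]
    have h3 : |y 0| ≤ 1 + |d| := h2 _ (by unfold rad at h1; nlinarith [sq_nonneg (y 1)])
    have h4 : |y 1| ≤ 1 + |d| := h2 _ (by unfold rad at h1; nlinarith [sq_nonneg (y 0)])
    rw [abs_le] at h3 h4
    constructor
    · intro i
      fin_cases i
      · exact h3.1
      · exact h4.1
      · show -(1 + |d|) ≤ (0 : ℝ)
        linarith [abs_nonneg d]
    · intro i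
      fin_cases i
      · exact h3.2
      · exact h4.2
      · show (0 : ℝ) ≤ 1 + |d|
        linarith [abs_nonneg d]

end Pool.Agent.Run7.h507.Sh
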