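import Pool.Agent.Run7.h507.Sh4

/-!
# Means of functions in a tube, and the low Fourier modes
-/

open MeasureTheory Set
open scoped Topology Pointwise ContDiff

set_option autoImplicit false

namespace Pool.Agent.Run7.h507.Sh

open Pool.Agent.H708R2.EulerSign Pool.Agent.H708R2.EulerModes Pool.Agent.R739.ET

/-- a function with vanishing means over segments in one direction has mean zero -/
lemma integral_zero_of_segments {f : V → ℝ} (hp : Periodic3 f) (hc : Continuous f) (v : V)
    (h : ∀ x, ∫ a in (-Real.pi)..Real.pi, f (x + a • v) = 0) : ∫ x in Dom, f x = 0 := by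
  have hpi := Real.pi_pos
  obtain ⟨C, -, hC⟩ := hp.bounded hc
  have hfin : IsFiniteMeasure (volume.restrict (Ioc (-Real.pi) Real.pi) : Measure ℝ) := by
    constructor
    rw [Measure.restrict_apply_univ]
    exact measure_Ioc_lt_top
  have hint : Integrable (Function.uncurry fun (a : ℝ) (x : V) => f (x + a • v))
      ((volume.restrict (Ioc (-Real.pi) Real.pi)).prod (volume.restrict Dom)) := by
    refine Integrable.of_bound (C := C) ?_ (Filter.Eventually.of_forall fun z => hC _)
    refine Continuous.aestronglyMeasurable ?_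
    have : Function.uncurry (fun (a : ℝ) (x : V) => f (x + a • v))
        = f ∘ (fun z : ℝ × V => z.2 + z.1 • v) := rfl
    rw [this]
    exact hc.comp (by fun_prop)
  have hswap := integral_integral_swap hint
  have h1 : ∀ a : ℝ, ∫ x in Dom, f (x + a • v) = ∫ x in Dom, f x := fun a =>
    integral_translate hp (a • v)
  have h2 : ∀ x : V, ∫ a in Ioc (-Real.pi) Real.pi, f (x + a • v) = 0 := by
    intro x
    rw [← intervalIntegral.integral_of_le (by linarith)]
    exact h x
  simp only [h1, h2, integral_zero, setIntegral_const, smul_eq_mul, Measure.real,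
    Real.volume_Ioc] at hswap
  have h3 : 0 < (ENNReal.ofReal (Real.pi - -Real.pi)).toReal := by
    rw [ENNReal.toReal_ofReal (by linarith)]
    linarith
  exact (mul_eq_zero.1 hswap).resolve_left h3.ne'

lemma wr_self {a : ℝ} (ha : a ∈ Ioc (-Real.pi) Real.pi) : wr a = a :=
  wr_eq ha ⟨0, by simp⟩

lemma integral_wr {k : ℝ → ℝ} (hodd : ∀ r, k (-r) = -k r) (c : ℝ) :
    ∫ a in (-Real.pi)..Real.pi, k (wr (c + a)) = 0 := by
  have hpi := Real.pi_pos
  have e1 : ∫ a in (-Real.pi)..Real.pi, k (wr (c + a))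
      = ∫ a in (c + -Real.pi)..(c + Real.pi), k (wr a) :=
    intervalIntegral.integral_comp_add_left (fun a => k (wr a)) c
  have hper : Function.Periodic (fun a => k (wr a)) (2 * Real.pi) := by
    intro a
    simp only [wr_add]
  have e2 := hper.intervalIntegral_add_eq (c + -Real.pi) (-Real.pi)
  have e3 : c + -Real.pi + 2 * Real.pi = c + Real.pi := by ring
  have e4 : -Real.pi + 2 * Real.pi = Real.pi := by ring
  rw [e3, e4] at e2
  have e5 : ∫ a in (-Real.pi)..Real.pi, k (wr a) = ∫ a in (-Real.pi)..Real.pi, k a := by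
    rw [intervalIntegral.integral_of_le (by linarith), intervalIntegral.integral_of_le (by linarith)]
    refine setIntegral_congr_fun measurableSet_Ioc fun a ha => ?_
    show k (wr a) = k a
    rw [wr_self ha]
  have e6 : ∫ a in (-Real.pi)..Real.pi, k a = -∫ a in (-Real.pi)..Real.pi, k a := by
    have := intervalIntegral.integral_comp_neg (a := -Real.pi) (b := Real.pi) k
    rw [neg_neg] at this
    calc ∫ a in (-Real.pi)..Real.pi, k a = ∫ a in (-Real.pi)..Real.pi, k (-a) := this.symm
      _ = ∫ a in (-Real.pi)..Real.pi, -k a := by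
        congr 1
        ext a
        exact hodd a
      _ = -∫ a in (-Real.pi)..Real.pi, k a := intervalIntegral.integral_neg
  rw [e1, e2, e5]
  linarith

section means

variable {F : Frame} {d : ℝ} (hth : F.Thin d) (s t : ℝ)

lemma ph_m_unit : ph F.m ((F.la * F.la)⁻¹ • rv F.m) = 1 := by
  rw [ph_smul]
  have := F.la_pos
  have e : ph F.m (rv F.m) = F.la * F.la := (len_mul_len (k := F.m)).symm
  rw [e]
  field_simp

lemma ph_n_unit : ph F.n ((F.lb * F.lb)⁻¹ • rv F.n) = 1 := by
  rw [ph_smul]
  have := F.lb_pos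
  have e : ph F.n (rv F.n) = F.lb * F.lb := (len_mul_len (k := F.n)).symm
  rw [e]
  field_simp

lemma yc_shift_m (x : V) (a : ℝ) : F.yc s t (x + a • ((F.la * F.la)⁻¹ • rv F.m))
    = ![wr (ph F.m x - s + a) / F.la, wr (ph F.n x - t) / F.lb, 0] := by
  unfold Frame.yc
  rw [ph_add, ph_smul, ph_m_unit, ph_add, ph_smul, ph_smul, F.nm]
  have e1 : ph F.m x + a * 1 - s = ph F.m x - s + a := by ring
  have e2 : ph F.n x + a * ((F.la * F.la)⁻¹ * 0) - t = ph F.n x - t := by ring
  rw [e1, e2]

lemma yc_shift_n (x : V) (a : ℝ) : F.yc s t (x + a • ((F.lb * F.lb)⁻¹ • rv F.n))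
    = ![wr (ph F.m x - s) / F.la, wr (ph F.n x - t + a) / F.lb, 0] := by
  unfold Frame.yc
  rw [ph_add, ph_smul, ph_smul, F.mn, ph_add, ph_smul, ph_n_unit]
  have e1 : ph F.n x + a * 1 - t = ph F.n x - t + a := by ring
  have e2 : ph F.m x + a * ((F.lb * F.lb)⁻¹ * 0) - s = ph F.m x - s := by ring
  rw [e1, e2]

variable {h : V → ℝ}

lemma periodic_yc (h : V → ℝ) : Periodic3 (fun x => h (F.yc s t x)) := by
  intro i x
  simp only
  rw [Frame.yc_periodic s t i x]

include hth in
lemma cont_yc (hc : ContDiff ℝ ∞ h) (hh : HT d h) : Continuous (fun x => h (F.yc s t x)) := by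
  have := (Frame.smooth_wrap hth hc hh s t 1).continuous
  simpa using this

include hth in
/-- functions which are odd in the first coordinate -/
lemma mean_odd0 (hc : ContDiff ℝ ∞ h) (hh : HT d h)
    (hodd : ∀ y z : V, z 0 = -y 0 → z 1 = y 1 → h z = -h y) :
    ∫ x in Dom, h (F.yc s t x) = 0 := by
  refine integral_zero_of_segments (periodic_yc s t h) (cont_yc hth s t hc hh)
    ((F.la * F.la)⁻¹ • rv F.m) fun x => ?_
  simp only [yc_shift_m]
  refine integral_wr (k := fun r => h ![r / F.la, wr (ph F.n x - t) / F.lb, 0]) ?_ _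
  intro r
  refine hodd _ _ ?_ rfl
  simp [neg_div]

include hth in
/-- functions which are odd in the second coordinate -/
lemma mean_odd1 (hc : ContDiff ℝ ∞ h) (hh : HT d h)
    (hodd : ∀ y z : V, z 0 = y 0 → z 1 = -y 1 → h z = -h y) :
    ∫ x in Dom, h (F.yc s t x) = 0 := by
  refine integral_zero_of_segments (periodic_yc s t h) (cont_yc hth s t hc hh)
    ((F.lb * F.lb)⁻¹ • rv F.n) fun x => ?_
  simp only [yc_shift_n]
  refine integral_wr (k := fun r => h ![wr (ph F.m x - s) / F.la, r / F.lb, 0]) ?_ _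
  intro r
  refine hodd _ _ rfl ?_
  simp [neg_div]

end means

/-- the mean over a period cell -/
noncomputable def mn (f : V → ℝ) : ℝ := (∫ x in Dom, f x) / (volume Dom).toReal

lemma mn_mul (f : V → ℝ) : mn f * (volume Dom).toReal = ∫ x in Dom, f x := by
  unfold mn
  have := vol_pos
  field_simp

section fine

variable {φ : V → ℝ} (hp : Periodic3 φ) (hc : Continuous φ) {N : ℕ} (hN : 0 < N)
  {m : Fin 3 → ℤ} (hm : ∀ i, |m i| < N)

include hp hc hN hm

lemma fine_cos : ∫ x in Dom, φ ((N : ℝ) • x) * Real.cos (ph m x)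
    = mn φ * ∫ x in Dom, Real.cos (ph m x) := by
  by_cases h0 : m = 0
  · subst h0
    simp only [ph_zero, Real.cos_zero, mul_one]
    rw [integral_dilate hp hc hN, setIntegral_const, smul_eq_mul, mul_one]
    exact (mn_mul φ).symm
  · obtain ⟨j, hj⟩ : ∃ j, m j ≠ 0 := by
      by_contra hcon
      push Not at hcon
      exact h0 (funext hcon)
    rw [cos_moment, if_neg h0, mul_zero]
    exact (integral_trig_eq_zero (periodic_resc hp N) (hc.comp (continuous_const_smul (N : ℝ))) hN
      (fun i x => fine_resc hp hN i x) hj (hm j)).1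

lemma fine_sin : ∫ x in Dom, φ ((N : ℝ) • x) * Real.sin (ph m x)
    = mn φ * ∫ x in Dom, Real.sin (ph m x) := by
  rw [sin_moment, mul_zero]
  by_cases h0 : m = 0
  · subst h0
    simp [ph_zero]
  · obtain ⟨j, hj⟩ : ∃ j, m j ≠ 0 := by
      by_contra hcon
      push Not at hcon
      exact h0 (funext hcon)
    exact (integral_trig_eq_zero (periodic_resc hp N) (hc.comp (continuous_const_smul (N : ℝ))) hN
      (fun i x => fine_resc hp hN i x) hj (hm j)).2

end fine

/-- the integral against `φ (N x)` can be replaced by the integral times the mean of `φ`, for the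
product of `T` with the fine function -/
def Sees (N : ℕ) (T : V → ℝ) : Prop :=
  ∀ φ : V → ℝ, Periodic3 φ → Continuous φ →
    IntegrableOn (fun x => φ ((N : ℝ) • x) * T x) Dom ∧
    ∫ x in Dom, φ ((N : ℝ) • x) * T x = mn φ * ∫ x in Dom, T x

lemma Sees.cos {N : ℕ} (hN : 0 < N) {m : Fin 3 → ℤ} (hm : ∀ i, |m i| < N) :
    Sees N (fun x => Real.cos (ph m x)) := fun _ hp hc =>
  ⟨int_cos (periodic_resc hp N) (hc.comp (continuous_const_smul (N : ℝ))) m,
    fine_cos hp hc hN hm⟩

lemma Sees.sin {N : ℕ} (hN : 0 < N) {m : Fin 3 → ℤ} (hm : ∀ i, |m i| < N) :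
    Sees N (fun x => Real.sin (ph m x)) := fun _ hp hc =>
  ⟨int_sin (periodic_resc hp N) (hc.comp (continuous_const_smul (N : ℝ))) m,
    fine_sin hp hc hN hm⟩

lemma Sees.lin {N : ℕ} {T T' : V → ℝ} (h : Sees N T) (h' : Sees N T') (a b : ℝ)
    (i : IntegrableOn T Dom) (i' : IntegrableOn T' Dom) :
    Sees N (fun x => a * T x + b * T' x) := by
  intro φ hp hc
  obtain ⟨j, e⟩ := h φ hp hc
  obtain ⟨j', e'⟩ := h' φ hp hc
  have q : (fun x => φ ((N : ℝ) • x) * (a * T x + b * T' x))
      = fun x => a * (φ ((N : ℝ) • x) * T x) + b * (φ ((N : ℝ) • x) * T' x) := by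
    ext x; ring
  rw [q]
  refine ⟨(j.const_mul a).add (j'.const_mul b), ?_⟩
  rw [integral_add (j.const_mul a) (j'.const_mul b), integral_const_mul, integral_const_mul, e, e',
    integral_add (i.const_mul a) (i'.const_mul b), integral_const_mul, integral_const_mul]
  ring

section

variable {N K : ℕ} {k l : Fin 3 → ℤ}

lemma bound_sub (hk : ∀ i, |k i| ≤ K) (hl : ∀ i, |l i| + K < N) : ∀ i, |(k - l) i| < N := by
  intro i
  have := abs_sub (k i) (l i)
  have h1 := hk i
  have h2 := hl i
  simp only [Pi.sub_apply]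
  omega

lemma bound_add (hk : ∀ i, |k i| ≤ K) (hl : ∀ i, |l i| + K < N) : ∀ i, |(k + l) i| < N := by
  intro i
  have := abs_add_le (k i) (l i)
  have h1 := hk i
  have h2 := hl i
  simp only [Pi.add_apply]
  omega

lemma Sees.cc (hN : 0 < N) (hk : ∀ i, |k i| ≤ K) (hl : ∀ i, |l i| + K < N) :
    Sees N (fun x => Real.cos (ph k x) * Real.cos (ph l x)) := by
  have := (Sees.cos hN (bound_sub hk hl)).lin (Sees.cos hN (bound_add hk hl)) (1 / 2) (1 / 2)
    (integrable_cos _) (integrable_cos _)
  convert this using 2 with x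
  rw [ph_sub_left, ph_add_left, Real.cos_sub, Real.cos_add]; ring

lemma Sees.sc (hN : 0 < N) (hk : ∀ i, |k i| ≤ K) (hl : ∀ i, |l i| + K < N) :
    Sees N (fun x => Real.sin (ph k x) * Real.cos (ph l x)) := by
  have := (Sees.sin hN (bound_sub hk hl)).lin (Sees.sin hN (bound_add hk hl)) (1 / 2) (1 / 2)
    (integrable_sin _) (integrable_sin _)
  convert this using 2 with x
  rw [ph_sub_left, ph_add_left, Real.sin_sub, Real.sin_add]; ring

lemma Sees.cs (hN : 0 < N) (hk : ∀ i, |k i| ≤ K) (hl : ∀ i, |l i| + K < N) :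
    Sees N (fun x => Real.cos (ph k x) * Real.sin (ph l x)) := by
  have := (Sees.sin hN (bound_add hk hl)).lin (Sees.sin hN (bound_sub hk hl)) (1 / 2) (-(1 / 2))
    (integrable_sin _) (integrable_sin _)
  convert this using 2 with x
  rw [ph_sub_left, ph_add_left, Real.sin_sub, Real.sin_add]; ring

lemma Sees.ss (hN : 0 < N) (hk : ∀ i, |k i| ≤ K) (hl : ∀ i, |l i| + K < N) :
    Sees N (fun x => Real.sin (ph k x) * Real.sin (ph l x)) := by
  have := (Sees.cos hN (bound_sub hk hl)).lin (Sees.cos hN (bound_add hk hl)) (1 / 2) (-(1 / 2))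
    (integrable_cos _) (integrable_cos _)
  convert this using 2 with x
  rw [ph_sub_left, ph_add_left, Real.cos_sub, Real.cos_add]; ring

lemma int_trig (k l : Fin 3 → ℤ) : IntegrableOn (fun x => Real.cos (ph k x) * Real.cos (ph l x)) Dom ∧
    IntegrableOn (fun x => Real.sin (ph k x) * Real.cos (ph l x)) Dom ∧
    IntegrableOn (fun x => Real.cos (ph k x) * Real.sin (ph l x)) Dom ∧
    IntegrableOn (fun x => Real.sin (ph k x) * Real.sin (ph l x)) Dom :=
  ⟨int_cos (cos_periodic k) (cosph_contDiff k).continuous l,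
   int_cos (sin_periodic k) (sinph_contDiff k).continuous l,
   int_sin (cos_periodic k) (cosph_contDiff k).continuous l,
   int_sin (sin_periodic k) (sinph_contDiff k).continuous l⟩

/-- slow factors times test functions -/
lemma Sees.g0c (hN : 0 < N) (hk : ∀ i, |k i| ≤ K) (hl : ∀ i, |l i| + K < N) (α β : ℝ) :
    Sees N (fun x => g0 α β (ph k x) * Real.cos (ph l x)) := by
  have := (Sees.cc hN hk hl).lin (Sees.sc hN hk hl) α β (int_trig k l).1 (int_trig k l).2.1
  convert this using 2 with x
  unfold g0; ring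

lemma Sees.g0s (hN : 0 < N) (hk : ∀ i, |k i| ≤ K) (hl : ∀ i, |l i| + K < N) (α β : ℝ) :
    Sees N (fun x => g0 α β (ph k x) * Real.sin (ph l x)) := by
  have := (Sees.cs hN hk hl).lin (Sees.ss hN hk hl) α β (int_trig k l).2.2.1 (int_trig k l).2.2.2
  convert this using 2 with x
  unfold g0; ring

lemma Sees.g1c (hN : 0 < N) (hk : ∀ i, |k i| ≤ K) (hl : ∀ i, |l i| + K < N) (α β : ℝ) :
    Sees N (fun x => g1 α β (ph k x) * Real.cos (ph l x)) := by
  have := (Sees.cc hN hk hl).lin (Sees.sc hN hk hl) β (-α) (int_trig k l).1 (int_trig k l).2.1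
  convert this using 2 with x
  unfold g1; ring

lemma Sees.g1s (hN : 0 < N) (hk : ∀ i, |k i| ≤ K) (hl : ∀ i, |l i| + K < N) (α β : ℝ) :
    Sees N (fun x => g1 α β (ph k x) * Real.sin (ph l x)) := by
  have := (Sees.cs hN hk hl).lin (Sees.ss hN hk hl) β (-α) (int_trig k l).2.2.1 (int_trig k l).2.2.2
  convert this using 2 with x
  unfold g1; ring

end

end Pool.Agent.Run7.h507.Sh
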