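import Pool.Agent.Run7.h507.Sh5

/-!
# The low modes of the flow in one family of tubes
-/

open MeasureTheory Set
open scoped Topology Pointwise ContDiff

set_option autoImplicit false
set_option linter.unusedSectionVars false

namespace Pool.Agent.Run7.h507.Sh

open Pool.Agent.H708R2.EulerSign Pool.Agent.H708R2.EulerModes Pool.Agent.R739.ET

noncomputable def pr0 (d : ℝ) (y : V) : ℝ := y 0 * pA (d / 2) (rad y)
noncomputable def pr1 (d : ℝ) (y : V) : ℝ := y 1 * pA (d / 2) (rad y)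
noncomputable def s0 (ν d : ℝ) (y : V) : ℝ := Real.sin (ν * y 0) * pr0 d y
noncomputable def s1 (ν d : ℝ) (y : V) : ℝ := Real.sin (ν * y 0) * pr1 d y
noncomputable def c0 (ν d : ℝ) (y : V) : ℝ := Real.cos (ν * y 0) * pr0 d y
noncomputable def c1 (ν d : ℝ) (y : V) : ℝ := Real.cos (ν * y 0) * pr1 d y
noncomputable def q0 (d : ℝ) (y : V) : ℝ := y 0 * pr0 d y

lemma hs_split (ν d Ω t : ℝ) (y : V) :
    hs ν d Ω t y = Real.cos (Ω * t) * s0 ν d y + Real.sin (Ω * t) * s1 ν d y := by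
  unfold hs gq s0 s1 pr0 pr1; ring

lemma hc_split (ν d Ω t : ℝ) (y : V) :
    hc ν d Ω t y = Real.cos (Ω * t) * c0 ν d y + Real.sin (Ω * t) * c1 ν d y := by
  unfold hc gq c0 c1 pr0 pr1; ring

section

variable {d : ℝ} (hd : 0 < d)

include hd

lemma pr0_ht : HT d (pr0 d) := by
  refine ⟨fun y z h0 h1 => ?_, fun y hy => ?_⟩
  · unfold pr0 rad; rw [h0, h1]
  · unfold pr0; rw [(pA_rp' hd).van _ hy, mul_zero]

lemma pr1_ht : HT d (pr1 d) := by
  refine ⟨fun y z h0 h1 => ?_, fun y hy => ?_⟩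
  · unfold pr1 rad; rw [h0, h1]
  · unfold pr1; rw [(pA_rp' hd).van _ hy, mul_zero]

lemma pr0_smooth : ContDiff ℝ ∞ (pr0 d) := (contDiff_apply ℝ ℝ (0 : Fin 3)).mul (kr_smooth hd)
lemma pr1_smooth : ContDiff ℝ ∞ (pr1 d) := (contDiff_apply ℝ ℝ (1 : Fin 3)).mul (kr_smooth hd)

omit hd in
lemma trig_smooth (ν : ℝ) : ContDiff ℝ ∞ (fun y : V => Real.sin (ν * y 0)) ∧
    ContDiff ℝ ∞ (fun y : V => Real.cos (ν * y 0)) :=
  ⟨Real.contDiff_sin.comp (contDiff_const.mul (contDiff_apply ℝ ℝ (0 : Fin 3))),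
   Real.contDiff_cos.comp (contDiff_const.mul (contDiff_apply ℝ ℝ (0 : Fin 3)))⟩

omit hd in
lemma HT.mul0 {h : V → ℝ} (hh : HT d h) (f : ℝ → ℝ) : HT d (fun y => f (y 0) * h y) :=
  ⟨fun y z h0 h1 => by rw [h0, hh.ind y z h0 h1], fun y hy => by rw [hh.van y hy, mul_zero]⟩

lemma s0_ht (ν : ℝ) : HT d (s0 ν d) := HT.mul0 (pr0_ht hd) (fun r => Real.sin (ν * r))
lemma s1_ht (ν : ℝ) : HT d (s1 ν d) := HT.mul0 (pr1_ht hd) (fun r => Real.sin (ν * r))
lemma c0_ht (ν : ℝ) : HT d (c0 ν d) := HT.mul0 (pr0_ht hd) (fun r => Real.cos (ν * r))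
lemma c1_ht (ν : ℝ) : HT d (c1 ν d) := HT.mul0 (pr1_ht hd) (fun r => Real.cos (ν * r))
lemma q0_ht : HT d (q0 d) := HT.mul0 (pr0_ht hd) (fun r => r)

lemma s0_smooth (ν : ℝ) : ContDiff ℝ ∞ (s0 ν d) := (trig_smooth ν).1.mul (pr0_smooth hd)
lemma s1_smooth (ν : ℝ) : ContDiff ℝ ∞ (s1 ν d) := (trig_smooth ν).1.mul (pr1_smooth hd)
lemma c0_smooth (ν : ℝ) : ContDiff ℝ ∞ (c0 ν d) := (trig_smooth ν).2.mul (pr0_smooth hd)
lemma c1_smooth (ν : ℝ) : ContDiff ℝ ∞ (c1 ν d) := (trig_smooth ν).2.mul (pr1_smooth hd)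
lemma q0_smooth : ContDiff ℝ ∞ (q0 d) := (contDiff_apply ℝ ℝ (0 : Fin 3)).mul (pr0_smooth hd)

variable {F : Frame} (hth : F.Thin d) (s t : ℝ)

include hth

lemma mean_k0 : mn (fun x => k0 d (F.yc s t x)) = 0 := by
  unfold mn
  rw [mean_odd0 hth s t (k0_smooth hd) (k0_ht hd), zero_div]
  intro y z h0 h1
  unfold k0 rad; rw [h0, h1]; ring_nf

lemma mean_k1 : mn (fun x => k1 d (F.yc s t x)) = 0 := by
  unfold mn
  rw [mean_odd1 hth s t (k1_smooth hd) (k1_ht hd), zero_div]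
  intro y z h0 h1
  unfold k1 rad; rw [h0, h1]; ring_nf

lemma mean_c0 (ν : ℝ) : ∫ x in Dom, c0 ν d (F.yc s t x) = 0 := by
  refine mean_odd0 hth s t (c0_smooth hd ν) (c0_ht hd ν) ?_
  intro y z h0 h1
  unfold c0 pr0 rad
  rw [h0, h1, mul_neg, Real.cos_neg]
  ring_nf

lemma mean_c1 (ν : ℝ) : ∫ x in Dom, c1 ν d (F.yc s t x) = 0 := by
  refine mean_odd1 hth s t (c1_smooth hd ν) (c1_ht hd ν) ?_
  intro y z h0 h1
  unfold c1 pr1 rad
  rw [h0, h1]
  ring_nf

lemma mean_s1 (ν : ℝ) : ∫ x in Dom, s1 ν d (F.yc s t x) = 0 := by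
  refine mean_odd1 hth s t (s1_smooth hd ν) (s1_ht hd ν) ?_
  intro y z h0 h1
  unfold s1 pr1 rad
  rw [h0, h1]
  ring_nf

lemma int_yc {h : V → ℝ} (hc : ContDiff ℝ ∞ h) (hh : HT d h) :
    IntegrableOn (fun x => h (F.yc s t x)) Dom :=
  (periodic_yc s t h).integrableOn (cont_yc hth s t hc hh)

lemma mean_hc (ν Ω r : ℝ) : mn (fun x => hc ν d Ω r (F.yc s t x)) = 0 := by
  unfold mn
  simp only [hc_split]
  rw [integral_add ((int_yc hd hth s t (c0_smooth hd ν) (c0_ht hd ν)).const_mul _)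
    ((int_yc hd hth s t (c1_smooth hd ν) (c1_ht hd ν)).const_mul _), integral_const_mul,
    integral_const_mul, mean_c0 hd hth, mean_c1 hd hth]
  simp

lemma mean_hs (ν Ω r : ℝ) : mn (fun x => hs ν d Ω r (F.yc s t x))
    = Real.cos (Ω * r) * mn (fun x => s0 ν d (F.yc s t x)) := by
  unfold mn
  simp only [hs_split]
  rw [integral_add ((int_yc hd hth s t (s0_smooth hd ν) (s0_ht hd ν)).const_mul _)
    ((int_yc hd hth s t (s1_smooth hd ν) (s1_ht hd ν)).const_mul _), integral_const_mul,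
    integral_const_mul, mean_s1 hd hth]
  ring

omit hd hth in
/-- points with given coordinates -/
lemma exists_point (F : Frame) (a c : ℝ) : ∃ x : V, ph F.m x = a ∧ ph F.n x = c := by
  refine ⟨a • ((F.la * F.la)⁻¹ • rv F.m) + c • ((F.lb * F.lb)⁻¹ • rv F.n), ?_, ?_⟩
  · rw [ph_add, ph_smul, ph_m_unit, ph_smul, ph_smul, F.mn]; ring
  · rw [ph_add, ph_smul, ph_smul, F.nm, ph_smul, ph_n_unit]; ring

omit hd in
lemma exists_yc {a : ℝ} (ha : a ^ 2 < d) : ∃ x : V, F.yc s t x = ![a, 0, 0] := by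
  obtain ⟨x, hx1, hx2⟩ := exists_point F (s + a * F.la) t
  refine ⟨x, ?_⟩
  unfold Frame.yc
  have hpi := Real.pi_gt_three
  have hla := F.la_pos
  have h1 : |a * F.la| < 1 := by
    have h2 : (a * F.la) ^ 2 < 1 := by
      have := hth.a
      nlinarith [mul_pos hla hla]
    exact (sq_lt_one_iff_abs_lt_one _).1 h2
  rw [abs_lt] at h1
  have e1 : ph F.m x - s = a * F.la := by rw [hx1]; ring
  have e2 : ph F.n x - t = 0 := by rw [hx2]; ring
  rw [e1, e2, wr_self ⟨by linarith, by linarith⟩, wr_self ⟨by linarith, by linarith⟩]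
  have e3 : a * F.la / F.la = a := by field_simp
  rw [e3, zero_div]

lemma mean_pos {h : V → ℝ} (hc : ContDiff ℝ ∞ h) (hh : HT d h) (h0 : ∀ y, 0 ≤ h y)
    {a : ℝ} (ha : a ^ 2 < d) (hne : h ![a, 0, 0] ≠ 0) : 0 < mn (fun x => h (F.yc s t x)) := by
  unfold mn
  refine div_pos ?_ vol_pos
  refine lt_of_le_of_ne (integral_nonneg fun x => h0 _) fun h1 => ?_
  obtain ⟨x, hx⟩ := exists_yc hth s t ha
  have := eq_zero_of_integral_eq_zero (periodic_yc s t h) (cont_yc hth s t hc hh)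
    (fun x => h0 _) h1.symm x
  rw [hx] at this
  exact hne this

lemma mean_kr_pos : 0 < mn (fun x => kr d (F.yc s t x)) := by
  refine mean_pos hd hth s t (kr_smooth hd) (kr_ht hd) (fun y => ?_) (a := 0) (by simpa) ?_
  · exact expNegInvGlue.nonneg _
  · unfold kr rad
    refine (pA_pos ?_).ne'
    simp
    linarith

lemma mean_q0_pos : 0 < mn (fun x => q0 d (F.yc s t x)) := by
  refine mean_pos hd hth s t (q0_smooth hd) (q0_ht hd) (fun y => ?_)
    (a := Real.sqrt (d / 4)) ?_ ?_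
  · unfold q0 pr0
    have : 0 ≤ pA (d / 2) (rad y) := expNegInvGlue.nonneg _
    nlinarith [mul_self_nonneg (y 0)]
  · rw [Real.sq_sqrt (by linarith)]; linarith
  · unfold q0 pr0 rad
    have h1 : Real.sqrt (d / 4) ≠ 0 := (Real.sqrt_pos.2 (by linarith)).ne'
    have h2 : pA (d / 2) (Real.sqrt (d / 4) ^ 2 + 0 ^ 2) ≠ 0 := by
      refine (pA_pos ?_).ne'
      rw [Real.sq_sqrt (by linarith)]
      linarith
    simp only [Matrix.cons_val_zero, Matrix.cons_val_one]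
    exact mul_ne_zero h1 (mul_ne_zero h1 h2)

/-- the lower bound of the mean of `s0` -/
lemma mean_s0_ge {ν : ℝ} (hν : 0 ≤ ν) (hν2 : ν ≤ F.la) :
    2 / Real.pi * ν * mn (fun x => q0 d (F.yc s t x)) ≤ mn (fun x => s0 ν d (F.yc s t x)) := by
  unfold mn
  have hv := vol_pos
  rw [mul_div_assoc', div_le_div_iff_of_pos_right hv, ← integral_const_mul]
  refine setIntegral_mono ((int_yc hd hth s t (q0_smooth hd) (q0_ht hd)).const_mul _)
    (int_yc hd hth s t (s0_smooth hd ν) (s0_ht hd ν)) fun x => ?_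
  simp only
  set y := F.yc s t x with hy
  have hA : 0 ≤ pA (d / 2) (rad y) := expNegInvGlue.nonneg _
  rcases le_or_gt d (rad y) with hr | hr
  · rw [(q0_ht hd).van y hr, (s0_ht hd ν).van y hr, mul_zero]
  · have hla := F.la_pos
    have hpi := Real.pi_gt_three
    have hy0 : (ν * y 0) ^ 2 ≤ 1 := by
      have h1 : y 0 ^ 2 ≤ d := by unfold rad at hr; nlinarith [sq_nonneg (y 1)]
      have h2 : ν ^ 2 ≤ F.la * F.la := by nlinarith
      have h3 := hth.a
      calc (ν * y 0) ^ 2 = ν ^ 2 * y 0 ^ 2 := by ring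
        _ ≤ (F.la * F.la) * d := by gcongr
        _ ≤ 1 := by linarith
    have habs : |ν * y 0| ≤ 1 := by
      rw [← sq_abs] at hy0
      nlinarith [abs_nonneg (ν * y 0)]
    have key : 2 / Real.pi * (ν * y 0) * y 0 ≤ Real.sin (ν * y 0) * y 0 := by
      rcases le_total 0 (y 0) with h | h
      · have h1 : 0 ≤ ν * y 0 := mul_nonneg hν h
        have h2 := Real.mul_le_sin h1 (by rw [abs_of_nonneg h1] at habs; linarith)
        nlinarith
      · have h1 : 0 ≤ -(ν * y 0) := by nlinarith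
        have h2 := Real.mul_le_sin h1 (by
          rw [abs_of_nonpos (by linarith)] at habs; linarith)
        rw [Real.sin_neg] at h2
        nlinarith
    unfold q0 s0 pr0
    nlinarith

/-- the normalisation of the transported part -/
noncomputable def cN (F : Frame) (d s t : ℝ) (N : ℕ) : ℝ :=
  (N * mn (fun x => s0 (F.la / N) d (F.yc s t x)))⁻¹

lemma cN_bound {N : ℕ} (hN : 0 < N) :
    0 < mn (fun x => s0 (F.la / N) d (F.yc s t x)) ∧ 0 < cN F d s t N ∧
    cN F d s t N ≤ (2 / Real.pi * F.la * mn (fun x => q0 d (F.yc s t x)))⁻¹ := by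
  have hla := F.la_pos
  have hNr : (0 : ℝ) < N := by exact_mod_cast hN
  have hN1 : (1 : ℝ) ≤ N := by exact_mod_cast hN
  have h1 := mean_s0_ge hd hth s t (ν := F.la / N) (by positivity)
    (div_le_self hla.le hN1)
  have h2 := mean_q0_pos hd hth s t
  have hpi := Real.pi_pos
  have h3 : 0 < mn (fun x => s0 (F.la / N) d (F.yc s t x)) :=
    lt_of_lt_of_le (by positivity) h1
  refine ⟨h3, by unfold cN; positivity, ?_⟩
  unfold cN
  refine inv_anti₀ (by positivity) ?_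
  calc 2 / Real.pi * F.la * mn (fun x => q0 d (F.yc s t x))
      = N * (2 / Real.pi * (F.la / N) * mn (fun x => q0 d (F.yc s t x))) := by
        field_simp
    _ ≤ _ := by gcongr

end

end Pool.Agent.Run7.h507.Sh
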