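import Pool.Agent.Run7.h507.Sh6

/-!
# The flow in one family of tubes: modes and bounds
-/

open MeasureTheory Set
open scoped Topology Pointwise ContDiff

set_option autoImplicit false
set_option linter.unusedSectionVars false

namespace Pool.Agent.Run7.h507.Sh

open Pool.Agent.H708R2.EulerSign Pool.Agent.H708R2.EulerModes Pool.Agent.R739.ET

/-- the direction of the first moment of the axial velocity -/
noncomputable def Frame.et (F : Frame) (φ : ℝ) : V :=
  Real.cos φ • (F.la⁻¹ • rv F.m) + Real.sin φ • (F.lb⁻¹ • rv F.n)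

lemma Frame.ph_m_et (F : Frame) (φ : ℝ) : ph F.m (F.et φ) = Real.cos φ * F.la := by
  unfold Frame.et
  simp only [ph_add, ph_smul, F.mn]
  have := F.la_pos
  have e : ph F.m (rv F.m) = F.la * F.la := (len_mul_len (k := F.m)).symm
  rw [e]
  field_simp
  ring

lemma Frame.ph_n_et (F : Frame) (φ : ℝ) : ph F.n (F.et φ) = Real.sin φ * F.lb := by
  unfold Frame.et
  simp only [ph_add, ph_smul, F.nm]
  have := F.lb_pos
  have e : ph F.n (rv F.n) = F.lb * F.lb := (len_mul_len (k := F.n)).symm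
  rw [e]
  field_simp
  ring

lemma Frame.et_sq (F : Frame) (φ : ℝ) : ∑ i, F.et φ i ^ 2 ≤ 1 := by
  have hla := F.la_pos
  have hlb := F.lb_pos
  have e1 : ∀ i, F.et φ i = Real.cos φ * (F.la⁻¹ * F.m i) + Real.sin φ * (F.lb⁻¹ * F.n i) := by
    intro i; simp [Frame.et, rv]
  have q1 : ∑ i, (F.m i : ℝ) * F.m i = F.la * F.la := (len_mul_len (k := F.m)).symm
  have q2 : ∑ i, (F.n i : ℝ) * F.n i = F.lb * F.lb := (len_mul_len (k := F.n)).symm
  have q3 : ∑ i, (F.m i : ℝ) * F.n i = 0 := F.mn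
  have e2 : ∑ i, F.et φ i ^ 2 = Real.cos φ ^ 2 * (F.la⁻¹ * F.la⁻¹) * (∑ i, (F.m i : ℝ) * F.m i)
      + Real.sin φ ^ 2 * (F.lb⁻¹ * F.lb⁻¹) * (∑ i, (F.n i : ℝ) * F.n i)
      + 2 * Real.cos φ * Real.sin φ * (F.la⁻¹ * F.lb⁻¹) * (∑ i, (F.m i : ℝ) * F.n i) := by
    simp only [Finset.mul_sum, ← Finset.sum_add_distrib, e1]
    refine Finset.sum_congr rfl fun i _ => ?_
    ring
  rw [e2, q1, q2, q3]
  have r1 : Real.cos φ ^ 2 * (F.la⁻¹ * F.la⁻¹) * (F.la * F.la) = Real.cos φ ^ 2 := by field_simp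
  have r2 : Real.sin φ ^ 2 * (F.lb⁻¹ * F.lb⁻¹) * (F.lb * F.lb) = Real.sin φ ^ 2 := by field_simp
  rw [r1, r2]
  have := Real.sin_sq_add_cos_sq φ
  linarith

namespace Blk

variable (b : Blk) (d c : ℝ) (N : ℕ)

/-- the potential -/
noncomputable def pot (x : V) : ℝ :=
  c * (g1 b.α b.β (ph b.F.m x) * (Real.cos (b.F.la / N * b.y N x 0) * kX d (b.y N x))
    + g0 b.α b.β (ph b.F.m x) * (Real.sin (b.F.la / N * b.y N x 0) * kX d (b.y N x)))

variable {b d} (hd : 0 < d) (hN : 0 < N) (hth : b.F.Thin d)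

include hd hN hth

lemma pot_smooth : ContDiff ℝ ∞ (b.pot d c N) := by
  have q2 : ContDiff ℝ ∞ (fun x : V => Real.cos (b.F.la / N * b.y N x 0) * kX d (b.y N x)) :=
    Frame.smooth_wrap hth (h := fun y => Real.cos (b.F.la / N * y 0) * kX d y)
      ((trig_smooth _).2.mul (kX_smooth hd)) (HT.mul0 (kX_ht hd) (fun r => Real.cos (b.F.la / N * r)))
      b.s b.r N
  have q3 : ContDiff ℝ ∞ (fun x : V => Real.sin (b.F.la / N * b.y N x 0) * kX d (b.y N x)) :=
    Frame.smooth_wrap hth (h := fun y => Real.sin (b.F.la / N * y 0) * kX d y)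
      ((trig_smooth _).1.mul (kX_smooth hd)) (HT.mul0 (kX_ht hd) (fun r => Real.sin (b.F.la / N * r)))
      b.s b.r N
  exact contDiff_const.mul ((((g1_contDiff b.α b.β).comp (ph_contDiff _)).mul q2).add
    (((g0_contDiff b.α b.β).comp (ph_contDiff _)).mul q3))

omit hd hN hth in
lemma pot_periodic : Periodic3 (b.pot d c N) := by
  intro i x
  have h1 := Frame.periodic_wrap (F := b.F) (fun y => y) b.s b.r N i x
  have h2 := cos_periodic b.F.m i x
  have h3 := sin_periodic b.F.m i x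
  simp only at h1 h2 h3
  simp only [pot, y, g0, g1]
  rw [h1, h2, h3]

lemma pot_fderiv (φ : ℝ) (x : V) : fderiv ℝ (b.pot d c N) x (b.F.et φ)
    = c * N * (g1 b.α b.β (ph b.F.m x) * (Real.cos (b.F.la / N * b.y N x 0) *
        (pA (d / 2) (rad (b.y N x)) * (b.y N x 0 * Real.cos φ + b.y N x 1 * Real.sin φ)))
      + g0 b.α b.β (ph b.F.m x) * (Real.sin (b.F.la / N * b.y N x 0) *
        (pA (d / 2) (rad (b.y N x)) * (b.y N x 0 * Real.cos φ + b.y N x 1 * Real.sin φ)))) := by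
  have hla := b.F.la_pos
  have hlb := b.F.lb_pos
  have hNr : (N : ℝ) ≠ 0 := by positivity
  have hthe : b.F.HX (ph b.F.m) 1 0 x := Frame.HX.theta x
  have w1 := Frame.HX.wrap hth b.s b.r (N : ℝ)
    (HT.mul0 (kX_ht hd) (fun r => Real.cos (b.F.la / N * r)))
    (((HD.comp (φ := Real.cos) (Real.hasDerivAt_cos (b.F.la / N * b.y N x 0))
      ((HD.x0 (b.y N x)).const_mul (b.F.la / N))).mul (kX_hd hd (b.y N x))))
  have w2 := Frame.HX.wrap hth b.s b.r (N : ℝ)
    (HT.mul0 (kX_ht hd) (fun r => Real.sin (b.F.la / N * r)))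
    (((HD.comp (φ := Real.sin) (Real.hasDerivAt_sin (b.F.la / N * b.y N x 0))
      ((HD.x0 (b.y N x)).const_mul (b.F.la / N))).mul (kX_hd hd (b.y N x))))
  have w := (((Frame.HX.comp (g1_hasDerivAt b.α b.β _) hthe).mul w1).add
    ((Frame.HX.comp (g0_hasDerivAt b.α b.β _) hthe).mul w2)).const_mul c
  have w' := Frame.HX.fderiv w (b.F.et φ)
  rw [Frame.ph_m_et, Frame.ph_n_et] at w'
  have e : fderiv ℝ (b.pot d c N) x (b.F.et φ) = _ := w'
  rw [e]
  simp only [y]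
  field_simp
  ring

lemma W_eq (t : ℝ) (x : V) : b.W d c N t x
    = b.a₀ * kr d (b.y N x) + fderiv ℝ (b.pot d c N) x (b.F.et (b.Ω * t)) := by
  rw [pot_fderiv c N hd hN hth]
  rfl

omit hd hN hth in
lemma U_zero {d : ℝ} (hd : 0 < d) {t : ℝ} {x : V} (h : d ≤ rad (b.y N x)) : b.U d c N t x = 0 := by
  unfold U Frame.vel S1 S2 W
  rw [(k1_ht hd).van _ h, (k0_ht hd).van _ h, (kr_ht hd).van _ h, (hc_ht hd _ _ _).van _ h,
    (hs_ht hd _ _ _).van _ h]
  simp

end Blk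

end Pool.Agent.Run7.h507.Sh
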