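import Pool.Agent.Run7.h507.Sh7

/-!
# The normalised flow in one family of tubes
-/

open MeasureTheory Set
open scoped Topology Pointwise ContDiff

set_option autoImplicit false
set_option linter.unusedSectionVars false

namespace Pool.Agent.Run7.h507.Sh

open Pool.Agent.H708R2.EulerSign Pool.Agent.H708R2.EulerModes Pool.Agent.R739.ET

lemma int2 {f g : V → ℝ} (hf : IntegrableOn f Dom) (hg : IntegrableOn g Dom) :
    ∫ x in Dom, (f x + g x) = (∫ x in Dom, f x) + ∫ x in Dom, g x := integral_add hf hg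

lemma int3 {f g h : V → ℝ} (hf : IntegrableOn f Dom) (hg : IntegrableOn g Dom)
    (hh : IntegrableOn h Dom) :
    ∫ x in Dom, (f x + g x + h x)
      = (∫ x in Dom, f x) + (∫ x in Dom, g x) + ∫ x in Dom, h x := by
  have hfg : IntegrableOn (fun x => f x + g x) Dom := hf.add hg
  rw [int2 hfg hh, int2 hf hg]

lemma gq_slice {d : ℝ} (hd : 0 < d) (Ω t : ℝ) : ContDiff ℝ ∞ (gq d Ω t) := by
  have h : ContDiff ℝ ∞ (fun y : V => y 0 * Real.cos (Ω * t) + y 1 * Real.sin (Ω * t)) :=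
    ((contDiff_apply ℝ ℝ (0 : Fin 3)).mul contDiff_const).add
      ((contDiff_apply ℝ ℝ (1 : Fin 3)).mul contDiff_const)
  exact (kr_smooth hd).mul h

lemma hc_slice {d : ℝ} (hd : 0 < d) (ν Ω t : ℝ) : ContDiff ℝ ∞ (hc ν d Ω t) :=
  (trig_smooth ν).2.mul (gq_slice hd Ω t)

lemma hs_slice {d : ℝ} (hd : 0 < d) (ν Ω t : ℝ) : ContDiff ℝ ∞ (hs ν d Ω t) :=
  (trig_smooth ν).1.mul (gq_slice hd Ω t)

namespace Blk

/-- normalisation of the mean -/
noncomputable def nrm (b : Blk) (d : ℝ) : Blk :=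
  { b with a₀ := b.a₀ / mn (fun x => kr d (b.F.yc b.s b.r x)) }

/-- the normalised flow -/
noncomputable def Vf (b : Blk) (d : ℝ) (N : ℕ) (t : ℝ) (x : V) : V :=
  (b.nrm d).U d (cN b.F d b.s b.r N) N t x

/-- its axial velocity seen at low frequencies -/
noncomputable def tgt (b : Blk) (t : ℝ) (x : V) : ℝ :=
  b.a₀ + Real.cos (b.Ω * t) * g0 b.α b.β (ph b.F.m x)

variable {b : Blk} {d : ℝ} {N : ℕ} (hd : 0 < d) (hN : 0 < N) (hth : b.F.Thin d)

lemma y_nrm (b : Blk) (d : ℝ) (N : ℕ) (x : V) : (b.nrm d).y N x = b.y N x := rfl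

include hd hN hth

lemma Vf_apply (t : ℝ) (x : V) (i : Fin 3) : b.Vf d N t x i
    = (b.nrm d).S1 d N x * (b.F.la⁻¹ * b.F.m i) + (b.nrm d).S2 d N x * (b.F.lb⁻¹ * b.F.n i)
      + (b.nrm d).W d (cN b.F d b.s b.r N) N t x * b.F.e i :=
  Frame.vel_apply _ _ _ _ _ _

lemma Vf_zero {t : ℝ} {x : V} (h : d ≤ rad (b.y N x)) : b.Vf d N t x = 0 :=
  U_zero (b := b.nrm d) _ _ hd h

lemma wrap_per (h : V → ℝ) : Periodic3 (fun x => h (b.y N x)) :=
  Frame.periodic_wrap h b.s b.r N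

lemma wrap_smooth {h : V → ℝ} (hc : ContDiff ℝ ∞ h) (hh : HT d h) :
    ContDiff ℝ ∞ (fun x => h (b.y N x)) :=
  Frame.smooth_wrap hth hc hh b.s b.r N

/-- the integrals of the axial velocity against slow test functions -/
lemma W_test {T : V → ℝ} (T0 : Sees N T)
    (T1 : Sees N (fun x => g1 b.α b.β (ph b.F.m x) * T x))
    (T2 : Sees N (fun x => g0 b.α b.β (ph b.F.m x) * T x)) (i0 : IntegrableOn T Dom)
    (i2 : IntegrableOn (fun x => g0 b.α b.β (ph b.F.m x) * T x) Dom) (t : ℝ) :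
    ∫ x in Dom, (b.nrm d).W d (cN b.F d b.s b.r N) N t x * T x
      = ∫ x in Dom, b.tgt t x * T x := by
  have hNr : (N : ℝ) ≠ 0 := by positivity
  set ν : ℝ := b.F.la / N with hν
  set c := cN b.F d b.s b.r N with hcc
  set Mr := mn (fun x => kr d (b.F.yc b.s b.r x)) with hMr
  set J := mn (fun x => s0 ν d (b.F.yc b.s b.r x)) with hJ
  have hMr0 : 0 < Mr := mean_kr_pos hd hth b.s b.r
  have hJ0 : 0 < J := (cN_bound hd hth b.s b.r hN).1
  have hcJ : c * N * J = 1 := by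
    have : c = (N * J)⁻¹ := rfl
    rw [this]
    field_simp
  obtain ⟨j0, e0⟩ := T0 _ (periodic_yc (F := b.F) b.s b.r (kr d))
    (cont_yc hth b.s b.r (kr_smooth hd) (kr_ht hd))
  have hcs := hc_slice hd ν b.Ω t
  have hss := hs_slice hd ν b.Ω t
  obtain ⟨j1, e1⟩ := T1 _ (periodic_yc (F := b.F) b.s b.r (hc ν d b.Ω t))
    (cont_yc hth b.s b.r hcs (hc_ht hd _ _ t))
  obtain ⟨j2, e2⟩ := T2 _ (periodic_yc (F := b.F) b.s b.r (hs ν d b.Ω t))
    (cont_yc hth b.s b.r hss (hs_ht hd _ _ t))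
  rw [mean_hc hd hth, zero_mul] at e1
  rw [mean_hs hd hth] at e2
  have lhs : ∀ x, (b.nrm d).W d c N t x * T x
      = (b.a₀ / Mr) * (kr d (b.F.yc b.s b.r ((N : ℝ) • x)) * T x)
        + c * N * (hc ν d b.Ω t (b.F.yc b.s b.r ((N : ℝ) • x)) * (g1 b.α b.β (ph b.F.m x) * T x))
        + c * N * (hs ν d b.Ω t (b.F.yc b.s b.r ((N : ℝ) • x))
          * (g0 b.α b.β (ph b.F.m x) * T x)) := by
    intro x
    simp only [W, nrm, y]
    ring
  have rhs : ∀ x, b.tgt t x * T x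
      = b.a₀ * T x + Real.cos (b.Ω * t) * (g0 b.α b.β (ph b.F.m x) * T x) := by
    intro x
    simp only [tgt]
    ring
  simp only [lhs, rhs]
  rw [int3 (j0.const_mul _) (j1.const_mul _) (j2.const_mul _), integral_const_mul,
    integral_const_mul, integral_const_mul, e0, e1, e2, int2 (i0.const_mul _) (i2.const_mul _),
    integral_const_mul, integral_const_mul]
  set I0 := ∫ x in Dom, T x
  set I2 := ∫ x in Dom, g0 b.α b.β (ph b.F.m x) * T x
  have h1 : b.a₀ / Mr * (Mr * I0) = b.a₀ * I0 := by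
    field_simp
  rw [h1]
  linear_combination (Real.cos (b.Ω * t) * I2) * hcJ

/-- the modes of the axial velocity -/
lemma W_modes {K : ℕ} (hK : ∀ i, |b.F.m i| ≤ K) {l : Fin 3 → ℤ} (hl : ∀ i, |l i| + K < N)
    (t : ℝ) :
    ∫ x in Dom, (b.nrm d).W d (cN b.F d b.s b.r N) N t x * Real.cos (ph l x)
      = ∫ x in Dom, b.tgt t x * Real.cos (ph l x) ∧
    ∫ x in Dom, (b.nrm d).W d (cN b.F d b.s b.r N) N t x * Real.sin (ph l x)
      = ∫ x in Dom, b.tgt t x * Real.sin (ph l x) := by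
  have hl' : ∀ i, |l i| < N := fun i => by have := hl i; omega
  have hgc : Continuous (fun x => g0 b.α b.β (ph b.F.m x)) :=
    (g0_contDiff _ _).continuous.comp (ph_contDiff _).continuous
  have hgp : Periodic3 (fun x => g0 b.α b.β (ph b.F.m x)) := by
    intro i x
    have h2 := cos_periodic b.F.m i x
    have h3 := sin_periodic b.F.m i x
    simp only at h2 h3
    simp only [g0]
    rw [h2, h3]
  exact ⟨W_test hd hN hth (Sees.cos hN hl') (Sees.g1c hN hK hl _ _) (Sees.g0c hN hK hl _ _)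
      (integrable_cos l) (int_cos hgp hgc l) t,
    W_test hd hN hth (Sees.sin hN hl') (Sees.g1s hN hK hl _ _) (Sees.g0s hN hK hl _ _)
      (integrable_sin l) (int_sin hgp hgc l) t⟩

/-- the swirl has no low modes -/
lemma S_modes {l : Fin 3 → ℤ} (hl : ∀ i, |l i| < N) :
    (∫ x in Dom, (b.nrm d).S1 d N x * Real.cos (ph l x) = 0 ∧
      ∫ x in Dom, (b.nrm d).S1 d N x * Real.sin (ph l x) = 0) ∧
    (∫ x in Dom, (b.nrm d).S2 d N x * Real.cos (ph l x) = 0 ∧
      ∫ x in Dom, (b.nrm d).S2 d N x * Real.sin (ph l x) = 0) := by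
  have p1 := periodic_yc (F := b.F) b.s b.r (k1 d)
  have p0 := periodic_yc (F := b.F) b.s b.r (k0 d)
  have q1 := cont_yc hth b.s b.r (k1_smooth hd) (k1_ht hd)
  have q0 := cont_yc hth b.s b.r (k0_smooth hd) (k0_ht hd)
  have m1 := mean_k1 hd hth b.s b.r
  have m0 := mean_k0 hd hth b.s b.r
  refine ⟨⟨?_, ?_⟩, ?_, ?_⟩
  · have := fine_cos p1 q1 hN hl
    rw [m1, zero_mul] at this
    simp only [S1, mul_assoc]
    rw [integral_const_mul]
    exact mul_eq_zero_of_right _ this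
  · have := fine_sin p1 q1 hN hl
    rw [m1, zero_mul] at this
    simp only [S1, mul_assoc]
    rw [integral_const_mul]
    exact mul_eq_zero_of_right _ this
  · have := fine_cos p0 q0 hN hl
    rw [m0, zero_mul] at this
    simp only [S2, mul_assoc]
    rw [integral_const_mul]
    exact mul_eq_zero_of_right _ this
  · have := fine_sin p0 q0 hN hl
    rw [m0, zero_mul] at this
    simp only [S2, mul_assoc]
    rw [integral_const_mul]
    exact mul_eq_zero_of_right _ this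

lemma parts_smooth (t : ℝ) : ContDiff ℝ ∞ ((b.nrm d).S1 d N) ∧ ContDiff ℝ ∞ ((b.nrm d).S2 d N) ∧
    ContDiff ℝ ∞ ((b.nrm d).W d (cN b.F d b.s b.r N) N t) ∧
    Periodic3 ((b.nrm d).S1 d N) ∧ Periodic3 ((b.nrm d).S2 d N) ∧
    Periodic3 ((b.nrm d).W d (cN b.F d b.s b.r N) N t) := by
  refine ⟨contDiff_const.mul (wrap_smooth hd hN hth (k1_smooth hd) (k1_ht hd)),
    contDiff_const.mul (wrap_smooth hd hN hth (k0_smooth hd) (k0_ht hd)), ?_, ?_, ?_, ?_⟩
  · have w1 := wrap_smooth hd hN hth (hc_slice hd (b.F.la / N) b.Ω t) (hc_ht hd _ _ t)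
    have w2 := wrap_smooth hd hN hth (hs_slice hd (b.F.la / N) b.Ω t) (hs_ht hd _ _ t)
    have w3 := wrap_smooth hd hN hth (kr_smooth hd) (kr_ht hd)
    have w4 := (g1_contDiff b.α b.β).comp (ph_contDiff b.F.m)
    have w5 := (g0_contDiff b.α b.β).comp (ph_contDiff b.F.m)
    exact (contDiff_const.mul w3).add (contDiff_const.mul ((w4.mul w1).add (w5.mul w2)))
  · intro i x
    have := wrap_per hd hN hth (b := b) (k1 d) i x
    simp only at this
    simp only [S1, y_nrm]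
    rw [this]
  · intro i x
    have := wrap_per hd hN hth (b := b) (k0 d) i x
    simp only at this
    simp only [S2, y_nrm]
    rw [this]
  · intro i x
    have h1 := Frame.periodic_wrap (F := b.F) (fun y => y) b.s b.r N i x
    have h2 := cos_periodic b.F.m i x
    have h3 := sin_periodic b.F.m i x
    simp only at h1 h2 h3
    simp only [W, nrm, y, g0, g1]
    rw [h1, h2, h3]

/-- the modes of the flow -/
theorem Vf_modes {K : ℕ} (hK : ∀ i, |b.F.m i| ≤ K) {l : Fin 3 → ℤ} (hl : ∀ i, |l i| + K < N)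
    (t : ℝ) (i : Fin 3) :
    ∫ x in Dom, b.Vf d N t x i * Real.cos (ph l x)
      = (∫ x in Dom, b.tgt t x * Real.cos (ph l x)) * b.F.e i ∧
    ∫ x in Dom, b.Vf d N t x i * Real.sin (ph l x)
      = (∫ x in Dom, b.tgt t x * Real.sin (ph l x)) * b.F.e i := by
  have hl' : ∀ i, |l i| < N := fun i => by have := hl i; omega
  obtain ⟨⟨a1, a2⟩, a3, a4⟩ := S_modes hd hN hth hl'
  obtain ⟨w1, w2⟩ := W_modes hd hN hth hK hl t
  obtain ⟨c1, c2, c3, p1, p2, p3⟩ := parts_smooth hd hN hth t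
  constructor
  · have e : ∀ x, b.Vf d N t x i * Real.cos (ph l x)
        = ((b.nrm d).S1 d N x * Real.cos (ph l x)) * (b.F.la⁻¹ * b.F.m i)
        + ((b.nrm d).S2 d N x * Real.cos (ph l x)) * (b.F.lb⁻¹ * b.F.n i)
        + ((b.nrm d).W d (cN b.F d b.s b.r N) N t x * Real.cos (ph l x)) * b.F.e i := by
      intro x
      rw [Vf_apply hd hN hth]; ring
    simp only [e]
    rw [int3 ((int_cos p1 c1.continuous l).mul_const _) ((int_cos p2 c2.continuous l).mul_const _)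
      ((int_cos p3 c3.continuous l).mul_const _), integral_mul_const, integral_mul_const,
      integral_mul_const, a1, a3, w1]
    ring
  · have e : ∀ x, b.Vf d N t x i * Real.sin (ph l x)
        = ((b.nrm d).S1 d N x * Real.sin (ph l x)) * (b.F.la⁻¹ * b.F.m i)
        + ((b.nrm d).S2 d N x * Real.sin (ph l x)) * (b.F.lb⁻¹ * b.F.n i)
        + ((b.nrm d).W d (cN b.F d b.s b.r N) N t x * Real.sin (ph l x)) * b.F.e i := by
      intro x
      rw [Vf_apply hd hN hth]; ring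
    simp only [e]
    rw [int3 ((int_sin p1 c1.continuous l).mul_const _) ((int_sin p2 c2.continuous l).mul_const _)
      ((int_sin p3 c3.continuous l).mul_const _), integral_mul_const, integral_mul_const,
      integral_mul_const, a2, a4, w2]
    ring

omit hN in
/-- the bound in `H⁻¹` -/
theorem Vf_hm1 : ∃ C : ℝ, ∀ N : ℕ, 0 < N → ∀ (t : ℝ) (i : Fin 3), Hm1 C (fun x => b.Vf d N t x i) := by
  obtain ⟨D1, D10, hD1⟩ := ht_bounded (k1_ht hd) (k1_smooth hd).continuous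
  obtain ⟨D0, D00, hD0⟩ := ht_bounded (k0_ht hd) (k0_smooth hd).continuous
  obtain ⟨Dr, Dr0, hDr⟩ := ht_bounded (kr_ht hd) (kr_smooth hd).continuous
  obtain ⟨DX, DX0, hDX⟩ := ht_bounded (kX_ht hd) (kX_smooth hd).continuous
  set cb : ℝ := (2 / Real.pi * b.F.la * mn (fun x => q0 d (b.F.yc b.s b.r x)))⁻¹ with hcb
  set A : ℝ := |b.Ω| * D1 + |b.Ω| * D0 + |(b.nrm d).a₀| * Dr with hA
  set P : ℝ := cb * (2 * ((|b.α| + |b.β|) * DX)) with hP
  set L : ℝ := ∑ i, (|b.F.la⁻¹ * b.F.m i| + |b.F.lb⁻¹ * b.F.n i| + |(b.F.e i : ℝ)|) with hL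
  set vol := (volume Dom).toReal with hvol
  refine ⟨2 * (vol * ((A * L) ^ 2 * vol) + L ^ 2 * (vol * (P ^ 2 * vol))), fun N hN t i => ?_⟩
  obtain ⟨c1, c2, c3, p1, p2, p3⟩ := parts_smooth hd hN hth t
  have hN1 : (1 : ℝ) ≤ N := by exact_mod_cast hN
  obtain ⟨hJ0, hc0, hcle⟩ := cN_bound hd hth b.s b.r hN
  set c := cN b.F d b.s b.r N with hcc
  have hL1 : |b.F.la⁻¹ * b.F.m i| + |b.F.lb⁻¹ * b.F.n i| + |(b.F.e i : ℝ)| ≤ L :=
    Finset.single_le_sum (f := fun i => |b.F.la⁻¹ * b.F.m i| + |b.F.lb⁻¹ * b.F.n i|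
      + |(b.F.e i : ℝ)|) (fun _ _ => by positivity) (Finset.mem_univ i)
  have hL0 : 0 ≤ L := le_trans (by positivity) hL1
  have hA0 : 0 ≤ A := by positivity
  have hcb0 : 0 ≤ cb := hc0.le.trans hcle
  -- the bounded part
  let f : V → ℝ := fun x => (b.nrm d).S1 d N x * (b.F.la⁻¹ * b.F.m i)
    + (b.nrm d).S2 d N x * (b.F.lb⁻¹ * b.F.n i) + (b.nrm d).a₀ * kr d (b.y N x) * b.F.e i
  have hΩ : |b.Ω / N| ≤ |b.Ω| := by
    rw [abs_div, Nat.abs_cast]
    exact div_le_self (abs_nonneg _) hN1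
  have fb : ∀ x, |f x| ≤ A * L := by
    intro x
    have e1 : |(b.nrm d).S1 d N x| ≤ A := by
      have : |(b.nrm d).S1 d N x| ≤ |b.Ω| * D1 := by
        unfold S1
        rw [abs_mul, abs_neg]
        exact mul_le_mul hΩ (hD1 _) (abs_nonneg _) (abs_nonneg _)
      have h2 : 0 ≤ |b.Ω| * D0 + |(b.nrm d).a₀| * Dr := by positivity
      linarith
    have e2 : |(b.nrm d).S2 d N x| ≤ A := by
      have : |(b.nrm d).S2 d N x| ≤ |b.Ω| * D0 := by
        unfold S2
        rw [abs_mul]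
        exact mul_le_mul hΩ (hD0 _) (abs_nonneg _) (abs_nonneg _)
      have h2 : 0 ≤ |b.Ω| * D1 + |(b.nrm d).a₀| * Dr := by positivity
      linarith
    have e3 : |(b.nrm d).a₀ * kr d (b.y N x)| ≤ A := by
      have : |(b.nrm d).a₀ * kr d (b.y N x)| ≤ |(b.nrm d).a₀| * Dr := by
        rw [abs_mul]
        gcongr
        exact hDr _
      have h2 : 0 ≤ |b.Ω| * D1 + |b.Ω| * D0 := by positivity
      linarith
    calc |f x| ≤ |(b.nrm d).S1 d N x| * |b.F.la⁻¹ * b.F.m i|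
        + |(b.nrm d).S2 d N x| * |b.F.lb⁻¹ * b.F.n i|
        + |(b.nrm d).a₀ * kr d (b.y N x)| * |(b.F.e i : ℝ)| := by
          rw [← abs_mul, ← abs_mul, ← abs_mul]
          exact (abs_add_le _ _).trans (by gcongr; exact abs_add_le _ _)
      _ ≤ A * |b.F.la⁻¹ * b.F.m i| + A * |b.F.lb⁻¹ * b.F.n i| + A * |(b.F.e i : ℝ)| := by gcongr
      _ = A * (|b.F.la⁻¹ * b.F.m i| + |b.F.lb⁻¹ * b.F.n i| + |(b.F.e i : ℝ)|) := by ring
      _ ≤ A * L := by gcongr
  have fs : ContDiff ℝ ∞ f := ((c1.mul contDiff_const).add (c2.mul contDiff_const)).add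
    ((contDiff_const.mul (wrap_smooth hd hN hth (kr_smooth hd) (kr_ht hd))).mul contDiff_const)
  have fp : Periodic3 f := by
    intro j x
    have h1 := wrap_per hd hN hth (b := b) (kr d) j x
    simp only at h1
    simp only [f]
    rw [p1 j x, p2 j x, h1]
  -- the derivative part
  have ps := pot_smooth (b := b.nrm d) c N hd hN hth
  have pp := pot_periodic (b := b.nrm d) (d := d) c N
  have pb : ∀ x, |(b.nrm d).pot d c N x| ≤ P := by
    intro x
    unfold pot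
    rw [abs_mul, abs_of_pos hc0]
    have e1 := Real.abs_cos_le_one (b.F.la / N * b.y N x 0)
    have e2 := Real.abs_sin_le_one (b.F.la / N * b.y N x 0)
    have e3 := hDX (b.y N x)
    have e4 := g1_abs b.α b.β (ph b.F.m x)
    have e5 := g0_abs b.α b.β (ph b.F.m x)
    have hab : 0 ≤ |b.α| + |b.β| := by positivity
    have e6 : |g1 b.α b.β (ph b.F.m x) * (Real.cos (b.F.la / N * b.y N x 0) * kX d (b.y N x))
        + g0 b.α b.β (ph b.F.m x) * (Real.sin (b.F.la / N * b.y N x 0) * kX d (b.y N x))|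
        ≤ 2 * ((|b.α| + |b.β|) * DX) := by
      refine (abs_add_le _ _).trans ?_
      rw [abs_mul, abs_mul, abs_mul, abs_mul, two_mul]
      have q1 : |Real.cos (b.F.la / N * b.y N x 0)| * |kX d (b.y N x)| ≤ 1 * DX := by gcongr
      have q2 : |Real.sin (b.F.la / N * b.y N x 0)| * |kX d (b.y N x)| ≤ 1 * DX := by gcongr
      rw [one_mul] at q1 q2
      gcongr
    exact mul_le_mul hcle e6 (abs_nonneg _) hcb0
  have hder := (Hm1.of_deriv (ps.of_le (by exact_mod_cast le_top)) pp pb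
    (b.F.et_sq (b.Ω * t))).const_mul (b.F.e i : ℝ)
  have hf := Hm1.of_bdd fs.continuous fb
  have gs : Continuous (fun x => (b.F.e i : ℝ)
      * fderiv ℝ ((b.nrm d).pot d c N) x (b.F.et (b.Ω * t))) :=
    continuous_const.mul ((ps.continuous_fderiv (by simp)).clm_apply continuous_const)
  have gp : Periodic3 (fun x => (b.F.e i : ℝ)
      * fderiv ℝ ((b.nrm d).pot d c N) x (b.F.et (b.Ω * t))) := by
    intro j x
    simp only
    rw [pp.fderiv j x]
  have hsum := Hm1.add hf hder fp gp fs.continuous gs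
  have e : (fun x => b.Vf d N t x i) = fun x => f x + (b.F.e i : ℝ)
      * fderiv ℝ ((b.nrm d).pot d c N) x (b.F.et (b.Ω * t)) := by
    ext x
    rw [Vf_apply hd hN hth, W_eq (b := b.nrm d) c N hd hN hth]
    simp only [f, y_nrm]
    have : (b.nrm d).F = b.F := rfl
    rw [this]
    have : (b.nrm d).Ω = b.Ω := rfl
    rw [this]
    ring
  rw [e]
  refine hsum.mono ?_
  have he : (b.F.e i : ℝ) ^ 2 ≤ L ^ 2 := by
    rw [← sq_abs]
    have : |(b.F.e i : ℝ)| ≤ L := le_trans (by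
      have h1 := abs_nonneg (b.F.la⁻¹ * b.F.m i)
      have h2 := abs_nonneg (b.F.lb⁻¹ * b.F.n i)
      linarith) hL1
    gcongr
  gcongr

end Blk

end Pool.Agent.Run7.h507.Sh
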