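import Pool.Agent.Run7.h507.Sh8

/-!
# Superposition of the flows in disjoint families of tubes
-/

open MeasureTheory Set
open scoped Topology Pointwise ContDiff

set_option autoImplicit false
set_option linter.unusedSectionVars false

namespace Pool.Agent.Run7.h507.Sh

open Pool.Agent.H708R2.EulerSign Pool.Agent.H708R2.EulerModes Pool.Agent.R739.ET

lemma cos_wr (r : ℝ) : Real.cos (wr r) = Real.cos r := by
  obtain ⟨z, hz⟩ := wr_exists r
  conv_rhs => rw [hz]
  rw [Real.cos_add_int_mul_two_pi]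

/-- a positive lower bound of finitely many positive numbers -/
lemma exists_lower {κ : Type*} [Fintype κ] (δ : κ → ℝ) (h : ∀ q, 0 < δ q) :
    ∃ η : ℝ, 0 < η ∧ η ≤ 1 ∧ ∀ q, η ≤ δ q := by
  have h0 : 0 ≤ ∑ q, (δ q)⁻¹ := Finset.sum_nonneg fun q _ => (inv_pos.2 (h q)).le
  refine ⟨(∑ q, (δ q)⁻¹ + 1)⁻¹, by positivity, inv_le_one_of_one_le₀ (by linarith), fun q => ?_⟩
  rw [inv_le_comm₀ (by positivity) (h q)]
  have : (δ q)⁻¹ ≤ ∑ q, (δ q)⁻¹ :=
    Finset.single_le_sum (f := fun q => (δ q)⁻¹) (fun q _ => (inv_pos.2 (h q)).le)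
      (Finset.mem_univ q)
  linarith

/-- the function `gfun` is small in the thin tube -/
lemma gfun_le (F : Frame) (j : ℕ) (x : V) : gfun F.m F.n j x
    ≤ (F.la * F.la + F.lb * F.lb) / 2 * rad (F.yc (phs (2 * j + 1)) (phs (2 * j + 2)) x) := by
  have hla := F.la_pos
  have hlb := F.lb_pos
  set y := F.yc (phs (2 * j + 1)) (phs (2 * j + 2)) x with hy
  have e0 : wr (ph F.m x - phs (2 * j + 1)) = F.la * y 0 := by
    rw [hy, Frame.yc_0]; field_simp
  have e1 : wr (ph F.n x - phs (2 * j + 2)) = F.lb * y 1 := by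
    rw [hy, Frame.yc_1]; field_simp
  have h0 := Real.one_sub_sq_div_two_le_cos (x := F.la * y 0)
  have h1 := Real.one_sub_sq_div_two_le_cos (x := F.lb * y 1)
  rw [← e0, cos_wr, e0] at h0
  rw [← e1, cos_wr, e1] at h1
  unfold gfun rad
  nlinarith [mul_nonneg (mul_pos hla hla).le (sq_nonneg (y 1)),
    mul_nonneg (mul_pos hlb hlb).le (sq_nonneg (y 0))]

section geometry

variable {ι : Type} [Fintype ι] (F : ι → Frame)

/-- the size of the tubes -/
theorem exists_size : ∃ (e : ι → ℕ) (d : ℝ), 0 < d ∧ (∀ j, (F j).Thin d) ∧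
    ∀ i j, i ≠ j → ∀ x, d ≤ rad ((F i).yc (phs (2 * e i + 1)) (phs (2 * e i + 2)) x) ∨
      d ≤ rad ((F j).yc (phs (2 * e j + 1)) (phs (2 * e j + 2)) x) := by
  classical
  let e' : ι ≃ Fin (Fintype.card ι) := Fintype.equivFin ι
  let e : ι → ℕ := fun j => e' j
  have hδ : ∀ q : ι × ι, ∃ δ : ℝ, 0 < δ ∧ (q.1 ≠ q.2 → ∀ x,
      δ ≤ gfun (F q.1).m (F q.1).n (e q.1) x + gfun (F q.2).m (F q.2).n (e q.2) x) := by
    intro q
    by_cases hq : q.1 = q.2
    · exact ⟨1, one_pos, fun h => absurd hq h⟩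
    · have hne : e q.1 ≠ e q.2 := by
        intro h
        exact hq (e'.injective (Fin.ext h))
      obtain ⟨δ, h1, h2⟩ := Periodic3.exists_pos_le
        (f := fun x => gfun (F q.1).m (F q.1).n (e q.1) x + gfun (F q.2).m (F q.2).n (e q.2) x)
        (by
          intro i x
          simp only
          rw [gfun_periodic _ _ _ i x, gfun_periodic _ _ _ i x])
        ((gfun_contDiff _ _ _).continuous.add (gfun_contDiff _ _ _).continuous)
        (fun x => gfun_add_pos _ _ _ _ hne x)
      exact ⟨δ, h1, fun _ => h2⟩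
  choose δ hδ1 hδ2 using hδ
  obtain ⟨η, hη, hη1, hηle⟩ := exists_lower δ hδ1
  have hpos : ∀ j, 0 ≤ (F j).la * (F j).la + (F j).lb * (F j).lb := fun j => by
    have := (F j).la_pos
    have := (F j).lb_pos
    positivity
  set Sg : ℝ := ∑ j, ((F j).la * (F j).la + (F j).lb * (F j).lb) with hSg
  have hSg0 : 0 ≤ Sg := Finset.sum_nonneg fun j _ => hpos j
  have hle : ∀ j, (F j).la * (F j).la + (F j).lb * (F j).lb ≤ Sg := fun j =>
    Finset.single_le_sum (f := fun j => (F j).la * (F j).la + (F j).lb * (F j).lb)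
      (fun j _ => hpos j) (Finset.mem_univ j)
  have hdpos : 0 < η / (1 + Sg) := by positivity
  have hd1 : η / (1 + Sg) * Sg < η := by
    rw [div_mul_eq_mul_div, div_lt_iff₀ (by positivity)]
    nlinarith
  refine ⟨e, η / (1 + Sg), hdpos, fun j => ⟨?_, ?_⟩, fun i j hij x => ?_⟩
  · have h1 := hle j
    have h2 : 0 ≤ (F j).lb * (F j).lb := mul_self_nonneg _
    calc η / (1 + Sg) * ((F j).la * (F j).la) ≤ η / (1 + Sg) * Sg := by gcongr; linarith
      _ ≤ 1 := by linarith
  · have h1 := hle j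
    have h2 : 0 ≤ (F j).la * (F j).la := mul_self_nonneg _
    calc η / (1 + Sg) * ((F j).lb * (F j).lb) ≤ η / (1 + Sg) * Sg := by gcongr; linarith
      _ ≤ 1 := by linarith
  · by_contra hcon
    push Not at hcon
    obtain ⟨h1, h2⟩ := hcon
    have g1 := gfun_le (F i) (e i) x
    have g2 := gfun_le (F j) (e j) x
    have g3 := hδ2 (i, j) hij x
    have g4 := hηle (i, j)
    simp only at g3
    have r1 := rad_nonneg ((F i).yc (phs (2 * e i + 1)) (phs (2 * e i + 2)) x)
    have r2 := rad_nonneg ((F j).yc (phs (2 * e j + 1)) (phs (2 * e j + 2)) x)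
    have k1 : ((F i).la * (F i).la + (F i).lb * (F i).lb) / 2 *
        rad ((F i).yc (phs (2 * e i + 1)) (phs (2 * e i + 2)) x) ≤ Sg / 2 * (η / (1 + Sg)) := by
      have := hle i
      gcongr
    have k2 : ((F j).la * (F j).la + (F j).lb * (F j).lb) / 2 *
        rad ((F j).yc (phs (2 * e j + 1)) (phs (2 * e j + 2)) x) ≤ Sg / 2 * (η / (1 + Sg)) := by
      have := hle j
      gcongr
    nlinarith

end geometry

/-- superposition of solutions with disjoint supports -/
theorem superpose {ι : Type} [Fintype ι] {U : ι → ℝ → V → V} {P : ι → V → ℝ}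
    (hU : ∀ j, ContDiff ℝ ∞ (fun z : ℝ × V => U j z.1 z.2)) (hP : ∀ j, ContDiff ℝ ∞ (P j))
    (hdiv : ∀ j t x, divergence (U j t) x = 0)
    (hmom : ∀ j t x i, deriv (fun r => U j r x i) t + fderiv ℝ (U j t) x (U j t x) i
      = - fderiv ℝ (P j) x (Pi.single i 1))
    (hdis : ∀ i j, i ≠ j → ∀ t x, U i t x = 0 ∨ U j t x = 0) :
    (∀ t x, divergence (fun x => ∑ j, U j t x) x = 0) ∧
    (∀ t x i, deriv (fun r => (∑ j, U j r x) i) t
      + fderiv ℝ (fun x => ∑ j, U j t x) x (∑ j, U j t x) i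
      = - fderiv ℝ (fun x => ∑ j, P j x) x (Pi.single i 1)) := by
  classical
  have hs : ∀ j t, ContDiff ℝ ∞ (U j t) := fun j t =>
    ContDiff.comp (g := fun z : ℝ × V => U j z.1 z.2) (f := fun x : V => ((t, x) : ℝ × V)) (hU j)
      (contDiff_const.prodMk contDiff_id)
  have hd : ∀ j t, Differentiable ℝ (U j t) := fun j t => (hs j t).differentiable (by simp)
  have hder : ∀ t x, fderiv ℝ (fun x => ∑ j, U j t x) x = ∑ j, fderiv ℝ (U j t) x := by
    intro t x
    exact (HasFDerivAt.fun_sum fun j _ => (hd j t x).hasFDerivAt).fderiv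
  have hderP : ∀ x, fderiv ℝ (fun x => ∑ j, P j x) x = ∑ j, fderiv ℝ (P j) x := by
    intro x
    exact (HasFDerivAt.fun_sum fun j _ => ((hP j).differentiable (by simp) x).hasFDerivAt).fderiv
  have htime : ∀ j t x, DifferentiableAt ℝ (fun r => U j r x) t := by
    intro j t x
    have h : ContDiff ℝ ∞ (fun r : ℝ => U j r x) :=
      ContDiff.comp (g := fun z : ℝ × V => U j z.1 z.2) (f := fun r : ℝ => ((r, x) : ℝ × V)) (hU j)
        (contDiff_id.prodMk contDiff_const)
    exact h.differentiable (by simp) t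
  have hcross : ∀ i j, i ≠ j → ∀ t x, fderiv ℝ (U j t) x (U i t x) = 0 := by
    intro i j hij t x
    by_cases hx : U i t x = 0
    · rw [hx, map_zero]
    · have hO : IsOpen {y | U i t y ≠ 0} := isOpen_ne_fun (hs i t).continuous continuous_const
      have hev : U j t =ᶠ[𝓝 x] fun _ => 0 := by
        filter_upwards [hO.mem_nhds hx] with y hy
        exact (hdis i j hij t y).resolve_left hy
      rw [hev.fderiv_eq]
      simp
  constructor
  · intro t x
    rw [divergence_eq_sum, hder]
    simp only [sum_apply, Finset.sum_apply]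
    rw [Finset.sum_comm]
    refine Finset.sum_eq_zero fun j _ => ?_
    exact (divergence_eq_sum _ _).symm.trans (hdiv j t x)
  · intro t x i
    have e1 : deriv (fun r => (∑ j, U j r x) i) t = ∑ j, deriv (fun r => U j r x i) t := by
      have h : HasDerivAt (fun r => ∑ j, U j r x i) (∑ j, deriv (fun r => U j r x i) t) t := by
        refine HasDerivAt.fun_sum fun j _ => ?_
        exact (hasDerivAt_pi.1 (htime j t x).hasDerivAt i).differentiableAt.hasDerivAt
      have e : (fun r => (∑ j, U j r x) i) = fun r => ∑ j, U j r x i := by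
        ext r; exact Finset.sum_apply i _ _
      rw [e]
      exact h.deriv
    have e2 : fderiv ℝ (fun x => ∑ j, U j t x) x (∑ j, U j t x) i
        = ∑ j, fderiv ℝ (U j t) x (U j t x) i := by
      rw [hder]
      simp only [sum_apply, Finset.sum_apply, map_sum]
      refine Finset.sum_congr rfl fun j _ => ?_
      rw [Finset.sum_eq_single j]
      · intro k _ hkj
        rw [hcross j k hkj.symm t x]
        rfl
      · intro h; exact absurd (Finset.mem_univ j) h
    rw [e1, e2, ← Finset.sum_add_distrib, hderP, sum_apply, ← Finset.sum_neg_distrib]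
    exact Finset.sum_congr rfl fun j _ => hmom j t x i

/-- uniqueness in the class of classical solutions -/
theorem unique_smooth {u : ℝ → V → V} {p : V → ℝ}
    (hj : ContDiff ℝ ∞ (fun z : ℝ × V => u z.1 z.2)) (hp : ContDiff ℝ ∞ p)
    (hup : ∀ t, Periodic3 (u t)) (hpp : Periodic3 p)
    (hdiv : ∀ t x, divergence (u t) x = 0)
    (hmom : ∀ t x i, deriv (fun r => u r x i) t + fderiv ℝ (u t) x (u t x) i
      = - fderiv ℝ p x (Pi.single i 1)) {T : ℝ} {w : ℝ → V → V} {q : ℝ → V → ℝ}
    (hw : IsClassicalSolution (Ico 0 T) w q) {t₀ : ℝ} (ht₀ : t₀ ∈ Ico 0 T) (h0 : w t₀ = u t₀) :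
    ∀ t ∈ Ico 0 T, w t = u t := by
  have hg : ∀ (t : ℝ) (x : V), fderiv ℝ (u t) x
      = (fderiv ℝ (fun z : ℝ × V => u z.1 z.2) (t, x)).comp
        (ContinuousLinearMap.inr ℝ ℝ V) := by
    intro t x
    have h1 := (hj.differentiable (by simp) (t, x)).hasFDerivAt
    have h2 : HasFDerivAt (fun y : V => ((t, y) : ℝ × V)) (ContinuousLinearMap.inr ℝ ℝ V) x := by
      have := (hasFDerivAt_const t x).prodMk (hasFDerivAt_id (𝕜 := ℝ) x)
      exact this
    exact (h1.comp x h2).fderiv
  have hcont : Continuous (fun z : ℝ × V =>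
      ‖(fderiv ℝ (fun z : ℝ × V => u z.1 z.2) z).comp (ContinuousLinearMap.inr ℝ ℝ V)‖) :=
    ((hj.continuous_fderiv (by simp)).clm_comp continuous_const).norm
  have hK : IsCompact (Icc 0 T ×ˢ closure Dom) := isCompact_Icc.prod dom_bdd.isCompact_closure
  obtain ⟨C, hC⟩ := hK.exists_bound_of_continuousOn hcont.continuousOn
  have hbd : ∀ t ∈ Icc 0 T, ∀ x, ‖fderiv ℝ (u t) x‖ ≤ C := by
    intro t ht x
    obtain ⟨g, hg1, -⟩ := dom_exists_unique x
    have hp' := (hup t).fderiv
    have h1 : fderiv ℝ (u t) x = fderiv ℝ (u t) (g +ᵥ x : V) := (lat_invariant hp' g x).symm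
    rw [h1, hg]
    have := hC (t, (g +ᵥ x : V)) ⟨ht, subset_closure hg1⟩
    rwa [norm_norm] at this
  have hK' : ∀ t ∈ Ico 0 T, ∀ x i j, |grad (u t) x i j| ≤ C := by
    intro t ht x i j
    have h1 := norm_le_pi_norm (fderiv ℝ (u t) x (Pi.single j 1)) i
    have h2 := (fderiv ℝ (u t) x).le_opNorm (Pi.single j 1)
    have h3 : ‖(Pi.single j (1 : ℝ) : V)‖ ≤ 1 := by
      rw [pi_norm_le_iff_of_nonneg zero_le_one]
      intro k
      by_cases hk : k = j
      · subst hk; simp
      · simp [hk]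
    have h4 := hbd t ⟨ht.1, ht.2.le⟩ x
    have h5 : ‖fderiv ℝ (u t) x‖ * ‖(Pi.single j (1 : ℝ) : V)‖ ≤ C * 1 :=
      mul_le_mul h4 h3 (norm_nonneg _) ((norm_nonneg _).trans h4)
    rw [mul_one] at h5
    exact (h1.trans h2).trans h5
  exact unique' hw (hj.of_le (by exact_mod_cast le_top)) hup hdiv (p := fun _ => p)
    (fun _ => hp.of_le (by exact_mod_cast le_top)) (fun _ => hpp)
    (fun t x i => by rw [sum_mul_clm]; exact hmom t x i) hK' ht₀ h0

namespace Blk

variable {b : Blk} {d : ℝ} {N : ℕ} (hd : 0 < d) (hN : 0 < N) (hth : b.F.Thin d)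

include hd hN hth in
lemma P_smooth : ContDiff ℝ ∞ ((b.nrm d).P d N) ∧ Periodic3 ((b.nrm d).P d N) := by
  constructor
  · exact contDiff_const.mul (wrap_smooth hd hN hth (kP_smooth hd) (kP_ht hd))
  · intro i x
    have := wrap_per hd hN hth (b := b) (kP d) i x
    simp only at this
    simp only [P, y_nrm]
    rw [this]

lemma Vf_time (t τ : ℝ) (z : ℤ) (hz : b.Ω * τ = z * (2 * Real.pi)) (x : V) :
    b.Vf d N (t + τ) x = b.Vf d N t x := by
  have e : b.Ω * (t + τ) = b.Ω * t + z * (2 * Real.pi) := by rw [mul_add, hz]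
  have e1 : ∀ ν y, hc ν d b.Ω (t + τ) y = hc ν d b.Ω t y := by
    intro ν y
    unfold hc gq
    rw [e, Real.cos_add_int_mul_two_pi, Real.sin_add_int_mul_two_pi]
  have e2 : ∀ ν y, hs ν d b.Ω (t + τ) y = hs ν d b.Ω t y := by
    intro ν y
    unfold hs gq
    rw [e, Real.cos_add_int_mul_two_pi, Real.sin_add_int_mul_two_pi]
  unfold Vf U Frame.vel W
  have hΩ : (b.nrm d).Ω = b.Ω := rfl
  simp only [hΩ, e1, e2]

end Blk

/-- smooth solutions of the Euler equations for all times with a time-independent pressure -/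
structure Sol (u : ℝ → V → V) (p : V → ℝ) : Prop where
  smooth : ContDiff ℝ ∞ (fun z : ℝ × V => u z.1 z.2)
  psmooth : ContDiff ℝ ∞ p
  per : ∀ t, Periodic3 (u t)
  pper : Periodic3 p
  div : ∀ t x, divergence (u t) x = 0
  mom : ∀ t x i, deriv (fun r => u r x i) t + fderiv ℝ (u t) x (u t x) i
      = - fderiv ℝ p x (Pi.single i 1)

lemma Sol.classical {u : ℝ → V → V} {p : V → ℝ} (h : Sol u p) :
    IsClassicalSolution univ u (fun _ => p) := by
  refine ⟨?_, ?_, fun t _ => h.per t, fun t _ => h.pper, fun t _ => h.div t, fun t _ x i => ?_⟩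
  · exact (h.smooth.of_le (by exact_mod_cast le_top)).contDiffOn
  · exact ((h.psmooth.comp contDiff_snd).of_le (by exact_mod_cast le_top)).contDiffOn
  · rw [derivWithin_univ, sum_mul_clm]
    exact h.mom t x i

/-- the field seen at low frequencies -/
noncomputable def tg {ι : Type} [Fintype ι] (F : ι → Frame) (Ω a₀ α β : ι → ℝ) (t : ℝ) (x : V)
    (i : Fin 3) : ℝ :=
  ∑ j, (a₀ j + Real.cos (Ω j * t) * g0 (α j) (β j) (ph (F j).m x)) * (F j).e i

theorem exists_flow {ι : Type} [Fintype ι] (F : ι → Frame) (Ω a₀ α β : ι → ℝ) (K : ℕ)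
    (hK : ∀ j i, |(F j).m i| ≤ K) (τ : ℝ) (hτ : ∀ j, ∃ z : ℤ, Ω j * τ = z * (2 * Real.pi)) :
    ∃ C : ℝ, ∀ N : ℕ, 0 < N → ∃ (u : ℝ → V → V) (p : V → ℝ), Sol u p ∧
      (∀ t x, u (t + τ) x = u t x) ∧ (∀ t i, Hm1 C (fun x => u t x i)) ∧
      (∀ l : Fin 3 → ℤ, (∀ i, |l i| + K < N) → ∀ t i,
        ∫ x in Dom, u t x i * Real.cos (ph l x)
          = ∫ x in Dom, tg F Ω a₀ α β t x i * Real.cos (ph l x) ∧
        ∫ x in Dom, u t x i * Real.sin (ph l x)
          = ∫ x in Dom, tg F Ω a₀ α β t x i * Real.sin (ph l x)) := by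
  classical
  obtain ⟨e, d, hd, hth, hdis⟩ := exists_size F
  let B : ι → Blk := fun j => ⟨F j, phs (2 * e j + 1), phs (2 * e j + 2), Ω j, a₀ j, α j, β j⟩
  have hB := fun j => Blk.Vf_hm1 (b := B j) hd (hth j)
  choose C hC using hB
  refine ⟨Fintype.card ι * ∑ j, C j, fun N hN => ?_⟩
  have hsol := fun j => Blk.solution (b := (B j).nrm d) (cN (B j).F d (B j).s (B j).r N) N hd hN
    (hth j)
  have hper : ∀ j t, Periodic3 ((B j).Vf d N t) := fun j => (hsol j).2.1
  have hjoint : ∀ j, ContDiff ℝ ∞ (fun z : ℝ × V => (B j).Vf d N z.1 z.2) := fun j => (hsol j).1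
  have hslice : ∀ j t, Continuous ((B j).Vf d N t) := fun j t =>
    (ContDiff.comp (g := fun z : ℝ × V => (B j).Vf d N z.1 z.2)
      (f := fun x : V => ((t, x) : ℝ × V)) (hjoint j) (contDiff_const.prodMk contDiff_id)).continuous
  have hsup := superpose (U := fun j => (B j).Vf d N) (P := fun j => ((B j).nrm d).P d N)
    hjoint (fun j => (Blk.P_smooth hd hN (hth j)).1)
    (fun j => (hsol j).2.2.1) (fun j => (hsol j).2.2.2) (by
      intro i j hij t x
      rcases hdis i j hij ((N : ℝ) • x) with h | h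
      · exact Or.inl (Blk.Vf_zero (b := B i) hd hN (hth i) h)
      · exact Or.inr (Blk.Vf_zero (b := B j) hd hN (hth j) h))
  refine ⟨fun t x => ∑ j, (B j).Vf d N t x, fun x => ∑ j, ((B j).nrm d).P d N x,
    ⟨?_, ?_, ?_, ?_, hsup.1, hsup.2⟩, ?_, ?_, ?_⟩
  · exact ContDiff.sum fun j _ => hjoint j
  · exact ContDiff.sum fun j _ => (Blk.P_smooth (b := B j) hd hN (hth j)).1
  · intro t i x
    simp only
    exact Finset.sum_congr rfl fun j _ => hper j t i x
  · intro i x
    simp only
    exact Finset.sum_congr rfl fun j _ => (Blk.P_smooth (b := B j) hd hN (hth j)).2 i x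
  · intro t x
    simp only
    refine Finset.sum_congr rfl fun j _ => ?_
    obtain ⟨z, hz⟩ := hτ j
    exact Blk.Vf_time (b := B j) t τ z hz x
  · intro t i
    have := Hm1.sum (M := C) (f := fun j x => (B j).Vf d N t x i) (fun j => hC j N hN t i)
      (fun j => comp_periodic (hper j t) i) (fun j => (continuous_apply i).comp (hslice j t))
    simpa [Finset.sum_apply] using this
  · intro l hl t i
    have hm := fun j => Blk.Vf_modes (b := B j) hd hN (hth j) (hK j) hl t i
    have hgc : ∀ j, Continuous (fun x => (B j).tgt t x) := fun j =>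
      continuous_const.add (continuous_const.mul
        ((g0_contDiff _ _).continuous.comp (ph_contDiff _).continuous))
    have hgp : ∀ j, Periodic3 (fun x => (B j).tgt t x) := by
      intro j i x
      have h2 := cos_periodic (B j).F.m i x
      have h3 := sin_periodic (B j).F.m i x
      simp only at h2 h3
      simp only [Blk.tgt, g0]
      rw [h2, h3]
    constructor
    · have e1 : ∀ x, (∑ j, (B j).Vf d N t x) i * Real.cos (ph l x)
          = ∑ j, (B j).Vf d N t x i * Real.cos (ph l x) := by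
        intro x; rw [Finset.sum_apply, Finset.sum_mul]
      have e2 : ∀ x, tg F Ω a₀ α β t x i * Real.cos (ph l x)
          = ∑ j, ((B j).tgt t x * Real.cos (ph l x)) * (B j).F.e i := by
        intro x
        unfold tg
        rw [Finset.sum_mul]
        exact Finset.sum_congr rfl fun j _ => by simp only [Blk.tgt, B]; ring
      simp only [e1, e2]
      rw [integral_finsetSum _ fun j _ =>
          int_cos (comp_periodic (hper j t) i) ((continuous_apply i).comp (hslice j t)) l,
        integral_finsetSum _ fun j _ => (int_cos (hgp j) (hgc j) l).mul_const _]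
      refine Finset.sum_congr rfl fun j _ => ?_
      rw [integral_mul_const]
      exact (hm j).1
    · have e1 : ∀ x, (∑ j, (B j).Vf d N t x) i * Real.sin (ph l x)
          = ∑ j, (B j).Vf d N t x i * Real.sin (ph l x) := by
        intro x; rw [Finset.sum_apply, Finset.sum_mul]
      have e2 : ∀ x, tg F Ω a₀ α β t x i * Real.sin (ph l x)
          = ∑ j, ((B j).tgt t x * Real.sin (ph l x)) * (B j).F.e i := by
        intro x
        unfold tg
        rw [Finset.sum_mul]
        exact Finset.sum_congr rfl fun j _ => by simp only [Blk.tgt, B]; ring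
      simp only [e1, e2]
      rw [integral_finsetSum _ fun j _ =>
          int_sin (comp_periodic (hper j t) i) ((continuous_apply i).comp (hslice j t)) l,
        integral_finsetSum _ fun j _ => (int_sin (hgp j) (hgc j) l).mul_const _]
      refine Finset.sum_congr rfl fun j _ => ?_
      rw [integral_mul_const]
      exact (hm j).2

end Pool.Agent.Run7.h507.Sh
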